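import Mathlib

/-! Powers of elements of `SL(2,F)` in terms of the trace. -/

namespace Pool.Agent.Lib.MP_bacaed_al

open Matrix Matrix.SpecialLinearGroup
open scoped MatrixGroups

universe u

/-- The trace of an element of `SL(2,F)`. -/
def tr {F : Type u} [Field F] (g : SL(2, F)) : F := Matrix.trace (g : Matrix (Fin 2) (Fin 2) F)

section alg

variable {F : Type u} [Field F]

theorem sq_eq (g : SL(2, F)) : (g : Matrix (Fin 2) (Fin 2) F) * (g : Matrix (Fin 2) (Fin 2) F) =
    tr g • (g : Matrix (Fin 2) (Fin 2) F) - 1 := by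
  have hd : (g : Matrix (Fin 2) (Fin 2) F) 0 0 * (g : Matrix (Fin 2) (Fin 2) F) 1 1 -
      (g : Matrix (Fin 2) (Fin 2) F) 0 1 * (g : Matrix (Fin 2) (Fin 2) F) 1 0 = 1 := by
    rw [← Matrix.det_fin_two]; exact g.2
  have ht : tr g = (g : Matrix (Fin 2) (Fin 2) F) 0 0 + (g : Matrix (Fin 2) (Fin 2) F) 1 1 :=
    Matrix.trace_fin_two _
  ext i j
  fin_cases i <;> fin_cases j <;>
    simp [Matrix.mul_apply, Fin.sum_univ_two, ht] <;>
    first
    | linear_combination (-1 : F) * hd
    | ring1

theorem pow_formula (K : Type u) [Field K] [Algebra F K] (t : F) (n : ℕ) :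
    ∃ a b : F, (∀ g : SL(2, F), tr g = t → (g : Matrix (Fin 2) (Fin 2) F) ^ n =
        a • (g : Matrix (Fin 2) (Fin 2) F) + b • 1) ∧
      (∀ x : K, x * x - algebraMap F K t * x + 1 = 0 →
        x ^ n = algebraMap F K a * x + algebraMap F K b) := by
  induction n with
  | zero => exact ⟨0, 1, fun g _ => by simp, fun x _ => by simp⟩
  | succ n ih =>
    obtain ⟨a, b, h1, h2⟩ := ih
    refine ⟨a * t + b, -a, fun g hg => ?_, fun x hx => ?_⟩
    · rw [pow_succ, h1 g hg, add_mul, smul_mul_assoc, sq_eq, hg, smul_mul_assoc, one_mul,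
        smul_sub, add_smul, smul_smul, neg_smul]
      abel
    · rw [pow_succ, h2 x hx, map_add, map_mul, map_neg]
      linear_combination (algebraMap F K a) * hx

theorem center_of_scalar (g : SL(2, F)) (b : F)
    (h : (g : Matrix (Fin 2) (Fin 2) F) = b • 1) : g ∈ Subgroup.center SL(2, F) := by
  rw [Matrix.SpecialLinearGroup.mem_center_iff]
  refine ⟨b, ?_, ?_⟩
  · have := g.2
    rw [h] at this
    simpa [Matrix.det_smul] using this
  · rw [h]
    ext i j
    simp [Matrix.scalar_apply, Matrix.diagonal_apply, Matrix.smul_apply, Matrix.one_apply]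

theorem sq_of_center (g : SL(2, F)) (h : g ∈ Subgroup.center SL(2, F)) : g ^ 2 = 1 := by
  rw [Matrix.SpecialLinearGroup.mem_center_iff] at h
  obtain ⟨r, hr, h⟩ := h
  apply Subtype.ext
  change (g : Matrix (Fin 2) (Fin 2) F) ^ 2 = 1
  rw [← h, ← map_pow]
  rw [show r ^ 2 = 1 by simpa using hr, map_one]

theorem pow_mem_center (K : Type u) [Field K] [Algebra F K] (t : F) (x : K)
    (hx : x * x - algebraMap F K t * x + 1 = 0) (hx2 : x * x ≠ 1) (n : ℕ)
    (hn : x ^ (2 * n) = 1) (g : SL(2, F)) (hg : tr g = t) :
    g ^ n ∈ Subgroup.center SL(2, F) := by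
  obtain ⟨a, b, h1, h2⟩ := pow_formula K t n
  have hx0 : x ≠ 0 := by
    rintro rfl
    simp at hx
  have hy : x⁻¹ * x⁻¹ - algebraMap F K t * x⁻¹ + 1 = 0 := by
    field_simp
    linear_combination hx
  have e1 := h2 x hx
  have e2 := h2 x⁻¹ hy
  have e3 : x ^ n = (x⁻¹) ^ n := by
    have : x ^ n * x ^ n = 1 := by rw [← pow_add, ← two_mul]; exact hn
    rw [inv_pow]
    exact eq_inv_of_mul_eq_one_left this
  have e4 : algebraMap F K a * (x - x⁻¹) = 0 := by
    linear_combination e3 - e1 + e2
  have e5 : x - x⁻¹ ≠ 0 := by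
    intro h
    apply hx2
    have : x = x⁻¹ := sub_eq_zero.mp h
    calc x * x = x * x⁻¹ := by rw [← this]
      _ = 1 := mul_inv_cancel₀ hx0
  have e6 : a = 0 := by
    have := (mul_eq_zero.mp e4).resolve_right e5
    exact (map_eq_zero (algebraMap F K)).mp this
  apply center_of_scalar _ b
  rw [Matrix.SpecialLinearGroup.coe_pow, h1 g hg, e6, zero_smul, zero_add]

theorem exists_frob [Fintype F] (t : F) (ht : ∀ a : F, a * (t - a) ≠ 1) :
    ∃ x : AlgebraicClosure F, x * x - algebraMap F (AlgebraicClosure F) t * x + 1 = 0 ∧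
      x * x ≠ 1 ∧ x ^ (Fintype.card F + 1) = 1 := by
  classical
  let K := AlgebraicClosure F
  obtain ⟨x, hx⟩ := IsAlgClosed.exists_root
    (Polynomial.X ^ 2 - Polynomial.C (algebraMap F K t) * Polynomial.X + 1 : Polynomial K) (by
      have : (Polynomial.X ^ 2 - Polynomial.C (algebraMap F K t) * Polynomial.X + 1 :
        Polynomial K).degree = 2 := by compute_degree!
      rw [this]
      decide)
  have hx1 : x * x - algebraMap F K t * x + 1 = 0 := by
    have := hx
    simp only [Polynomial.IsRoot.def, Polynomial.eval_add, Polynomial.eval_sub,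
      Polynomial.eval_pow, Polynomial.eval_X, Polynomial.eval_mul, Polynomial.eval_C,
      Polynomial.eval_one] at this
    linear_combination this
  have hnot : ∀ a : F, algebraMap F K a ≠ x := by
    intro a ha
    apply ht a
    rw [← ha] at hx1
    have h0 : algebraMap F K (a * a - t * a + 1) = 0 := by
      rw [map_add, map_sub, map_mul, map_mul, map_one]; exact hx1
    have h1 : a * a - t * a + 1 = 0 := (map_eq_zero (algebraMap F K)).mp h0
    linear_combination (-1 : F) * h1
  refine ⟨x, hx1, ?_, ?_⟩
  · intro h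
    have : (x - 1) * (x + 1) = 0 := by linear_combination h
    rcases mul_eq_zero.mp this with h | h
    · exact hnot 1 (by rw [map_one]; exact (sub_eq_zero.mp h).symm)
    · exact hnot (-1) (by rw [map_neg, map_one]; exact (eq_neg_of_add_eq_zero_left h).symm)
  · have hf : x ^ Fintype.card F * x ^ Fintype.card F -
        algebraMap F K t * x ^ Fintype.card F + 1 = 0 := by
      have := congrArg (FiniteField.frobeniusAlgHom F K) hx1
      rw [map_add, map_sub, map_mul, map_mul, map_one, map_zero, AlgHom.commutes] at this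
      simpa [FiniteField.coe_frobeniusAlgHom] using this
    have hprod : (x ^ Fintype.card F - x) * (x ^ Fintype.card F + x - algebraMap F K t) = 0 := by
      linear_combination hf - hx1
    rcases mul_eq_zero.mp hprod with h | h
    · exfalso
      -- `x` would be in `F`
      have hcard : 1 < Fintype.card F := Fintype.one_lt_card
      let P : Polynomial K := Polynomial.X ^ Fintype.card F - Polynomial.X
      have hP : P ≠ 0 := FiniteField.X_pow_card_sub_X_ne_zero K hcard
      have hdeg : P.natDegree = Fintype.card F := FiniteField.X_pow_card_sub_X_natDegree_eq K hcard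
      let S : Finset K := insert x (Finset.univ.map ⟨algebraMap F K, (algebraMap F K).injective⟩)
      have hS : S.card = Fintype.card F + 1 := by
        rw [Finset.card_insert_of_notMem, Finset.card_map, Finset.card_univ]
        intro hmem
        obtain ⟨a, _, ha⟩ := Finset.mem_map.mp hmem
        exact hnot a ha
      have hsub : S ⊆ P.roots.toFinset := by
        intro y hy
        rw [Multiset.mem_toFinset, Polynomial.mem_roots hP]
        rcases Finset.mem_insert.mp hy with rfl | hy
        · simpa [P] using h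
        · obtain ⟨a, _, rfl⟩ := Finset.mem_map.mp hy
          simp [P, ← map_pow, FiniteField.pow_card]
      have h1 := Finset.card_le_card hsub
      have h2 := P.roots.toFinset_card_le
      have h3 := P.card_roots'
      omega
    · have h4 : x ^ Fintype.card F = algebraMap F K t - x := by linear_combination h
      rw [pow_succ, h4]
      linear_combination (-1 : K) * hx1

end alg

end Pool.Agent.Lib.MP_bacaed_al
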