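import Pool.Agent.Lib.MP_bacaed_al.PermCount

/-! The bound `35/144` for the proportion of permutations whose order divides `k`, `k` prime to 6. -/

namespace Pool.Agent.Lib.MP_bacaed_al

open Finset

/-- The sum in the recursion. -/
def TT (a : ℕ → ℚ) (n : ℕ) : ℚ := ∑ j ∈ range n, if Nat.Coprime 6 (n - j) then a j else 0

theorem TT_add_six (a : ℕ → ℚ) (n : ℕ) : TT a (n + 6) = TT a n + a (n + 1) + a (n + 5) := by
  have h : ∑ j ∈ range n, (if Nat.Coprime 6 (n + 6 - j) then a j else 0) = TT a n := by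
    refine Finset.sum_congr rfl (fun j hj => ?_)
    have hj' : j < n := Finset.mem_range.1 hj
    have h1 : n + 6 - j = (n - j) + 6 := by omega
    rw [h1]
    simp only [Nat.coprime_add_self_right]
  rw [TT]
  simp only [Finset.sum_range_succ, h]
  have e0 : n + 6 - n = 6 := by omega
  have e1 : n + 6 - (n + 1) = 5 := by omega
  have e2 : n + 6 - (n + 2) = 4 := by omega
  have e3 : n + 6 - (n + 3) = 3 := by omega
  have e4 : n + 6 - (n + 4) = 2 := by omega
  have e5 : n + 6 - (n + 5) = 1 := by omega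
  have c0 : ¬ Nat.Coprime 6 6 := by decide
  have c1 : Nat.Coprime 6 5 := by decide
  have c2 : ¬ Nat.Coprime 6 4 := by decide
  have c3 : ¬ Nat.Coprime 6 3 := by decide
  have c4 : ¬ Nat.Coprime 6 2 := by decide
  have c5 : Nat.Coprime 6 1 := by decide
  rw [e0, e1, e2, e3, e4, e5, if_neg c0, if_pos c1, if_neg c2, if_neg c3, if_neg c4, if_pos c5]
  ring

theorem seq_bound (a : ℕ → ℚ) (h0 : a 0 ≤ 1)
    (hrec : ∀ n : ℕ, 1 ≤ n → (n : ℚ) * a n ≤ TT a n) :
    ∀ n : ℕ, 5 ≤ n → TT a n ≤ 3 / 2 + 35 / 144 * ((n : ℚ) - 3) / 3 ∧ a n ≤ 35 / 144 := by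
  have c1 : Nat.Coprime 6 1 := by decide
  have c2 : ¬ Nat.Coprime 6 2 := by decide
  have c3 : ¬ Nat.Coprime 6 3 := by decide
  have c4 : ¬ Nat.Coprime 6 4 := by decide
  have c5 : Nat.Coprime 6 5 := by decide
  have c6 : ¬ Nat.Coprime 6 6 := by decide
  have c7 : Nat.Coprime 6 7 := by decide
  have c8 : ¬ Nat.Coprime 6 8 := by decide
  have c9 : ¬ Nat.Coprime 6 9 := by decide
  have c10 : ¬ Nat.Coprime 6 10 := by decide
  have T1 : TT a 1 = a 0 := by simp [TT]
  have T2 : TT a 2 = a 1 := by simp [TT, Finset.sum_range_succ, c2]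
  have T3 : TT a 3 = a 2 := by simp [TT, Finset.sum_range_succ, c2, c3]
  have T4 : TT a 4 = a 3 := by simp [TT, Finset.sum_range_succ, c2, c3, c4]
  have T5 : TT a 5 = a 0 + a 4 := by simp [TT, Finset.sum_range_succ, c2, c3, c4, c5]
  have T6 : TT a 6 = a 1 + a 5 := by
    have := TT_add_six a 0
    rw [zero_add, zero_add, zero_add] at this
    rw [this]; simp [TT]
  have T7 : TT a 7 = a 0 + a 2 + a 6 := by
    have := TT_add_six a 1
    rw [T1] at this; exact this
  have T8 : TT a 8 = a 1 + a 3 + a 7 := by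
    have := TT_add_six a 2
    rw [T2] at this; exact this
  have T9 : TT a 9 = a 2 + a 4 + a 8 := by
    have := TT_add_six a 3
    rw [T3] at this; exact this
  have T10 : TT a 10 = a 3 + a 5 + a 9 := by
    have := TT_add_six a 4
    rw [T4] at this; exact this
  have r1 := hrec 1 (by norm_num)
  have r2 := hrec 2 (by norm_num)
  have r3 := hrec 3 (by norm_num)
  have r4 := hrec 4 (by norm_num)
  have r5 := hrec 5 (by norm_num)
  have r6 := hrec 6 (by norm_num)
  have r7 := hrec 7 (by norm_num)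
  have r8 := hrec 8 (by norm_num)
  have r9 := hrec 9 (by norm_num)
  have r10 := hrec 10 (by norm_num)
  rw [T1] at r1; rw [T2] at r2; rw [T3] at r3; rw [T4] at r4; rw [T5] at r5
  rw [T6] at r6; rw [T7] at r7; rw [T8] at r8; rw [T9] at r9; rw [T10] at r10
  push_cast at r1 r2 r3 r4 r5 r6 r7 r8 r9 r10
  intro n
  induction n using Nat.strong_induction_on with
  | _ n ih =>
    intro hn
    by_cases hsmall : n ≤ 10
    · interval_cases n
      · rw [T5]; constructor <;> norm_num <;> linarith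
      · rw [T6]; constructor <;> norm_num <;> linarith
      · rw [T7]; constructor <;> norm_num <;> linarith
      · rw [T8]; constructor <;> norm_num <;> linarith
      · rw [T9]; constructor <;> norm_num <;> linarith
      · rw [T10]; constructor <;> norm_num <;> linarith
    · obtain ⟨m, rfl⟩ : ∃ m, n = m + 6 := ⟨n - 6, by omega⟩
      have hm : 5 ≤ m := by omega
      have i0 := (ih m (by omega) hm).1
      have i1 := (ih (m + 1) (by omega) (by omega)).2
      have i5 := (ih (m + 5) (by omega) (by omega)).2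
      have hT : TT a (m + 6) ≤ 3 / 2 + 35 / 144 * (((m + 6 : ℕ) : ℚ) - 3) / 3 := by
        rw [TT_add_six]
        push_cast
        linarith
      refine ⟨hT, ?_⟩
      have hr := hrec (m + 6) (by omega)
      have hm' : (5 : ℚ) ≤ (m : ℚ) := by exact_mod_cast hm
      have hle : ((m + 6 : ℕ) : ℚ) * a (m + 6) ≤ ((m + 6 : ℕ) : ℚ) * (35 / 144) := by
        refine hr.trans (hT.trans ?_)
        push_cast
        linarith
      have hpos : (0 : ℚ) < ((m + 6 : ℕ) : ℚ) := by positivity
      exact le_of_mul_le_mul_left hle hpos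

theorem NN_zero (k : ℕ) : NN k 0 = 1 := by
  rw [NN, Nat.card_eq_one_iff_unique]
  exact ⟨inferInstance, ⟨⟨1, one_pow k⟩⟩⟩

/-- `NN k n / n!` satisfies the recursion. -/
theorem NN_rec (k : ℕ) (hk : Nat.Coprime 6 k) (n : ℕ) (hn : 1 ≤ n) :
    (n : ℚ) * ((NN k n : ℚ) / (n.factorial : ℚ)) ≤
      TT (fun j => (NN k j : ℚ) / (j.factorial : ℚ)) n := by
  classical
  have h := rec_ineq k n
  have hf : (0 : ℚ) < (n.factorial : ℚ) := by exact_mod_cast n.factorial_pos
  have h' : (n : ℚ) * (NN k n : ℚ) ≤ (n : ℚ) * (NN k (n - 1) : ℚ) +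
      ∑ m ∈ (Finset.Icc 2 n).filter (fun m => m ∣ k),
        (n.descFactorial m : ℚ) * (NN k (n - m) : ℚ) := by exact_mod_cast h
  have hdesc : ∀ m, m ≤ n → (n.descFactorial m : ℚ) * (NN k (n - m) : ℚ) / (n.factorial : ℚ) =
      (NN k (n - m) : ℚ) / ((n - m).factorial : ℚ) := by
    intro m hm
    have h1 : (n - m).factorial * n.descFactorial m = n.factorial :=
      Nat.factorial_mul_descFactorial hm
    have h2 : ((n - m).factorial : ℚ) * (n.descFactorial m : ℚ) = (n.factorial : ℚ) := by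
      exact_mod_cast h1
    have h3 : (0 : ℚ) < ((n - m).factorial : ℚ) := by exact_mod_cast (n - m).factorial_pos
    rw [div_eq_div_iff hf.ne' h3.ne', ← h2]
    ring
  have hone : (n : ℚ) * (NN k (n - 1) : ℚ) / (n.factorial : ℚ) =
      (NN k (n - 1) : ℚ) / ((n - 1).factorial : ℚ) := by
    have := hdesc 1 hn
    rwa [Nat.descFactorial_one] at this
  -- the right side as a sum over `m`
  have hT : TT (fun j => (NN k j : ℚ) / (j.factorial : ℚ)) n =
      ∑ m ∈ (Finset.Icc 1 n).filter (fun m => Nat.Coprime 6 m),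
        (NN k (n - m) : ℚ) / ((n - m).factorial : ℚ) := by
    rw [TT, ← Finset.sum_filter]
    refine Finset.sum_bij' (fun j _ => n - j) (fun m _ => n - m) ?_ ?_ ?_ ?_ ?_
    · intro j hj
      rw [Finset.mem_filter, Finset.mem_range] at hj
      rw [Finset.mem_filter, Finset.mem_Icc]
      exact ⟨⟨by omega, by omega⟩, hj.2⟩
    · intro m hm
      rw [Finset.mem_filter, Finset.mem_Icc] at hm
      rw [Finset.mem_filter, Finset.mem_range]
      have : n - (n - m) = m := by omega
      rw [this]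
      exact ⟨by omega, hm.2⟩
    · intro j hj
      rw [Finset.mem_filter, Finset.mem_range] at hj
      omega
    · intro m hm
      rw [Finset.mem_filter, Finset.mem_Icc] at hm
      omega
    · intro j hj
      rw [Finset.mem_filter, Finset.mem_range] at hj
      have : n - (n - j) = j := by omega
      change _ = (NN k (n - (n - j)) : ℚ) / ((n - (n - j)).factorial : ℚ)
      rw [this]
  rw [hT]
  have hmem : 1 ∈ (Finset.Icc 1 n).filter (fun m => Nat.Coprime 6 m) := by
    rw [Finset.mem_filter, Finset.mem_Icc]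
    exact ⟨⟨le_rfl, hn⟩, by decide⟩
  rw [← Finset.add_sum_erase _ _ hmem]
  have hsub : (Finset.Icc 2 n).filter (fun m => m ∣ k) ⊆
      ((Finset.Icc 1 n).filter (fun m => Nat.Coprime 6 m)).erase 1 := by
    intro m hm
    rw [Finset.mem_filter, Finset.mem_Icc] at hm
    rw [Finset.mem_erase, Finset.mem_filter, Finset.mem_Icc]
    exact ⟨by omega, ⟨by omega, hm.1.2⟩, Nat.Coprime.coprime_dvd_right hm.2 hk⟩
  calc (n : ℚ) * ((NN k n : ℚ) / (n.factorial : ℚ)) = (n : ℚ) * (NN k n : ℚ) / (n.factorial : ℚ) :=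
        by ring
    _ ≤ ((n : ℚ) * (NN k (n - 1) : ℚ) + ∑ m ∈ (Finset.Icc 2 n).filter (fun m => m ∣ k),
        (n.descFactorial m : ℚ) * (NN k (n - m) : ℚ)) / (n.factorial : ℚ) :=
        div_le_div_of_nonneg_right h' hf.le
    _ = (NN k (n - 1) : ℚ) / ((n - 1).factorial : ℚ) +
        ∑ m ∈ (Finset.Icc 2 n).filter (fun m => m ∣ k),
          (NN k (n - m) : ℚ) / ((n - m).factorial : ℚ) := by
        rw [add_div, hone, Finset.sum_div]
        congr 1
        refine Finset.sum_congr rfl (fun m hm => hdesc m ?_)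
        rw [Finset.mem_filter, Finset.mem_Icc] at hm
        exact hm.1.2
    _ ≤ _ := by
        refine add_le_add_right ?_ _
        exact Finset.sum_le_sum_of_subset_of_nonneg hsub (fun m _ _ => by positivity)

/-- For `k` prime to `6` and `n ≥ 5`, at most `35/144` of the permutations of `n` points have
order dividing `k`. -/
theorem NN_bound (k : ℕ) (hk : Nat.Coprime 6 k) (n : ℕ) (hn : 5 ≤ n) :
    144 * NN k n ≤ 35 * n.factorial := by
  have h := (seq_bound (fun j => (NN k j : ℚ) / (j.factorial : ℚ)) (by simp [NN_zero])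
    (fun n hn => NN_rec k hk n hn) n hn).2
  have hf : (0 : ℚ) < (n.factorial : ℚ) := by exact_mod_cast n.factorial_pos
  have h1 : (NN k n : ℚ) / (n.factorial : ℚ) ≤ 35 / 144 := h
  rw [div_le_div_iff₀ hf (by norm_num)] at h1
  have h2 : (144 : ℚ) * (NN k n : ℚ) ≤ 35 * (n.factorial : ℚ) := by linarith
  exact_mod_cast h2

end Pool.Agent.Lib.MP_bacaed_al
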