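import Mathlib

/-! Powers in the cosets of a simple normal subgroup of a normal subgroup. -/

namespace Pool.Agent.Lib.MP_bacaed_al

section coset

variable {Q : Type*} [Group Q]

/-- A conjugate of `S` equals `S` or commutes with it. -/
theorem conj_or_commute [Finite Q] (M S : Subgroup Q) (hM : M.Normal) (hSM : S ≤ M)
    (hS : ∀ m ∈ M, ∀ s ∈ S, m * s * m⁻¹ ∈ S) [IsSimpleGroup S] (g : Q) :
    (∀ x ∈ S, g * x * g⁻¹ ∈ S) ∨ (∀ x ∈ S, ∀ y ∈ S, Commute x (g * y * g⁻¹)) := by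
  have hconj : ∀ (h : Q), ∀ x ∈ S, h⁻¹ * x * h ∈ M := by
    intro h x hx
    have := hM.conj_mem x (hSM hx) h⁻¹
    simpa using this
  let U : Subgroup S :=
    { carrier := {u : S | g⁻¹ * (u : Q) * g ∈ S}
      one_mem' := by simp [S.one_mem]
      mul_mem' := by
        intro a b ha hb
        have : g⁻¹ * ((a * b : S) : Q) * g = (g⁻¹ * (a : Q) * g) * (g⁻¹ * (b : Q) * g) := by
          rw [Subgroup.coe_mul]; group
        change g⁻¹ * ((a * b : S) : Q) * g ∈ S
        rw [this]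
        exact S.mul_mem ha hb
      inv_mem' := by
        intro a ha
        have : g⁻¹ * ((a⁻¹ : S) : Q) * g = (g⁻¹ * (a : Q) * g)⁻¹ := by
          rw [Subgroup.coe_inv]; group
        change g⁻¹ * ((a⁻¹ : S) : Q) * g ∈ S
        rw [this]
        exact S.inv_mem ha }
  have hU : U.Normal := by
    constructor
    intro u hu s
    have h1 : g⁻¹ * ((s * u * s⁻¹ : S) : Q) * g =
        (g⁻¹ * (s : Q) * g) * (g⁻¹ * (u : Q) * g) * (g⁻¹ * (s : Q) * g)⁻¹ := by
      rw [Subgroup.coe_mul, Subgroup.coe_mul, Subgroup.coe_inv]; group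
    change g⁻¹ * ((s * u * s⁻¹ : S) : Q) * g ∈ S
    rw [h1]
    exact hS _ (hconj g s s.2) _ hu
  rcases hU.eq_bot_or_eq_top with h | h
  · right
    intro x hx y hy
    have hw : g * y * g⁻¹ ∈ M := hM.conj_mem y (hSM hy) g
    have hc1 : x * ((g * y * g⁻¹) * x⁻¹ * (g * y * g⁻¹)⁻¹) ∈ S :=
      S.mul_mem hx (hS _ hw _ (S.inv_mem hx))
    have hc2 : (⟨_, hc1⟩ : S) ∈ U := by
      change g⁻¹ * (x * ((g * y * g⁻¹) * x⁻¹ * (g * y * g⁻¹)⁻¹)) * g ∈ S
      have h2 : g⁻¹ * (x * ((g * y * g⁻¹) * x⁻¹ * (g * y * g⁻¹)⁻¹)) * g =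
          ((g⁻¹ * x * g) * y * (g⁻¹ * x * g)⁻¹) * y⁻¹ := by group
      rw [h2]
      exact S.mul_mem (hS _ (hconj g x hx) _ hy) (S.inv_mem hy)
    rw [h, Subgroup.mem_bot] at hc2
    have h3 : x * ((g * y * g⁻¹) * x⁻¹ * (g * y * g⁻¹)⁻¹) = 1 := congrArg Subtype.val hc2
    change x * (g * y * g⁻¹) = (g * y * g⁻¹) * x
    have h4 : x * (g * y * g⁻¹) * x⁻¹ * (g * y * g⁻¹)⁻¹ = 1 := by
      rw [← h3]; group
    calc x * (g * y * g⁻¹) =
        (x * (g * y * g⁻¹) * x⁻¹ * (g * y * g⁻¹)⁻¹) * ((g * y * g⁻¹) * x) := by group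
      _ = (g * y * g⁻¹) * x := by rw [h4, one_mul]
  · left
    have hmem : ∀ u : S, g⁻¹ * (u : Q) * g ∈ S := by
      intro u
      have : u ∈ U := by rw [h]; exact Subgroup.mem_top u
      exact this
    let f : S → S := fun u => ⟨g⁻¹ * (u : Q) * g, hmem u⟩
    have hf : Function.Injective f := by
      intro a b hab
      have h5 : g⁻¹ * (a : Q) * g = g⁻¹ * (b : Q) * g := congrArg Subtype.val hab
      apply Subtype.ext
      exact mul_left_cancel (mul_right_cancel h5)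
    have hf' := Finite.surjective_of_injective hf
    intro x hx
    obtain ⟨u, hu⟩ := hf' ⟨x, hx⟩
    have h6 : g⁻¹ * (u : Q) * g = x := congrArg Subtype.val hu
    have h7 : g * x * g⁻¹ = u := by rw [← h6]; group
    rw [h7]; exact u.2

/-- The number of `t ∈ T` such that `conj t * ζ` has order dividing `k`. -/
noncomputable def cnt (k : ℕ) (T : Type*) [Group T] (ζ : MulAut T) : ℕ :=
  Nat.card {t : T // (MulAut.conj t * ζ) ^ k = 1}

theorem coset_le [Finite Q] (M S : Subgroup Q) (hM : M.Normal) (hSM : S ≤ M)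
    (hS : ∀ m ∈ M, ∀ s ∈ S, m * s * m⁻¹ ∈ S) [IsSimpleGroup S] (k : ℕ) (z : Q) :
    ∃ θ : MulAut S, ∀ s : S, ((s : Q) * z) ^ k = 1 → (MulAut.conj s * θ) ^ k = 1 := by
  classical
  have hex : ∃ n : ℕ, 0 < n ∧ ∀ x ∈ S, z ^ n * x * (z ^ n)⁻¹ ∈ S :=
    ⟨orderOf z, orderOf_pos z, fun x hx => by rw [pow_orderOf_eq_one]; simpa using hx⟩
  let l := Nat.find hex
  have hl0 : 0 < l := (Nat.find_spec hex).1
  have hl : ∀ x ∈ S, z ^ l * x * (z ^ l)⁻¹ ∈ S := (Nat.find_spec hex).2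
  have hmin : ∀ n, 0 < n → n < l → ∀ x ∈ S, ∀ y ∈ S, Commute x (z ^ n * y * (z ^ n)⁻¹) := by
    intro n hn hnl
    rcases conj_or_commute M S hM hSM hS (z ^ n) with h | h
    · exact absurd ⟨hn, h⟩ (Nat.find_min hex hnl)
    · exact h
  let θh : S →* S :=
    { toFun := fun x => ⟨z ^ l * (x : Q) * (z ^ l)⁻¹, hl x x.2⟩
      map_one' := by apply Subtype.ext; simp
      map_mul' := by
        intro a b
        apply Subtype.ext
        change z ^ l * ((a * b : S) : Q) * (z ^ l)⁻¹ =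
          (z ^ l * (a : Q) * (z ^ l)⁻¹) * (z ^ l * (b : Q) * (z ^ l)⁻¹)
        rw [Subgroup.coe_mul]; group }
  have hinj : Function.Injective θh := by
    intro a b hab
    have h5 : z ^ l * (a : Q) * (z ^ l)⁻¹ = z ^ l * (b : Q) * (z ^ l)⁻¹ :=
      congrArg Subtype.val hab
    apply Subtype.ext
    exact mul_left_cancel (mul_right_cancel h5)
  let θ : MulAut S := MulEquiv.ofBijective θh ⟨hinj, Finite.surjective_of_injective hinj⟩
  have hθ : ∀ x : S, ((θ x : S) : Q) = z ^ l * (x : Q) * (z ^ l)⁻¹ := fun x => rfl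
  refine ⟨θ, ?_⟩
  intro s hs
  have hu : ∀ n, 0 < n → n ≤ l →
      ∃ u : Q, ((s : Q) * z) ^ n = s * u * z ^ n ∧ ∀ x ∈ S, Commute u x := by
    intro n hn
    induction n with
    | zero => omega
    | succ n ih =>
      intro hnl
      rcases Nat.eq_zero_or_pos n with h0 | h0
      · subst h0
        exact ⟨1, by simp, fun x _ => Commute.one_left x⟩
      · obtain ⟨u, hu1, hu2⟩ := ih h0 (by omega)
        refine ⟨u * (z ^ n * (s : Q) * (z ^ n)⁻¹), ?_, ?_⟩
        · rw [pow_succ, hu1, pow_succ]; group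
        · intro x hx
          exact (hu2 x hx).mul_left (hmin n h0 (by omega) x hx s s.2).symm
  obtain ⟨u, hu1, hu2⟩ := hu l hl0 le_rfl
  have hact : ∀ x : S, (((MulAut.conj s * θ) x : S) : Q) =
      (((s : Q) * z) ^ l) * (x : Q) * (((s : Q) * z) ^ l)⁻¹ := by
    intro x
    have h1 : (((MulAut.conj s * θ) x : S) : Q) = s * (z ^ l * (x : Q) * (z ^ l)⁻¹) * (s : Q)⁻¹ := by
      rw [MulAut.mul_apply, MulAut.conj_apply, Subgroup.coe_mul, Subgroup.coe_mul,
        Subgroup.coe_inv, hθ]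
    rw [h1, hu1]
    have h2 := hu2 _ (hl x x.2)
    have h3 : u * (z ^ l * (x : Q) * (z ^ l)⁻¹) * u⁻¹ = z ^ l * (x : Q) * (z ^ l)⁻¹ := by
      rw [h2.eq, mul_inv_cancel_right]
    calc (s : Q) * (z ^ l * (x : Q) * (z ^ l)⁻¹) * (s : Q)⁻¹ =
        s * (u * (z ^ l * (x : Q) * (z ^ l)⁻¹) * u⁻¹) * (s : Q)⁻¹ := by rw [h3]
      _ = s * u * z ^ l * x * (s * u * z ^ l)⁻¹ := by group
  have hpow : ∀ j : ℕ, ∀ x : S, (((MulAut.conj s * θ) ^ j) x : Q) =
      ((((s : Q) * z) ^ l) ^ j) * (x : Q) * ((((s : Q) * z) ^ l) ^ j)⁻¹ := by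
    intro j
    induction j with
    | zero => intro x; simp
    | succ j ih =>
      intro x
      rw [pow_succ', MulAut.mul_apply, hact, ih, pow_succ' (((s : Q) * z) ^ l)]
      group
  apply MulEquiv.ext
  intro x
  apply Subtype.ext
  rw [hpow, ← pow_mul, mul_comm l k, pow_mul, hs, one_pow]
  simp

/-- Double counting over all cosets. -/
theorem card_le_of_coset [Finite Q] (S : Subgroup Q) (k C : ℕ)
    (h : ∀ z : Q, Nat.card {s : S // ((s : Q) * z) ^ k = 1} ≤ C) :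
    Nat.card {g : Q // g ^ k = 1} * Nat.card S ≤ Nat.card Q * C := by
  classical
  haveI : Fintype Q := Fintype.ofFinite Q
  have e : {g : Q // g ^ k = 1} × S ≃ Σ z : Q, {s : S // ((s : Q) * z) ^ k = 1} :=
    { toFun := fun p => ⟨(p.2 : Q)⁻¹ * p.1.1, p.2, by
        rw [mul_inv_cancel_left]; exact p.1.2⟩
      invFun := fun q => (⟨(q.2.1 : Q) * q.1, q.2.2⟩, q.2.1)
      left_inv := by
        intro p
        apply Prod.ext
        · apply Subtype.ext
          exact mul_inv_cancel_left _ _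
        · rfl
      right_inv := by
        rintro ⟨z, s, hs⟩
        have hz : (s : Q)⁻¹ * ((s : Q) * z) = z := inv_mul_cancel_left _ _
        refine Sigma.ext hz ?_
        refine (Subtype.heq_iff_coe_eq ?_).2 rfl
        intro x
        change (_ * ((s : Q)⁻¹ * ((s : Q) * z))) ^ k = 1 ↔ _
        rw [hz] }
  rw [← Nat.card_prod, Nat.card_congr e, Nat.card_sigma]
  calc ∑ z : Q, Nat.card {s : S // ((s : Q) * z) ^ k = 1} ≤ ∑ _z : Q, C :=
        Finset.sum_le_sum (fun z _ => h z)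
    _ = Nat.card Q * C := by
        rw [Finset.sum_const, Finset.card_univ, smul_eq_mul, Nat.card_eq_fintype_card]

/-- There is an automorphism `ζ` of `S` whose coset has the largest proportion. -/
theorem exists_bound [Finite Q] (M S : Subgroup Q) (hM : M.Normal) (hSM : S ≤ M)
    (hS : ∀ m ∈ M, ∀ s ∈ S, m * s * m⁻¹ ∈ S) [IsSimpleGroup S] (k : ℕ) :
    ∃ ζ : MulAut S, Nat.card {g : Q // g ^ k = 1} * Nat.card S ≤ Nat.card Q * cnt k S ζ := by
  haveI : Finite (MulAut S) :=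
    Finite.of_injective (fun f : MulAut S => (f : S → S)) DFunLike.coe_injective
  obtain ⟨ζ, hζ⟩ := Finite.exists_max (fun ζ : MulAut S => cnt k S ζ)
  refine ⟨ζ, card_le_of_coset S k _ (fun z => ?_)⟩
  obtain ⟨θ, hθ⟩ := coset_le M S hM hSM hS k z
  refine le_trans ?_ (hζ θ)
  exact Nat.card_le_card_of_injective
    (fun s : {s : S // ((s : Q) * z) ^ k = 1} =>
      (⟨s.1, hθ s.1 s.2⟩ : {t : S // (MulAut.conj t * θ) ^ k = 1}))
    (fun a b hab => Subtype.ext (congrArg (fun t => t.1) hab))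

theorem cnt_congr {S T : Type*} [Group S] [Group T] (e : S ≃* T) (k : ℕ) (ζ : MulAut S) :
    cnt k T (MulAut.congr e ζ) = cnt k S ζ := by
  symm
  refine Nat.card_congr (Equiv.subtypeEquiv e.toEquiv (fun s => ?_))
  have h : MulAut.conj (e s) * MulAut.congr e ζ = MulAut.congr e (MulAut.conj s * ζ) := by
    rw [map_mul]
    congr 1
    apply MulEquiv.ext
    intro t
    simp [MulAut.congr]
  change (MulAut.conj s * ζ) ^ k = 1 ↔ (MulAut.conj (e s) * MulAut.congr e ζ) ^ k = 1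
  rw [h, ← map_pow]
  constructor
  · intro h1; rw [h1, map_one]
  · intro h1
    exact (MulAut.congr e).injective (by rw [h1, map_one])

end coset

end Pool.Agent.Lib.MP_bacaed_al
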