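import Pool.Agent.Lib.MP_bacaed_al.Defs
import Pool.Agent.Lib.MP_bacaed_al.Coset

/-! Parity of the number of solutions, and the coprime case. -/

namespace Pool.Agent.Lib.MP_bacaed_al

theorem odd_card {G : Type} [Group G] [Finite G] {k : ℕ} (hk : Odd k) :
    Odd (Nat.card {g : G // g ^ k = 1}) := by
  classical
  haveI : Fintype {g : G // g ^ k = 1} := Fintype.ofFinite _
  let f : Function.End {g : G // g ^ k = 1} := fun g => ⟨g.1⁻¹, by rw [inv_pow, g.2, inv_one]⟩
  haveI : Fact (Nat.Prime 2) := ⟨Nat.prime_two⟩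
  have hf : f ^ 2 ^ 1 = 1 := by
    rw [pow_one, pow_two]
    funext g
    apply Subtype.ext
    exact inv_inv g.1
  have h1 := Equiv.Perm.card_fixedPoints_modEq hf
  have h2 : Fintype.card f.fixedPoints = 1 := by
    rw [Fintype.card_eq_one_iff]
    refine ⟨⟨⟨1, one_pow k⟩, ?_⟩, ?_⟩
    · apply Subtype.ext
      exact inv_one
    · rintro ⟨g, hg⟩
      apply Subtype.ext
      apply Subtype.ext
      change g.1 = 1
      have h3 : g.1⁻¹ = g.1 := congrArg Subtype.val hg
      have h4 : g.1 ^ 2 = 1 := by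
        rw [pow_two]
        nth_rewrite 1 [← h3]
        exact inv_mul_cancel _
      obtain ⟨j, hj⟩ := hk
      calc g.1 = g.1 ^ (2 * j + 1) := by rw [pow_succ, pow_mul, h4, one_pow, one_mul]
        _ = g.1 ^ k := congrArg (fun n => g.1 ^ n) hj.symm
        _ = 1 := g.2
  rw [h2] at h1
  rw [Nat.card_eq_fintype_card, Nat.odd_iff]
  exact h1

/-- A group of order `2 N`, `N` odd, has a homomorphism to `{1, -1}` with kernel of order `N`. -/
theorem exists_sign {G : Type} [Group G] [Finite G] {N : ℕ} (hN : Odd N)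
    (hG : Nat.card G = 2 * N) : ∃ φ : G →* ℤˣ, Nat.card φ.ker = N := by
  classical
  haveI : Fintype G := Fintype.ofFinite G
  let φ : G →* ℤˣ := Equiv.Perm.sign.comp (MulAction.toPermHom G G)
  haveI : Fact (Nat.Prime 2) := ⟨Nat.prime_two⟩
  obtain ⟨x, hx⟩ := exists_prime_orderOf_dvd_card' (G := G) 2 (by rw [hG]; exact Dvd.intro _ rfl)
  have hinj : Function.Injective (MulAction.toPermHom G G) := MulAction.toPerm_injective
  have hx2 : orderOf (MulAction.toPermHom G G x) = 2 := by
    rw [orderOf_injective _ hinj, hx]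
  obtain ⟨n, hn⟩ := Equiv.Perm.cycleType_prime_order (σ := MulAction.toPermHom G G x)
    (by rw [hx2]; exact Nat.prime_two)
  rw [hx2] at hn
  have hsupp : (MulAction.toPermHom G G x).support = Finset.univ := by
    rw [Finset.eq_univ_iff_forall]
    intro g
    rw [Equiv.Perm.mem_support]
    intro h
    have h1 : x * g = g := h
    have h2 : x = 1 := by
      have := congrArg (fun y => y * g⁻¹) h1
      simpa using this
    rw [h2, orderOf_one] at hx
    omega
  have hsum := Equiv.Perm.sum_cycleType (MulAction.toPermHom G G x)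
  rw [hn, hsupp, Finset.card_univ, ← Nat.card_eq_fintype_card, hG, Multiset.sum_replicate,
    smul_eq_mul] at hsum
  have hsign : φ x = -1 := by
    change Equiv.Perm.sign (MulAction.toPermHom G G x) = -1
    rw [Equiv.Perm.sign_of_cycleType, hn, Multiset.sum_replicate, Multiset.card_replicate,
      smul_eq_mul]
    have h3 : n + 1 = N := by omega
    rw [h3]
    have : Odd (N * 2 + N) := by
      rcases hN with ⟨j, hj⟩
      exact ⟨3 * j + 1, by omega⟩
    exact this.neg_one_pow
  refine ⟨φ, ?_⟩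
  have hrange : φ.range = ⊤ := by
    rw [Subgroup.eq_top_iff']
    intro u
    rcases Int.units_eq_one_or u with rfl | rfl
    · exact φ.range.one_mem
    · exact ⟨x, hsign⟩
  have h4 : Nat.card φ.range = 2 := by
    rw [hrange, Subgroup.card_top, Nat.card_eq_fintype_card]
    rfl
  have h5 := Subgroup.card_eq_card_quotient_mul_card_subgroup φ.ker
  rw [Nat.card_congr (QuotientGroup.quotientKerEquivRange φ).toEquiv, h4, hG] at h5
  omega

theorem sign_of_pow {G : Type} [Group G] (φ : G →* ℤˣ) {k : ℕ} (hk : Odd k) {g : G}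
    (hg : g ^ k = 1) : g ∈ φ.ker := by
  rw [MonoidHom.mem_ker]
  have h1 : φ g ^ k = 1 := by rw [← map_pow, hg, map_one]
  rcases Int.units_eq_one_or (φ g) with h | h
  · exact h
  · rw [h, hk.neg_one_pow] at h1
    rw [h, h1]

/-- `center T = ⊥`. -/
theorem center_bot {T : Type} [Group T] [IsSimpleGroup T] (hT : ¬ ∀ a b : T, a * b = b * a) :
    Subgroup.center T = ⊥ := by
  rcases (inferInstance : (Subgroup.center T).Normal).eq_bot_or_eq_top with h | h
  · exact h
  · exfalso
    apply hT
    intro a b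
    have : b ∈ Subgroup.center T := by rw [h]; exact Subgroup.mem_top b
    exact (Subgroup.mem_center_iff.1 this a)

theorem range_normal (T : Type) [Group T] : (MulAut.conj : T →* MulAut T).range.Normal := by
  constructor
  rintro _ ⟨t, rfl⟩ ζ
  refine ⟨ζ t, ?_⟩
  apply MulEquiv.ext
  intro x
  simp [MulAut.conj_apply]

theorem cnt_inner {T : Type} [Group T] [Finite T] [IsSimpleGroup T]
    (hT : ¬ ∀ a b : T, a * b = b * a) (k : ℕ) (a : T) :
    cnt k T (MulAut.conj a) = Nat.card {t : T // t ^ k = 1} := by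
  have hinj : ∀ t : T, MulAut.conj t = 1 ↔ t = 1 := by
    intro t
    constructor
    · intro h
      have h1 : t ∈ Subgroup.center T := by
        rw [Subgroup.mem_center_iff]
        intro x
        have h2 : MulAut.conj t x = x := by rw [h]; rfl
        rw [MulAut.conj_apply] at h2
        have h3 : t * x = x * t := mul_inv_eq_iff_eq_mul.1 h2
        exact h3.symm
      rw [center_bot hT, Subgroup.mem_bot] at h1
      exact h1
    · rintro rfl
      exact map_one _
  refine Nat.card_congr (Equiv.subtypeEquiv (Equiv.mulRight a) (fun t => ?_))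
  rw [← map_mul, ← map_pow, hinj]
  rfl

theorem mem_range_of_coprime {T : Type} [Group T] [Finite T] (k : ℕ)
    (hk : k.Coprime (MulAut.conj : T →* MulAut T).range.index) (ζ : MulAut T) (t : T)
    (ht : (MulAut.conj t * ζ) ^ k = 1) : ζ ∈ (MulAut.conj : T →* MulAut T).range := by
  haveI := range_normal T
  haveI : Finite (MulAut T) :=
    Finite.of_injective (fun f : MulAut T => (f : T → T)) DFunLike.coe_injective
  have h1 : (QuotientGroup.mk ζ : MulAut T ⧸ (MulAut.conj : T →* MulAut T).range) =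
      QuotientGroup.mk (MulAut.conj t * ζ) := by
    have h0 : (QuotientGroup.mk (MulAut.conj t) :
        MulAut T ⧸ (MulAut.conj : T →* MulAut T).range) = 1 :=
      (QuotientGroup.eq_one_iff (MulAut.conj t)).2 (MonoidHom.mem_range.2 ⟨t, rfl⟩)
    rw [QuotientGroup.mk_mul, h0, one_mul]
  have h2 : (QuotientGroup.mk ζ : MulAut T ⧸ (MulAut.conj : T →* MulAut T).range) ^ k = 1 := by
    rw [h1, ← QuotientGroup.mk_pow, ht, QuotientGroup.mk_one]
  have h3 : (QuotientGroup.mk ζ : MulAut T ⧸ (MulAut.conj : T →* MulAut T).range) ^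
      (MulAut.conj : T →* MulAut T).range.index = 1 := by
    rw [Subgroup.index_eq_card]
    exact pow_card_eq_one'
  have h4 : orderOf (QuotientGroup.mk ζ : MulAut T ⧸ (MulAut.conj : T →* MulAut T).range) = 1 :=
    Nat.dvd_one.1 (hk ▸ Nat.dvd_gcd (orderOf_dvd_of_pow_eq_one h2)
      (orderOf_dvd_of_pow_eq_one h3))
  rwa [orderOf_eq_one_iff, QuotientGroup.eq_one_iff] at h4

theorem cnt_coprime {T : Type} [Group T] [Finite T] [IsSimpleGroup T]
    (hT : ¬ ∀ a b : T, a * b = b * a) (k : ℕ)
    (hk : k.Coprime (MulAut.conj : T →* MulAut T).range.index) (ζ : MulAut T) :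
    cnt k T ζ ≤ Nat.card {t : T // t ^ k = 1} := by
  by_cases h : ∃ t : T, (MulAut.conj t * ζ) ^ k = 1
  · obtain ⟨t, ht⟩ := h
    obtain ⟨a, rfl⟩ := mem_range_of_coprime k hk ζ t ht
    exact (cnt_inner hT k a).le
  · have : cnt k T ζ = 0 := by
      rw [cnt, Nat.card_eq_zero]
      left
      exact ⟨fun t => h ⟨t.1, t.2⟩⟩
    rw [this]
    exact Nat.zero_le _

/-- The proportion of the elements of the coset `Inn(T) ζ` whose order divides `k`. -/
noncomputable def cosetRho (k : ℕ) (T : Type) [Group T] (ζ : MulAut T) : ℝ :=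
  (Nat.card {t : T // orderOf (MulAut.conj t * ζ) ∣ k} : ℝ) / (Nat.card T : ℝ)

theorem cosetRho_eq (k : ℕ) (T : Type) [Group T] (ζ : MulAut T) :
    cosetRho k T ζ = (cnt k T ζ : ℝ) / (Nat.card T : ℝ) := by
  rw [cosetRho, cnt]
  congr 2
  exact Nat.card_congr (Equiv.subtypeEquivRight (fun g => orderOf_dvd_iff_pow_eq_one))

/-- The reduction: each factor `T` gives a bound. -/
theorem rho_le_cosetRho {T G : Type} [Group T] [IsSimpleGroup T] [Group G] [Finite G]
    (h : HasFactor T G) (k : ℕ) : ∃ ζ : MulAut T, rho k G ≤ cosetRho k T ζ := by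
  obtain ⟨Q, _, f, M, S, hf, hM, hSM, hS, ⟨e⟩⟩ := h
  haveI : Finite Q := Finite.of_surjective f hf
  haveI : IsSimpleGroup S := e.isSimpleGroup
  obtain ⟨ζ, hζ⟩ := exists_bound M S hM hSM hS k
  refine ⟨MulAut.congr e ζ, (rho_le_quot f hf k).trans ?_⟩
  have hc : Nat.card T = Nat.card S := (Nat.card_congr e.toEquiv).symm
  rw [cosetRho_eq, cnt_congr, hc, rho_eq]
  have hQ : (0 : ℝ) < Nat.card Q := by exact_mod_cast Nat.card_pos
  have hS' : (0 : ℝ) < Nat.card S := by exact_mod_cast Nat.card_pos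
  rw [div_le_div_iff₀ hQ hS']
  have h1 : Nat.card {g : Q // g ^ k = 1} * Nat.card S ≤ cnt k S ζ * Nat.card Q := by
    rw [mul_comm (cnt k S ζ)]
    exact hζ
  exact_mod_cast h1

theorem cosetRho_inner {T : Type} [Group T] [Finite T] [IsSimpleGroup T]
    (hT : ¬ ∀ a b : T, a * b = b * a) (k : ℕ) (ζ : MulAut T)
    (h : ζ ∈ (MulAut.conj : T →* MulAut T).range) : cosetRho k T ζ = rho k T := by
  obtain ⟨a, rfl⟩ := h
  rw [cosetRho_eq, rho_eq, cnt_inner hT]

theorem not_solvable_of_simple {T : Type} [Group T] [IsSimpleGroup T]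
    (hT : ¬ ∀ a b : T, a * b = b * a) : ¬ Group.IsSolvable T :=
  fun h => hT (IsSimpleGroup.comm_iff_isSolvable.2 h)

end Pool.Agent.Lib.MP_bacaed_al
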