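import Pool.Agent.Lib.MP_bacaed_al.AutD
import Pool.Agent.Lib.MP_bacaed_al.AltBound
import Pool.Agent.Lib.MP_bacaed_al.Parity

/-! The density constants of the alternating groups. -/

namespace Pool.Agent.Lib.MP_bacaed_al

open Equiv Equiv.Perm

theorem alt_simple {n : ℕ} (hn : 5 ≤ n) : IsSimpleGroup (alternatingGroup (Fin n)) :=
  alternatingGroup.isSimpleGroup (by rw [Nat.card_eq_fintype_card, Fintype.card_fin]; exact hn)

theorem two_mul_card_alt {n : ℕ} (hn : 5 ≤ n) :
    2 * Nat.card (alternatingGroup (Fin n)) = n.factorial := by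
  have : Nontrivial (Fin n) := Fin.nontrivial_iff_two_le.2 (by omega)
  rw [two_mul_nat_card_alternatingGroup, Nat.card_eq_fintype_card, Fintype.card_perm,
    Fintype.card_fin]

theorem alt_nonabelian {n : ℕ} (hn : 5 ≤ n) :
    ¬ ∀ a b : alternatingGroup (Fin n), a * b = b * a := by
  intro h
  let p : ℕ → Fin n := fun i => if hi : i < n then ⟨i, hi⟩ else ⟨0, by omega⟩
  have hp : ∀ i j : ℕ, i < 5 → j < 5 → i ≠ j → p i ≠ p j := by
    intro i j hi hj hij
    simp only [p, dif_pos (show i < n by omega), dif_pos (show j < n by omega)]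
    intro h'
    exact hij (congrArg Fin.val h')
  have a01 := hp 0 1 (by norm_num) (by norm_num) (by norm_num)
  have a02 := hp 0 2 (by norm_num) (by norm_num) (by norm_num)
  have a12 := hp 1 2 (by norm_num) (by norm_num) (by norm_num)
  have a03 := hp 0 3 (by norm_num) (by norm_num) (by norm_num)
  have a13 := hp 1 3 (by norm_num) (by norm_num) (by norm_num)
  have a23 := hp 2 3 (by norm_num) (by norm_num) (by norm_num)
  have h1 := h ⟨c3 (p 0) (p 1) (p 2), (c3_three a01 a02 a12).mem_alternatingGroup⟩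
    ⟨c3 (p 0) (p 1) (p 3), (c3_three a01 a03 a13).mem_alternatingGroup⟩
  have h2 : c3 (p 0) (p 1) (p 2) * c3 (p 0) (p 1) (p 3) =
      c3 (p 0) (p 1) (p 3) * c3 (p 0) (p 1) (p 2) := congrArg Subtype.val h1
  have h3 := congrArg (fun f : Perm (Fin n) => f (p 0)) h2
  simp only [Perm.mul_apply] at h3
  rw [c3_a a01 a03, c3_b a02 a12, c3_a a01 a02, c3_b a03 a13] at h3
  exact a23 h3

/-- No coset of inner automorphisms contains more elements of odd order dividing `k` than the
alternating group itself. -/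
theorem cosetRho_alt_le {n : ℕ} (hn : 5 ≤ n) {k : ℕ} (hk : Odd k)
    (ζ : MulAut (alternatingGroup (Fin n))) :
    cosetRho k (alternatingGroup (Fin n)) ζ ≤ rho k (alternatingGroup (Fin n)) := by
  have := alt_simple hn
  by_cases h : ∃ t : alternatingGroup (Fin n), (MulAut.conj t * ζ) ^ k = 1
  · obtain ⟨t, ht⟩ := h
    have h1 := inner_of_pow (α := Fin n) (by rw [Fintype.card_fin]; exact hn) hk _ ht
    have h2 : ζ ∈ (MulAut.conj : alternatingGroup (Fin n) →*
        MulAut (alternatingGroup (Fin n))).range := by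
      have h3 : (MulAut.conj t)⁻¹ * (MulAut.conj t * ζ) ∈ (MulAut.conj :
        alternatingGroup (Fin n) →* MulAut (alternatingGroup (Fin n))).range :=
        Subgroup.mul_mem _ (Subgroup.inv_mem _ ⟨t, rfl⟩) h1
      rwa [inv_mul_cancel_left] at h3
    exact (cosetRho_inner (alt_nonabelian hn) k ζ h2).le
  · have h0 : cnt k (alternatingGroup (Fin n)) ζ = 0 := by
      rw [cnt, Nat.card_eq_zero]
      left
      exact ⟨fun t => h ⟨t.1, t.2⟩⟩
    rw [cosetRho_eq, h0, Nat.cast_zero, zero_div]
    exact div_nonneg (Nat.cast_nonneg _) (Nat.cast_nonneg _)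

theorem rho_le_alt {n : ℕ} (hn : 5 ≤ n) {k : ℕ} (hk : Odd k) {G : Type} [Group G] [Finite G]
    (h : HasFactor (alternatingGroup (Fin n)) G) :
    rho k G ≤ rho k (alternatingGroup (Fin n)) := by
  have := alt_simple hn
  obtain ⟨ζ, hζ⟩ := rho_le_cosetRho h k
  exact hζ.trans (cosetRho_alt_le hn hk ζ)

theorem alt_count_le (k n : ℕ) :
    Nat.card {g : alternatingGroup (Fin n) // g ^ k = 1} ≤ NN k n := by
  refine Nat.card_le_card_of_injective
    (fun g : {g : alternatingGroup (Fin n) // g ^ k = 1} =>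
      (⟨(g.1 : Perm (Fin n)), by
        have := congrArg Subtype.val g.2
        exact this⟩ : {g : Perm (Fin n) // g ^ k = 1})) ?_
  intro a b hab
  apply Subtype.ext
  apply Subtype.ext
  exact congrArg (fun t : {g : Perm (Fin n) // g ^ k = 1} => t.1) hab

theorem rho_alt_le {k n : ℕ} (hn : 5 ≤ n) {p q : ℕ} (hq : 0 < q)
    (h : 2 * q * NN k n ≤ p * n.factorial) :
    rho k (alternatingGroup (Fin n)) ≤ (p : ℝ) / q := by
  have hpos : (0 : ℝ) < Nat.card (alternatingGroup (Fin n)) := by exact_mod_cast Nat.card_pos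
  have hq' : (0 : ℝ) < q := by exact_mod_cast hq
  rw [rho_eq, div_le_div_iff₀ hpos hq']
  have h1 := alt_count_le k n
  rw [← two_mul_card_alt hn] at h
  have h2 : Nat.card {g : alternatingGroup (Fin n) // g ^ k = 1} * q ≤
      p * Nat.card (alternatingGroup (Fin n)) := by
    have h3 : 2 * q * Nat.card {g : alternatingGroup (Fin n) // g ^ k = 1} ≤ 2 * q * NN k n :=
      Nat.mul_le_mul_left _ h1
    have h4 : 2 * (Nat.card {g : alternatingGroup (Fin n) // g ^ k = 1} * q) ≤
        2 * (p * Nat.card (alternatingGroup (Fin n))) := by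
      calc 2 * (Nat.card {g : alternatingGroup (Fin n) // g ^ k = 1} * q) =
            2 * q * Nat.card {g : alternatingGroup (Fin n) // g ^ k = 1} := by ring
        _ ≤ 2 * q * NN k n := h3
        _ ≤ p * (2 * Nat.card (alternatingGroup (Fin n))) := h
        _ = 2 * (p * Nat.card (alternatingGroup (Fin n))) := by ring
    exact Nat.le_of_mul_le_mul_left h4 two_pos
  exact_mod_cast h2

theorem rho_alt_coprime {k n : ℕ} (hn : 5 ≤ n) (hk : Nat.Coprime 6 k) :
    rho k (alternatingGroup (Fin n)) ≤ 35 / 72 := by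
  have := rho_alt_le hn (k := k) (p := 35) (q := 72) (by norm_num) (NN_bound k hk n hn)
  exact_mod_cast this

/-- The bound for `k = 3`. -/
theorem NN_three (n : ℕ) (hn : 5 ≤ n) : 40 * NN 3 n ≤ 7 * n.factorial := by
  have hrec : ∀ n, 3 ≤ n → n * NN 3 n ≤ n * NN 3 (n - 1) + n.descFactorial 3 * NN 3 (n - 3) := by
    intro n hn
    have h := rec_ineq 3 n
    have h2 : (Finset.Icc 2 n).filter (fun m => m ∣ 3) = {3} := by
      ext m
      rw [Finset.mem_filter, Finset.mem_Icc, Finset.mem_singleton, Nat.dvd_prime Nat.prime_three]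
      omega
    rwa [h2, Finset.sum_singleton] at h
  have r1 : NN 3 1 ≤ 1 := by
    have h := rec_ineq 3 1
    have h2 : (Finset.Icc 2 1).filter (fun m => m ∣ 3) = ∅ := by decide
    rw [h2, Finset.sum_empty] at h
    simp only [one_mul, add_zero, Nat.sub_self, NN_zero] at h
    exact h
  have r2 : NN 3 2 ≤ 1 := by
    have h := rec_ineq 3 2
    have h2 : (Finset.Icc 2 2).filter (fun m => m ∣ 3) = ∅ := by decide
    rw [h2, Finset.sum_empty] at h
    have h3 : (2 : ℕ) - 1 = 1 := rfl
    rw [h3] at h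
    omega
  have d3 : Nat.descFactorial 3 3 = 6 := by decide
  have d4 : Nat.descFactorial 4 3 = 24 := by decide
  have d5 : Nat.descFactorial 5 3 = 60 := by decide
  have d6 : Nat.descFactorial 6 3 = 120 := by decide
  have d7 : Nat.descFactorial 7 3 = 210 := by decide
  have r3 := hrec 3 (by norm_num)
  have r4 := hrec 4 (by norm_num)
  have r5 := hrec 5 (by norm_num)
  have r6 := hrec 6 (by norm_num)
  have r7 := hrec 7 (by norm_num)
  have r0 := NN_zero 3
  rw [d3] at r3; rw [d4] at r4; rw [d5] at r5; rw [d6] at r6; rw [d7] at r7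
  simp only [show 3 - 1 = 2 from rfl, show 3 - 3 = 0 from rfl, show 4 - 1 = 3 from rfl,
    show 4 - 3 = 1 from rfl, show 5 - 1 = 4 from rfl, show 5 - 3 = 2 from rfl,
    show 6 - 1 = 5 from rfl, show 6 - 3 = 3 from rfl, show 7 - 1 = 6 from rfl,
    show 7 - 3 = 4 from rfl] at r3 r4 r5 r6 r7
  have s3 : NN 3 3 ≤ 3 := by omega
  have s4 : NN 3 4 ≤ 9 := by omega
  have s5 : NN 3 5 ≤ 21 := by omega
  have s6 : NN 3 6 ≤ 81 := by omega
  have s7 : NN 3 7 ≤ 351 := by omega
  induction n using Nat.strong_induction_on with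
  | _ n ih =>
    by_cases hsmall : n ≤ 7
    · have f5 : Nat.factorial 5 = 120 := by decide
      have f6 : Nat.factorial 6 = 720 := by decide
      have f7 : Nat.factorial 7 = 5040 := by decide
      interval_cases n
      · rw [f5]; omega
      · rw [f6]; omega
      · rw [f7]; omega
    · obtain ⟨m, rfl⟩ : ∃ m, n = m + 3 := ⟨n - 3, by omega⟩
      have i1 := ih (m + 2) (by omega) (by omega)
      have i3 := ih m (by omega) (by omega)
      have h := hrec (m + 3) (by omega)
      have e1 : m + 3 - 1 = m + 2 := by omega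
      have e3 : m + 3 - 3 = m := by omega
      have e4 : (m + 3).descFactorial 3 * m.factorial = (m + 3).factorial := by
        have := Nat.factorial_mul_descFactorial (show 3 ≤ m + 3 by omega)
        rw [e3] at this
        rw [mul_comm]; exact this
      have e5 : (m + 3).factorial = (m + 3) * (m + 2).factorial := Nat.factorial_succ (m + 2)
      rw [e1, e3] at h
      have h1 : (m + 3) * (40 * NN 3 (m + 3)) ≤ (m + 3) * (7 * (m + 3).factorial) := by
        calc (m + 3) * (40 * NN 3 (m + 3)) = 40 * ((m + 3) * NN 3 (m + 3)) := by ring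
          _ ≤ 40 * ((m + 3) * NN 3 (m + 2) + (m + 3).descFactorial 3 * NN 3 m) :=
            Nat.mul_le_mul_left _ h
          _ = (m + 3) * (40 * NN 3 (m + 2)) + (m + 3).descFactorial 3 * (40 * NN 3 m) := by ring
          _ ≤ (m + 3) * (7 * (m + 2).factorial) + (m + 3).descFactorial 3 * (7 * m.factorial) :=
            Nat.add_le_add (Nat.mul_le_mul_left _ i1) (Nat.mul_le_mul_left _ i3)
          _ = 7 * ((m + 3) * (m + 2).factorial) + 7 * ((m + 3).descFactorial 3 * m.factorial) := by
            ring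
          _ = 2 * (7 * (m + 3).factorial) := by rw [e4, ← e5]; ring
          _ ≤ (m + 3) * (7 * (m + 3).factorial) := Nat.mul_le_mul_right _ (by omega)
      exact Nat.le_of_mul_le_mul_left h1 (by omega)

theorem rho_alt_three {n : ℕ} (hn : 5 ≤ n) : rho 3 (alternatingGroup (Fin n)) ≤ 7 / 20 := by
  have := rho_alt_le hn (k := 3) (p := 7) (q := 20) (by norm_num) (NN_three n hn)
  exact_mod_cast this

end Pool.Agent.Lib.MP_bacaed_al
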