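import Pool.Agent.Lib.MP_bacaed_al.AltRho

/-! The bound `35/72` is attained by the alternating group of degree seven, `k = 35`. -/

namespace Pool.Agent.Lib.MP_bacaed_al

open Equiv Equiv.Perm

theorem card_type7 (m : Multiset ℕ) (c : ℕ)
    (h : (if (m.sum ≤ 7 ∧ ∀ a ∈ m, 2 ≤ a) ∧ Even (m.sum + Multiset.card m) then
      (Nat.factorial 7) / ((Nat.factorial (7 - m.sum)) *
        (m.prod * (∏ n ∈ m.toFinset, Nat.factorial (m.count n)))) else 0) = c) :
    (Finset.univ.filter (fun g : alternatingGroup (Fin 7) => (g : Perm (Fin 7)).cycleType =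
      m)).card = c := by
  rw [AlternatingGroup.card_of_cycleType, Fintype.card_fin]
  exact h

theorem rho_alt_seven : rho 35 (alternatingGroup (Fin 7)) = 35 / 72 := by
  apply le_antisymm (rho_alt_coprime (by norm_num) (by decide))
  have hpos : (0 : ℝ) < Nat.card (alternatingGroup (Fin 7)) := by exact_mod_cast Nat.card_pos
  have hA : 2 * Nat.card (alternatingGroup (Fin 7)) = 5040 := by
    rw [two_mul_card_alt (by norm_num)]
    decide
  let F : Multiset ℕ → Finset (alternatingGroup (Fin 7)) := fun m =>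
    Finset.univ.filter (fun g : alternatingGroup (Fin 7) => (g : Perm (Fin 7)).cycleType = m)
  have hF : ∀ m g, g ∈ F m ↔ (g : Perm (Fin 7)).cycleType = m := by
    intro m g; simp [F]
  have c0 : (F 0).card = 1 := card_type7 0 1 (by decide)
  have c5 : (F {5}).card = 504 := card_type7 {5} 504 (by decide)
  have c7 : (F {7}).card = 720 := card_type7 {7} 720 (by decide)
  have hd : ∀ m m' : Multiset ℕ, m ≠ m' → Disjoint (F m) (F m') := by
    intro m m' hmm
    rw [Finset.disjoint_left]
    intro g h1 h2
    rw [hF] at h1 h2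
    exact hmm (h1.symm.trans h2)
  have hU : (F 0 ∪ (F {5} ∪ F {7})).card = 1225 := by
    rw [Finset.card_union_of_disjoint, Finset.card_union_of_disjoint (hd _ _ (by decide)), c0, c5,
      c7]
    rw [Finset.disjoint_union_right]
    exact ⟨hd _ _ (by decide), hd _ _ (by decide)⟩
  have hsub : F 0 ∪ (F {5} ∪ F {7}) ⊆
      Finset.univ.filter (fun g : alternatingGroup (Fin 7) => g ^ 35 = 1) := by
    intro g hg
    rw [Finset.mem_filter]
    refine ⟨Finset.mem_univ _, ?_⟩
    rw [← orderOf_dvd_iff_pow_eq_one, ← Subgroup.orderOf_coe, ← lcm_cycleType]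
    rw [Finset.mem_union, Finset.mem_union, hF, hF, hF] at hg
    rcases hg with h | h | h <;> rw [h] <;> decide
  have hcard : 1225 ≤ Nat.card {g : alternatingGroup (Fin 7) // g ^ 35 = 1} := by
    rw [Nat.card_eq_fintype_card, Fintype.card_subtype, ← hU]
    exact Finset.card_le_card hsub
  rw [rho_eq, div_le_div_iff₀ (by norm_num) hpos]
  have h1 : (Nat.card (alternatingGroup (Fin 7)) : ℝ) = 2520 := by
    have : Nat.card (alternatingGroup (Fin 7)) = 2520 := by omega
    exact_mod_cast this
  have h2 : (1225 : ℝ) ≤ (Nat.card {g : alternatingGroup (Fin 7) // g ^ 35 = 1} : ℝ) := by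
    exact_mod_cast hcard
  rw [h1]
  linarith

end Pool.Agent.Lib.MP_bacaed_al
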