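import Mathlib

/-! Systems of three-cycles with pairwise products of order two. -/

set_option linter.unusedSectionVars false

namespace Pool.Agent.Lib.MP_bacaed_al

open Equiv Equiv.Perm

variable {α : Type} [Fintype α] [DecidableEq α]

/-- The 3-cycle `a → b → c → a` (for distinct `a`, `b`, `c`). -/
def c3 (a b c : α) : Perm α := swap a b * swap b c

theorem c3_a {a b c : α} (hab : a ≠ b) (hac : a ≠ c) : c3 a b c a = b := by
  rw [c3, Perm.mul_apply, swap_apply_of_ne_of_ne hab hac, swap_apply_left]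

theorem c3_b {a b c : α} (hac : a ≠ c) (hbc : b ≠ c) : c3 a b c b = c := by
  rw [c3, Perm.mul_apply, swap_apply_left, swap_apply_of_ne_of_ne hac.symm hbc.symm]

theorem c3_c (a b c : α) : c3 a b c c = a := by
  rw [c3, Perm.mul_apply, swap_apply_right, swap_apply_right]

theorem c3_x {a b c x : α} (ha : x ≠ a) (hb : x ≠ b) (hc : x ≠ c) : c3 a b c x = x := by
  rw [c3, Perm.mul_apply, swap_apply_of_ne_of_ne hb hc, swap_apply_of_ne_of_ne ha hb]

theorem c3_rot {a b c : α} (hab : a ≠ b) (hac : a ≠ c) (hbc : b ≠ c) : c3 a b c = c3 b c a := by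
  ext x
  by_cases h1 : x = a
  · rw [h1, c3_a hab hac, c3_c]
  by_cases h2 : x = b
  · rw [h2, c3_b hac hbc, c3_a hbc hab.symm]
  by_cases h3 : x = c
  · rw [h3, c3_c, c3_b hab.symm hac.symm]
  rw [c3_x h1 h2 h3, c3_x h2 h3 h1]

theorem c3_inv (a b c : α) : (c3 a b c)⁻¹ = c3 c b a := by
  rw [c3, c3, mul_inv_rev, swap_inv, swap_inv, swap_comm b c, swap_comm a b]

theorem c3_conj (g : Perm α) (a b c : α) : g * c3 a b c * g⁻¹ = c3 (g a) (g b) (g c) := by
  rw [c3, c3, swap_apply_apply, swap_apply_apply]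
  group

theorem c3_three {a b c : α} (hab : a ≠ b) (hac : a ≠ c) (hbc : b ≠ c) :
    (c3 a b c).IsThreeCycle := by
  rw [c3, swap_comm a b]
  exact isThreeCycle_swap_mul_swap_same hab.symm hbc hac

theorem three_eq {v : Perm α} (hv : v.IsThreeCycle) {z : α} (hz : v z ≠ z) :
    v = c3 z (v z) (v (v z)) ∧ z ≠ v z ∧ z ≠ v (v z) ∧ v z ≠ v (v z) := by
  have h1 : z ∈ v.support := mem_support.2 hz
  have h2 := (hv.nodup_iff_mem_support).2 h1
  refine ⟨(hv.eq_swap_mul_swap_iff_mem_support).2 h1, ?_, ?_, ?_⟩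
  · intro h; simp [← h] at h2
  · intro h; simp [← h] at h2
  · intro h; simp [← h] at h2

theorem three_pow {v : Perm α} (hv : v.IsThreeCycle) (z : α) : v (v (v z)) = z := by
  have h : v ^ 3 = 1 := by rw [← hv.orderOf]; exact pow_orderOf_eq_one v
  have h2 := congrArg (fun f : Perm α => f z) h
  simpa [pow_succ] using h2

/-- A 3-cycle `v` such that `u v` has order two shares exactly one arrow with `u`. -/
theorem rel_cases {a b c : α} (hab : a ≠ b) (hac : a ≠ c) (hbc : b ≠ c) {v : Perm α}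
    (hv : v.IsThreeCycle) (h2 : (c3 a b c * v) ^ 2 = 1) (h1 : c3 a b c * v ≠ 1) :
    ∃ x, x ≠ a ∧ x ≠ b ∧ x ≠ c ∧ (v = c3 a b x ∨ v = c3 b c x ∨ v = c3 c a x) := by
  have hu := c3_three hab hac hbc
  -- there is a point outside moved by `v`
  have hz : ∃ z, z ≠ a ∧ z ≠ b ∧ z ≠ c ∧ v z ≠ z := by
    by_contra hcon
    push Not at hcon
    have hmem : ∀ x, v x ≠ x → x = a ∨ x = b ∨ x = c := by
      intro x hx
      by_contra h
      push Not at h
      exact hx (hcon x h.1 h.2.1 h.2.2)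
    have hsub : v.support ⊆ {a, b, c} := by
      intro x hx
      rcases hmem x (mem_support.1 hx) with h | h | h <;> simp [h]
    have heq : v.support = {a, b, c} := by
      apply Finset.eq_of_subset_of_card_le hsub
      rw [hv.card_support]
      exact Finset.card_le_three
    have ha : v a ≠ a := mem_support.1 (by rw [heq]; simp)
    obtain ⟨e, n1, n2, n3⟩ := three_eq hv ha
    have hva : v (v a) ≠ v a := fun h => ha (v.injective h)
    have hvva : v (v (v a)) ≠ v (v a) := fun h => hva (v.injective h)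
    rcases hmem (v a) hva with h | h | h
    · exact ha h
    · have h5 : v (v a) = c := by
        rcases hmem _ hvva with h6 | h6 | h6
        · exact absurd h6.symm n2
        · exact absurd (h.trans h6.symm) n3
        · exact h6
      rw [h5, h] at e
      rw [← e] at h2
      have h7 : v ^ 4 = 1 := by
        have : v ^ 4 = (v * v) ^ 2 := by rw [← pow_two, ← pow_mul]
        rw [this]; exact h2
      have h8 : orderOf v ∣ 4 := orderOf_dvd_of_pow_eq_one h7
      rw [hv.orderOf] at h8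
      omega
    · have h5 : v (v a) = b := by
        rcases hmem _ hvva with h6 | h6 | h6
        · exact absurd h6.symm n2
        · exact h6
        · exact absurd (h.trans h6.symm) n3
      rw [h5, h] at e
      apply h1
      have h9 : c3 a b c = v⁻¹ := by
        rw [e, c3_inv, c3_rot hbc hab.symm hac.symm, c3_rot hac.symm hbc.symm hab]
      rw [h9, inv_mul_cancel]
  obtain ⟨z, hza, hzb, hzc, hvz⟩ := hz
  obtain ⟨e, n1, n2, n3⟩ := three_eq hv hvz
  have h3 : v (c3 a b c (v z)) = z := by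
    have h4 : c3 a b c * v * (c3 a b c * v) = 1 := by rw [← pow_two]; exact h2
    have h5 : v * c3 a b c * v = (c3 a b c)⁻¹ := by
      have : c3 a b c * (v * c3 a b c * v) = 1 := by rw [← h4]; group
      exact eq_inv_of_mul_eq_one_right this
    have h6 := congrArg (fun f : Perm α => f z) h5
    simp only [Perm.mul_apply] at h6
    rw [h6, c3_inv, c3_x hzc hzb hza]
  have h7 : c3 a b c (v z) = v (v z) := by
    apply v.injective
    rw [h3, three_pow hv]
  have hne : c3 a b c (v z) ≠ v z := by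
    rw [h7]
    exact n3.symm
  refine ⟨z, hza, hzb, hzc, ?_⟩
  by_cases y1 : v z = a
  · left
    rw [y1, c3_a hab hac] at h7
    rw [y1] at e
    rw [← h7] at e
    rw [e, c3_rot hza hzb hab]
  by_cases y2 : v z = b
  · right; left
    rw [y2, c3_b hac hbc] at h7
    rw [y2] at e
    rw [← h7] at e
    rw [e, c3_rot hzb hzc hbc]
  by_cases y3 : v z = c
  · right; right
    rw [y3, c3_c] at h7
    rw [y3] at e
    rw [← h7] at e
    rw [e, c3_rot hzc hza hac.symm]
  exact absurd (c3_x y1 y2 y3) hne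

/-- A family of at least two 3-cycles with pairwise products of order two, two of whose members
share the arrow `a → b`. -/
theorem family_aux {J : Type} (y : J → Perm α) (hy : ∀ i, (y i).IsThreeCycle)
    (hrel : ∀ i j, i ≠ j → (y i * y j) ^ 2 = 1 ∧ y i * y j ≠ 1) {i0 i1 : J}
    {a b c d : α} (hab : a ≠ b) (hac : a ≠ c) (hbc : b ≠ c) (had : a ≠ d) (hbd : b ≠ d)
    (hcd : c ≠ d) (h0 : y i0 = c3 a b c) (h1 : y i1 = c3 a b d) :
    ∀ i, ∃ x, x ≠ a ∧ x ≠ b ∧ y i = c3 a b x := by
  intro i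
  by_cases hi0 : i = i0
  · exact ⟨c, hac.symm, hbc.symm, by rw [hi0]; exact h0⟩
  by_cases hi1 : i = i1
  · exact ⟨d, had.symm, hbd.symm, by rw [hi1]; exact h1⟩
  have r0 := hrel i0 i (Ne.symm hi0)
  have r1 := hrel i1 i (Ne.symm hi1)
  rw [h0] at r0
  rw [h1] at r1
  obtain ⟨x, xa, xb, xc, hx⟩ := rel_cases hab hac hbc (hy i) r0.1 r0.2
  obtain ⟨w, wa, wb, wd, hw⟩ := rel_cases hab had hbd (hy i) r1.1 r1.2
  rcases hx with hx | hx | hx
  · exact ⟨x, xa, xb, hx⟩
  · exfalso
    -- `y i = (b c x)` fixes `a`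
    have ya : y i a = a := by rw [hx]; exact c3_x hab hac xa.symm
    have yb : y i b = c := by rw [hx]; exact c3_a hbc xb.symm
    rcases hw with hw | hw | hw
    · rw [hw, c3_a hab wa.symm] at ya
      exact hab ya.symm
    · rw [hw, c3_a hbd wb.symm] at yb
      exact hcd yb.symm
    · rw [hw, c3_b wd.symm wa.symm] at ya
      exact wa ya
  · exfalso
    have yb : y i b = b := by rw [hx]; exact c3_x hbc hab.symm xb.symm
    have yc : y i c = a := by rw [hx]; exact c3_a hac.symm xc.symm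
    rcases hw with hw | hw | hw
    · rw [hw, c3_b wa.symm wb.symm] at yb
      exact wb yb
    · rw [hw, c3_a hbd wb.symm] at yb
      exact hbd yb.symm
    · have yd : y i d = a := by rw [hw]; exact c3_a had.symm wd.symm
      exact hcd ((y i).injective (yc.trans yd.symm))

theorem family {J : Type} (y : J → Perm α) (hy : ∀ i, (y i).IsThreeCycle)
    (hrel : ∀ i j, i ≠ j → (y i * y j) ^ 2 = 1 ∧ y i * y j ≠ 1) {i0 i1 : J} (h01 : i0 ≠ i1) :
    ∃ a b : α, a ≠ b ∧ ∀ i, ∃ x, x ≠ a ∧ x ≠ b ∧ y i = c3 a b x := by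
  have hne : (y i0) ≠ 1 := (hy i0).ne_one
  obtain ⟨z, hz⟩ : ∃ z, y i0 z ≠ z := by
    by_contra h
    push Not at h
    exact hne (Equiv.ext h)
  obtain ⟨e, n1, n2, n3⟩ := three_eq (hy i0) hz
  generalize y i0 z = q at *
  generalize y i0 q = r at *
  have r0 := hrel i0 i1 h01
  rw [e] at r0
  obtain ⟨x, xa, xb, xc, hx⟩ := rel_cases n1 n2 n3 (hy i1) r0.1 r0.2
  rcases hx with hx | hx | hx
  · exact ⟨z, q, n1, family_aux y hy hrel (i0 := i0) (i1 := i1) n1 n2 n3 xa.symm xb.symm xc.symm e hx⟩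
  · refine ⟨q, r, n3, family_aux y hy hrel (i0 := i0) (i1 := i1) n3 n1.symm n2.symm xb.symm xc.symm xa.symm ?_ hx⟩
    rw [e, c3_rot n1 n2 n3]
  · refine ⟨r, z, n2.symm, family_aux y hy hrel (i0 := i0) (i1 := i1) n2.symm n3.symm n1 xc.symm xa.symm xb.symm ?_ hx⟩
    rw [e, c3_rot n1 n2 n3, c3_rot n3 n1.symm n2.symm]

end Pool.Agent.Lib.MP_bacaed_al
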