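import Pool.Agent.Lib.MP_bacaed_al.AutA

/-! Automorphisms of the alternating group which preserve the three-cycles. -/

set_option linter.unusedSectionVars false

namespace Pool.Agent.Lib.MP_bacaed_al

open Equiv Equiv.Perm

variable {α : Type} [Fintype α] [DecidableEq α]

theorem c3_mul_sq {a b c d : α} (hab : a ≠ b) (hac : a ≠ c) (hbc : b ≠ c) (had : a ≠ d)
    (hbd : b ≠ d) (hcd : c ≠ d) :
    (c3 a b c * c3 a b d) ^ 2 = 1 ∧ c3 a b c * c3 a b d ≠ 1 := by
  constructor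
  · rw [pow_two]
    ext x
    rw [Perm.mul_apply, Perm.mul_apply, Perm.mul_apply, Perm.one_apply]
    by_cases h1 : x = a
    · rw [h1, c3_a hab had, c3_b hac hbc, c3_x hac.symm hbc.symm hcd, c3_c]
    by_cases h2 : x = b
    · rw [h2, c3_b had hbd, c3_x had.symm hbd.symm hcd.symm, c3_c, c3_a hab hac]
    by_cases h3 : x = c
    · rw [h3, c3_x hac.symm hbc.symm hcd, c3_c, c3_a hab had, c3_b hac hbc]
    by_cases h4 : x = d
    · rw [h4, c3_c, c3_a hab hac, c3_b had hbd, c3_x had.symm hbd.symm hcd.symm]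
    rw [c3_x h1 h2 h4, c3_x h1 h2 h3, c3_x h1 h2 h4, c3_x h1 h2 h3]
  · intro h
    have h1 := congrArg (fun f : Perm α => f a) h
    simp only [Perm.mul_apply, Perm.one_apply] at h1
    rw [c3_a hab had, c3_b hac hbc] at h1
    exact hac h1.symm

/-- A subgroup containing the cycles `(p0 p1 i)` contains all 3-cycles. -/
theorem all_c3 (E : Subgroup (Perm α)) {p0 p1 : α} (hp : p0 ≠ p1)
    (hE : ∀ i, i ≠ p0 → i ≠ p1 → c3 p0 p1 i ∈ E) :
    ∀ u v w : α, u ≠ v → u ≠ w → v ≠ w → c3 u v w ∈ E := by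
  have hrot : ∀ {u v w : α}, u ≠ v → u ≠ w → v ≠ w → c3 u v w ∈ E → c3 v w u ∈ E := by
    intro u v w h1 h2 h3 h
    rwa [← c3_rot h1 h2 h3]
  have hinv : ∀ {u v w : α}, c3 u v w ∈ E → c3 w v u ∈ E := by
    intro u v w h
    rw [← c3_inv]
    exact E.inv_mem h
  have h2 : ∀ i j, i ≠ p0 → i ≠ p1 → j ≠ p0 → j ≠ p1 → i ≠ j → c3 p1 i j ∈ E := by
    intro i j i0 i1 j0 j1 ij
    have h : c3 p0 p1 i * c3 p0 p1 j * (c3 p0 p1 i)⁻¹ ∈ E :=
      E.mul_mem (E.mul_mem (hE i i0 i1) (hE j j0 j1)) (E.inv_mem (hE i i0 i1))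
    rwa [c3_conj, c3_a hp i0.symm, c3_b i0.symm i1.symm, c3_x j0 j1 ij.symm] at h
  have h3' : ∀ i j, i ≠ p0 → i ≠ p1 → j ≠ p0 → j ≠ p1 → i ≠ j → c3 i p0 j ∈ E := by
    intro i j i0 i1 j0 j1 ij
    have h : (c3 p0 p1 i)⁻¹ * c3 p0 p1 j * ((c3 p0 p1 i)⁻¹)⁻¹ ∈ E :=
      E.mul_mem (E.mul_mem (E.inv_mem (hE i i0 i1)) (hE j j0 j1))
        (E.inv_mem (E.inv_mem (hE i i0 i1)))
    rw [c3_conj, c3_inv] at h
    rwa [c3_c, c3_b i0 hp.symm, c3_x ij.symm j1 j0] at h
  have h3 : ∀ i j, i ≠ p0 → i ≠ p1 → j ≠ p0 → j ≠ p1 → i ≠ j → c3 p0 i j ∈ E := by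
    intro i j i0 i1 j0 j1 ij
    exact hrot j0 ij.symm i0.symm (h3' j i j0 j1 i0 i1 ij.symm)
  have h4 : ∀ i j l, i ≠ p0 → i ≠ p1 → j ≠ p0 → j ≠ p1 → l ≠ p0 → l ≠ p1 → i ≠ j → i ≠ l →
      j ≠ l → c3 i j l ∈ E := by
    intro i j l i0 i1 j0 j1 l0 l1 ij il jl
    have h : (c3 p0 p1 i)⁻¹ * c3 p0 j l * ((c3 p0 p1 i)⁻¹)⁻¹ ∈ E :=
      E.mul_mem (E.mul_mem (E.inv_mem (hE i i0 i1)) (h3 j l j0 j1 l0 l1 jl))
        (E.inv_mem (E.inv_mem (hE i i0 i1)))
    rw [c3_conj, c3_inv] at h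
    rwa [c3_c, c3_x ij.symm j1 j0, c3_x il.symm l1 l0] at h
  have six : ∀ {u v w : α}, u ≠ v → u ≠ w → v ≠ w → c3 u v w ∈ E →
      c3 v w u ∈ E ∧ c3 w u v ∈ E ∧ c3 w v u ∈ E ∧ c3 v u w ∈ E ∧ c3 u w v ∈ E := by
    intro u v w huv huw hvw h
    have a1 := hrot huv huw hvw h
    have a2 := hrot hvw huv.symm huw.symm a1
    exact ⟨a1, a2, hinv h, hinv a2, hinv a1⟩
  intro u v w huv huw hvw
  by_cases u0 : u = p0
  · subst u0
    by_cases v1 : v = p1
    · subst v1
      exact hE w huw.symm hvw.symm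
    by_cases w1 : w = p1
    · subst w1
      exact (six huw huv hvw.symm (hE v huv.symm v1)).2.2.2.2
    exact h3 v w huv.symm v1 huw.symm w1 hvw
  by_cases u1 : u = p1
  · subst u1
    by_cases v0 : v = p0
    · subst v0
      exact (six huv.symm hvw huw (hE w hvw.symm huw.symm)).2.2.2.1
    by_cases w0 : w = p0
    · subst w0
      exact (six huw.symm hvw.symm huv (hE v hvw huv.symm)).1
    exact h2 v w v0 huv.symm w0 huw.symm hvw
  by_cases v0 : v = p0
  · subst v0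
    by_cases w1 : w = p1
    · subst w1
      exact (six hvw huv.symm huw.symm (hE u huv huw)).2.1
    exact (six hvw huv.symm huw.symm (h3 w u hvw.symm w1 huv u1 huw.symm)).2.1
  by_cases v1 : v = p1
  · subst v1
    by_cases w0 : w = p0
    · subst w0
      exact (six hvw.symm huw.symm huv.symm (hE u u0 u1)).2.2.1
    exact (six hvw huv.symm huw.symm (h2 w u w0 hvw.symm u0 u1 huw.symm)).2.1
  by_cases w0 : w = p0
  · subst w0
    exact (six huw.symm hvw.symm huv (h3 u v u0 u1 v0 v1 huv)).1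
  by_cases w1 : w = p1
  · subst w1
    exact (six huw.symm hvw.symm huv (h2 u v u0 u1 v0 v1 huv)).1
  exact h4 u v w u0 u1 v0 v1 w0 w1 huv huw hvw

/-- An automorphism of the alternating group which preserves the 3-cycles is the conjugation with
a permutation. -/
theorem exists_conj (ψ : MulAut (alternatingGroup α))
    (hψ : ∀ x : alternatingGroup α, (x : Perm α).IsThreeCycle → (ψ x : Perm α).IsThreeCycle)
    {p0 p1 q0 q1 : α} (hp : p0 ≠ p1) (h00 : q0 ≠ p0) (h01 : q0 ≠ p1) (h10 : q1 ≠ p0)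
    (h11 : q1 ≠ p1) (hq : q0 ≠ q1) :
    ∃ σ : Perm α, ∀ x : alternatingGroup α, (ψ x : Perm α) = σ * (x : Perm α) * σ⁻¹ := by
  let J : Type := {i : α // i ≠ p0 ∧ i ≠ p1}
  let X : J → alternatingGroup α := fun i =>
    ⟨c3 p0 p1 i.1, (c3_three hp i.2.1.symm i.2.2.symm).mem_alternatingGroup⟩
  have hX : ∀ i : J, (X i : Perm α) = c3 p0 p1 i.1 := fun i => rfl
  have hy : ∀ i : J, (ψ (X i) : Perm α).IsThreeCycle := fun i =>
    hψ (X i) (c3_three hp i.2.1.symm i.2.2.symm)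
  have hrel : ∀ i j : J, i ≠ j → ((ψ (X i) : Perm α) * (ψ (X j) : Perm α)) ^ 2 = 1 ∧
      (ψ (X i) : Perm α) * (ψ (X j) : Perm α) ≠ 1 := by
    intro i j hij
    have hij' : i.1 ≠ j.1 := fun h => hij (Subtype.ext h)
    have h := c3_mul_sq hp i.2.1.symm i.2.2.symm j.2.1.symm j.2.2.symm hij'
    have e1 : (ψ (X i) : Perm α) * (ψ (X j) : Perm α) = (ψ (X i * X j) : Perm α) := by
      rw [map_mul]; rfl
    have e2 : (X i * X j) ^ 2 = 1 := Subtype.ext h.1
    have e3 : X i * X j ≠ 1 := fun h' => h.2 (congrArg Subtype.val h')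
    rw [e1]
    constructor
    · have : (ψ (X i * X j)) ^ 2 = 1 := by rw [← map_pow, e2, map_one]
      exact congrArg Subtype.val this
    · intro h'
      apply e3
      have : ψ (X i * X j) = 1 := Subtype.ext h'
      exact ψ.injective (by rw [this, map_one])
  obtain ⟨a, b, hab, hfam⟩ := family (fun i : J => (ψ (X i) : Perm α)) hy hrel
    (i0 := ⟨q0, h00, h01⟩) (i1 := ⟨q1, h10, h11⟩) (fun h => hq (congrArg Subtype.val h))
  choose c hca hcb hc using hfam
  let s : α → α := fun x => if h0 : x = p0 then a else if h1 : x = p1 then b else c ⟨x, h0, h1⟩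
  have s0 : s p0 = a := by simp [s]
  have s1 : s p1 = b := by simp [s, hp.symm]
  have s2 : ∀ i : J, s i.1 = c i := by
    intro i
    simp only [s]
    rw [dif_neg i.2.1, dif_neg i.2.2]
  have hcinj : ∀ i j : J, c i = c j → i = j := by
    intro i j hij
    have h1 : ψ (X i) = ψ (X j) := Subtype.ext (by rw [hc i, hc j, hij])
    have h2 : (X i : Perm α) = (X j : Perm α) := congrArg Subtype.val (ψ.injective h1)
    rw [hX, hX] at h2
    have h3 : (c3 p0 p1 i.1) p1 = (c3 p0 p1 j.1) p1 := congrArg (fun f : Perm α => f p1) h2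
    rw [c3_b i.2.1.symm i.2.2.symm, c3_b j.2.1.symm j.2.2.symm] at h3
    exact Subtype.ext h3
  have hs : Function.Injective s := by
    have key : ∀ x, x = p0 ∨ x = p1 ∨ ∃ i : J, x = i.1 := by
      intro x
      by_cases h0 : x = p0
      · left; exact h0
      by_cases h1 : x = p1
      · right; left; exact h1
      right; right; exact ⟨⟨x, h0, h1⟩, rfl⟩
    intro x y hxy
    rcases key x with rfl | rfl | ⟨i, rfl⟩ <;> rcases key y with rfl | rfl | ⟨j, rfl⟩
    · rfl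
    · rw [s0, s1] at hxy; exact absurd hxy hab
    · rw [s0, s2] at hxy; exact absurd hxy.symm (hca j)
    · rw [s0, s1] at hxy; exact absurd hxy.symm hab
    · rfl
    · rw [s1, s2] at hxy; exact absurd hxy.symm (hcb j)
    · rw [s0, s2] at hxy; exact absurd hxy (hca i)
    · rw [s1, s2] at hxy; exact absurd hxy (hcb i)
    · rw [s2, s2] at hxy
      rw [hcinj i j hxy]
  let σ : Perm α := Equiv.ofBijective s (Finite.injective_iff_bijective.1 hs)
  have hσ : ∀ x, σ x = s x := fun x => rfl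
  refine ⟨σ, ?_⟩
  let E : Subgroup (alternatingGroup α) :=
    ((alternatingGroup α).subtype.comp ψ.toMonoidHom).eqLocus
      ((MulAut.conj σ).toMonoidHom.comp (alternatingGroup α).subtype)
  have hmem : ∀ x : alternatingGroup α, x ∈ E ↔ (ψ x : Perm α) = σ * (x : Perm α) * σ⁻¹ := by
    intro x
    exact Iff.rfl
  have hXE : ∀ i : J, X i ∈ E := by
    intro i
    rw [hmem, hX, c3_conj, hσ, hσ, hσ, s0, s1, s2]
    exact hc i
  have hall := all_c3 (E.map (alternatingGroup α).subtype) hp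
    (fun i h0 h1 => ⟨X ⟨i, h0, h1⟩, hXE ⟨i, h0, h1⟩, rfl⟩)
  have hle : alternatingGroup α ≤ E.map (alternatingGroup α).subtype := by
    refine le_trans (le_of_eq closure_three_cycles_eq_alternating.symm) ?_
    rw [Subgroup.closure_le]
    intro v hv
    have hne : (v : Perm α) ≠ 1 := IsThreeCycle.ne_one hv
    obtain ⟨z, hz⟩ : ∃ z, v z ≠ z := by
      by_contra h
      push Not at h
      exact hne (Equiv.ext h)
    obtain ⟨e, n1, n2, n3⟩ := three_eq hv hz
    change v ∈ E.map (alternatingGroup α).subtype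
    rw [e]
    exact hall _ _ _ n1 n2 n3
  intro x
  obtain ⟨y, hyE, hyx⟩ := hle x.2
  have : y = x := Subtype.ext hyx
  rw [← this]
  exact (hmem y).1 hyE

end Pool.Agent.Lib.MP_bacaed_al
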