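import Pool.Agent.Lib.MP_bacaed_al.AutB

/-! Automorphisms of odd order of the alternating group are inner: conjugations. -/

set_option linter.unusedSectionVars false

namespace Pool.Agent.Lib.MP_bacaed_al

open Equiv Equiv.Perm

variable {α : Type} [Fintype α] [DecidableEq α]

theorem exists_avoid (s : Finset α) (hs : s.card < Fintype.card α) : ∃ y, y ∉ s := by
  by_contra h
  push Not at h
  have h1 : s = Finset.univ := Finset.eq_univ_iff_forall.2 h
  rw [h1, Finset.card_univ] at hs
  exact lt_irrefl _ hs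

theorem eq_one_of_centralize (h4 : 4 ≤ Fintype.card α) {τ : Perm α}
    (h : ∀ x : alternatingGroup α, τ * (x : Perm α) * τ⁻¹ = x) : τ = 1 := by
  by_contra hne
  obtain ⟨x, hx⟩ : ∃ x, τ x ≠ x := by
    by_contra h'
    push Not at h'
    exact hne (Equiv.ext h')
  obtain ⟨y, hy⟩ := exists_avoid ({x, τ x} : Finset α) (lt_of_le_of_lt Finset.card_le_two (by omega))
  obtain ⟨z, hz⟩ := exists_avoid ({x, τ x, y} : Finset α)
    (lt_of_le_of_lt Finset.card_le_three (by omega))
  simp only [Finset.mem_insert, Finset.mem_singleton, not_or] at hy hz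
  have h1 := h ⟨c3 x y z, (c3_three (Ne.symm hy.1) (Ne.symm hz.1) (Ne.symm hz.2.2)).mem_alternatingGroup⟩
  simp only [c3_conj] at h1
  have h2 : (c3 (τ x) (τ y) (τ z)) (τ x) = (c3 x y z) (τ x) :=
    congrArg (fun f : Perm α => f (τ x)) h1
  rw [c3_a (fun h' => hy.1 (τ.injective h').symm) (fun h' => hz.1 (τ.injective h').symm),
    c3_x hx (Ne.symm hy.2) (Ne.symm hz.2.1)] at h2
  exact hy.1 (τ.injective h2)

theorem inner_of_conj (h4 : 4 ≤ Fintype.card α) {k : ℕ} (hk : Odd k)
    (ψ : MulAut (alternatingGroup α)) (hψk : ψ ^ k = 1) (σ : Perm α)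
    (hσ : ∀ x : alternatingGroup α, (ψ x : Perm α) = σ * (x : Perm α) * σ⁻¹) :
    ψ ∈ (MulAut.conj : alternatingGroup α →* MulAut (alternatingGroup α)).range := by
  have hpow : ∀ (m : ℕ) (x : alternatingGroup α),
      ((ψ ^ m) x : Perm α) = σ ^ m * (x : Perm α) * (σ ^ m)⁻¹ := by
    intro m
    induction m with
    | zero => intro x; simp
    | succ m ih =>
      intro x
      rw [pow_succ, MulAut.mul_apply, ih, hσ, pow_succ]
      group
  have h1 : σ ^ k = 1 := by
    apply eq_one_of_centralize h4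
    intro x
    rw [← hpow, hψk]
    rfl
  have h2 : sign σ = 1 := by
    have h3 : sign σ ^ k = 1 := by rw [← map_pow, h1, map_one]
    rcases Int.units_eq_one_or (sign σ) with h | h
    · exact h
    · rw [h, hk.neg_one_pow] at h3
      rw [h, h3]
  refine ⟨⟨σ, mem_alternatingGroup.2 h2⟩, ?_⟩
  apply MulEquiv.ext
  intro x
  apply Subtype.ext
  rw [hσ]
  rfl

/-- The elements of the alternating group commuting with `x`. -/
abbrev CA (x : alternatingGroup α) : Type := {z : alternatingGroup α // z * x = x * z}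

theorem CA_congr (ψ : MulAut (alternatingGroup α)) (x : alternatingGroup α) :
    Nat.card (CA x) = Nat.card (CA (ψ x)) := by
  refine Nat.card_congr (Equiv.subtypeEquiv ψ.toEquiv (fun z => ?_))
  change z * x = x * z ↔ ψ z * ψ x = ψ x * ψ z
  rw [← map_mul, ← map_mul]
  exact ψ.injective.eq_iff.symm

theorem CA_le (x : alternatingGroup α) :
    Nat.card (CA x) ≤ Nat.card (Subgroup.centralizer {(x : Perm α)}) := by
  refine Nat.card_le_card_of_injective
    (fun z : CA x => (⟨(z.1 : Perm α), ?_⟩ : Subgroup.centralizer {(x : Perm α)})) ?_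
  · rw [Subgroup.mem_centralizer_singleton_iff]
    exact (congrArg Subtype.val z.2)
  · intro a b hab
    apply Subtype.ext
    apply Subtype.ext
    exact congrArg (fun t : Subgroup.centralizer {(x : Perm α)} => (t : Perm α)) hab

theorem le_CA (h2 : 2 ≤ Fintype.card α) (x : alternatingGroup α) :
    Nat.card (Subgroup.centralizer {(x : Perm α)}) ≤ 2 * Nat.card (CA x) := by
  have : Nontrivial α := Fintype.one_lt_card_iff_nontrivial.1 h2
  let C := Subgroup.centralizer {(x : Perm α)}
  have h1 : ((alternatingGroup α).subgroupOf C).index ∣ 2 := by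
    have := Subgroup.relIndex_dvd_index_of_normal (alternatingGroup α) C
    rwa [alternatingGroup.index_eq_two] at this
  have h3 := Subgroup.card_mul_index ((alternatingGroup α).subgroupOf C)
  have h4 : Nat.card ((alternatingGroup α).subgroupOf C) ≤ Nat.card (CA x) := by
    refine Nat.card_le_card_of_injective
      (fun z : (alternatingGroup α).subgroupOf C => (⟨⟨((z : C) : Perm α), ?_⟩, ?_⟩ : CA x)) ?_
    · exact Subgroup.mem_subgroupOf.1 z.2
    · apply Subtype.ext
      exact Subgroup.mem_centralizer_singleton_iff.1 (z : C).2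
    · intro a b hab
      apply Subtype.ext
      apply Subtype.ext
      exact congrArg (fun t : CA x => (t.1 : Perm α)) hab
  have h5 := Nat.le_of_dvd two_pos h1
  change Nat.card C ≤ _
  rw [← h3, mul_comm]
  exact Nat.mul_le_mul h5 h4

open Nat in
theorem num_ineq (i : ℕ) : ∀ m : ℕ, ¬ (i = 0 ∧ m = 0) →
    2 * (m ! * 3 ^ (i + 2) * (i + 2)!) < 3 * (3 * i + m + 3)! := by
  -- the step in `m`
  have hstep : ∀ m : ℕ, 2 * (m ! * 3 ^ (i + 2) * (i + 2)!) < 3 * (3 * i + m + 3)! →
      2 * ((m + 1)! * 3 ^ (i + 2) * (i + 2)!) < 3 * (3 * i + (m + 1) + 3)! := by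
    intro m h
    have e1 : (3 * i + (m + 1) + 3)! = (3 * i + m + 4) * (3 * i + m + 3)! := by
      rw [show 3 * i + (m + 1) + 3 = (3 * i + m + 3) + 1 by ring, Nat.factorial_succ]
    rw [e1, Nat.factorial_succ]
    calc 2 * ((m + 1) * m ! * 3 ^ (i + 2) * (i + 2)!)
        = (m + 1) * (2 * (m ! * 3 ^ (i + 2) * (i + 2)!)) := by ring
      _ < (m + 1) * (3 * (3 * i + m + 3)!) := Nat.mul_lt_mul_of_pos_left h (by omega)
      _ ≤ (3 * i + m + 4) * (3 * (3 * i + m + 3)!) := Nat.mul_le_mul_right _ (by omega)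
      _ = 3 * ((3 * i + m + 4) * (3 * i + m + 3)!) := by ring
  have hgen : ∀ m0 : ℕ, 2 * (m0 ! * 3 ^ (i + 2) * (i + 2)!) < 3 * (3 * i + m0 + 3)! →
      ∀ m, m0 ≤ m → 2 * (m ! * 3 ^ (i + 2) * (i + 2)!) < 3 * (3 * i + m + 3)! := by
    intro m0 h0 m hm
    induction m, hm using Nat.le_induction with
    | base => exact h0
    | succ m _ ih => exact hstep m ih
  intro m hm
  rcases Nat.eq_zero_or_pos i with hi | hi
  · subst hi
    refine hgen 1 (by decide) m ?_
    by_contra h
    exact hm ⟨rfl, by omega⟩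
  · have hbase : 2 * (0 ! * 3 ^ (i + 2) * (i + 2)!) < 3 * (3 * i + 0 + 3)! := by
      clear hgen hstep hm
      induction i, hi using Nat.le_induction with
      | base => decide
      | succ i hi ih =>
        have e1 : (3 * (i + 1) + 0 + 3)! =
            (3 * i + 6) * ((3 * i + 5) * ((3 * i + 4) * (3 * i + 0 + 3)!)) := by
          rw [show 3 * (i + 1) + 0 + 3 = (3 * i + 5) + 1 by ring, Nat.factorial_succ,
            Nat.factorial_succ, Nat.factorial_succ]
        have e2 : (i + 1 + 2)! = (i + 3) * (i + 2)! := Nat.factorial_succ (i + 2)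
        rw [e1, e2]
        calc 2 * (0 ! * 3 ^ (i + 1 + 2) * ((i + 3) * (i + 2)!))
            = 3 * (i + 3) * (2 * (0 ! * 3 ^ (i + 2) * (i + 2)!)) := by ring
          _ < 3 * (i + 3) * (3 * (3 * i + 0 + 3)!) := Nat.mul_lt_mul_of_pos_left ih (by omega)
          _ ≤ ((3 * i + 6) * ((3 * i + 5) * (3 * i + 4))) * (3 * (3 * i + 0 + 3)!) := by
              apply Nat.mul_le_mul_right
              calc 3 * (i + 3) ≤ (3 * i + 6) * 2 := by omega
                _ ≤ (3 * i + 6) * ((3 * i + 5) * (3 * i + 4)) :=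
                  Nat.mul_le_mul_left _ (le_trans (by norm_num : 2 ≤ 5 * 4)
                    (Nat.mul_le_mul (by omega) (by omega)))
          _ = 3 * ((3 * i + 6) * ((3 * i + 5) * ((3 * i + 4) * (3 * i + 0 + 3)!))) := by ring
    exact hgen 0 hbase m (Nat.zero_le _)

theorem three_type {g : Perm α} (h : orderOf g = 3) :
    ∃ n : ℕ, g.cycleType = Multiset.replicate (n + 1) 3 := by
  obtain ⟨n, hn⟩ := cycleType_prime_order (σ := g) (by rw [h]; exact Nat.prime_three)
  exact ⟨n, by rw [hn, h]⟩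

theorem centralizer_card {g : Perm α} {j : ℕ} (h : g.cycleType = Multiset.replicate (j + 1) 3) :
    Nat.card (Subgroup.centralizer {g}) =
      (Fintype.card α - 3 * (j + 1)).factorial * 3 ^ (j + 1) * (j + 1).factorial := by
  rw [nat_card_centralizer, h, Multiset.sum_replicate, Multiset.prod_replicate, smul_eq_mul,
    Multiset.toFinset_replicate, if_neg (Nat.succ_ne_zero j), Finset.prod_singleton,
    Multiset.count_replicate_self, mul_comm (j + 1) 3]

theorem order_three {x : alternatingGroup α} (hx : (x : Perm α).IsThreeCycle)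
    (ψ : MulAut (alternatingGroup α)) : orderOf (ψ x : Perm α) = 3 := by
  rw [Subgroup.orderOf_coe, MulEquiv.orderOf_eq, ← Subgroup.orderOf_coe]
  exact hx.orderOf

/-- The image of a 3-cycle is a 3-cycle, or `n = 6` and it is a product of two 3-cycles. -/
theorem image_type (h2 : 2 ≤ Fintype.card α) (ψ : MulAut (alternatingGroup α))
    {x : alternatingGroup α} (hx : (x : Perm α).IsThreeCycle) :
    (ψ x : Perm α).IsThreeCycle ∨
      (Fintype.card α = 6 ∧ (ψ x : Perm α).cycleType = Multiset.replicate 2 3) := by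
  obtain ⟨n, hn⟩ := three_type (order_three hx ψ)
  rcases Nat.eq_zero_or_pos n with rfl | hpos
  · left
    exact hn
  obtain ⟨i, rfl⟩ : ∃ i, n = i + 1 := ⟨n - 1, by omega⟩
  right
  have hle := sum_cycleType_le (ψ x : Perm α)
  rw [hn, Multiset.sum_replicate, smul_eq_mul] at hle
  have e1 : Nat.card (Subgroup.centralizer {(x : Perm α)}) =
      (Fintype.card α - 3 * (0 + 1)).factorial * 3 ^ (0 + 1) * (0 + 1).factorial :=
    centralizer_card (by exact hx)
  have e2 := centralizer_card hn
  have e3 := le_CA h2 x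
  rw [CA_congr ψ x] at e3
  have e4 := CA_le (ψ x)
  have e5 : Nat.card (Subgroup.centralizer {(x : Perm α)}) ≤
      2 * Nat.card (Subgroup.centralizer {(ψ x : Perm α)}) := by omega
  rw [e1, e2] at e5
  obtain ⟨m, hm⟩ : ∃ m, Fintype.card α = 3 * (i + 1 + 1) + m := ⟨_, (Nat.add_sub_cancel' (by omega)).symm⟩
  by_cases h0 : i = 0 ∧ m = 0
  · obtain ⟨rfl, rfl⟩ := h0
    exact ⟨hm, hn⟩
  · exfalso
    have h3 := num_ineq i m h0
    rw [hm, show 3 * (i + 1 + 1) + m - 3 * (0 + 1) = 3 * i + m + 3 by omega,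
      show 3 * (i + 1 + 1) + m - 3 * (i + 1 + 1) = m by omega] at e5
    simp only [zero_add, pow_one, Nat.factorial_one, mul_one] at e5
    have e6 : i + 1 + 1 = i + 2 := rfl
    rw [e6] at e5
    omega

end Pool.Agent.Lib.MP_bacaed_al
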