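import Pool.Agent.Lib.MP_bacaed_al.AutC

/-! Automorphisms of odd order of the alternating group are inner: the 3-cycles. -/

set_option linter.unusedSectionVars false

namespace Pool.Agent.Lib.MP_bacaed_al

open Equiv Equiv.Perm

variable {α : Type} [Fintype α] [DecidableEq α]

theorem card_F1 (h6 : Fintype.card α = 6) :
    (Finset.univ.filter (fun g : alternatingGroup α => (g : Perm α).cycleType =
      Multiset.replicate 1 3)).card = 40 := by
  rw [AlternatingGroup.card_of_cycleType, h6]
  decide

theorem card_F2 (h6 : Fintype.card α = 6) :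
    (Finset.univ.filter (fun g : alternatingGroup α => (g : Perm α).cycleType =
      Multiset.replicate 2 3)).card = 40 := by
  rw [AlternatingGroup.card_of_cycleType, h6]
  decide

/-- An automorphism of odd order preserves the 3-cycles. -/
theorem three_preserved (h5 : 5 ≤ Fintype.card α) {k : ℕ} (hk : Odd k)
    (ψ : MulAut (alternatingGroup α)) (hψk : ψ ^ k = 1) (x : alternatingGroup α)
    (hx : (x : Perm α).IsThreeCycle) : (ψ x : Perm α).IsThreeCycle := by
  rcases image_type (by omega) ψ hx with h | ⟨h6, h⟩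
  · exact h
  exfalso
  let F1 := Finset.univ.filter (fun g : alternatingGroup α => (g : Perm α).cycleType =
      Multiset.replicate 1 3)
  let F2 := Finset.univ.filter (fun g : alternatingGroup α => (g : Perm α).cycleType =
      Multiset.replicate 2 3)
  have m1 : ∀ g : alternatingGroup α, g ∈ F1 ↔ (g : Perm α).cycleType = Multiset.replicate 1 3 := by
    intro g; simp [F1]
  have m2 : ∀ g : alternatingGroup α, g ∈ F2 ↔ (g : Perm α).cycleType = Multiset.replicate 2 3 := by
    intro g; simp [F2]
  have c1 : F1.card = 40 := card_F1 h6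
  have c2 : F2.card = 40 := card_F2 h6
  -- 3-cycles go to products of two 3-cycles
  have h12 : ∀ g ∈ F1, ψ g ∈ F2 := by
    intro g hg
    rw [m1] at hg
    have h5' : 5 ≤ Nat.card α := by rw [Nat.card_eq_fintype_card]; exact h5
    obtain ⟨c, hc⟩ := isConj_iff.1 (alternatingGroup.isThreeCycle_isConj h5' hx
      (by exact hg : (g : Perm α).IsThreeCycle))
    rw [m2, ← hc, map_mul, map_mul, map_inv]
    have e : ((ψ c * ψ x * (ψ c)⁻¹ : alternatingGroup α) : Perm α) =
        (ψ c : Perm α) * (ψ x : Perm α) * (ψ c : Perm α)⁻¹ := rfl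
    rw [e, cycleType_conj]
    exact h
  have himg : F1.image ψ = F2 := by
    apply Finset.eq_of_subset_of_card_le
    · intro y hy
      obtain ⟨g, hg, rfl⟩ := Finset.mem_image.1 hy
      exact h12 g hg
    · rw [Finset.card_image_of_injective _ ψ.injective, c1, c2]
  have h21 : ∀ g ∈ F2, ψ g ∈ F1 := by
    intro g hg
    have hord : orderOf (ψ g : Perm α) = 3 := by
      rw [Subgroup.orderOf_coe, MulEquiv.orderOf_eq, ← Subgroup.orderOf_coe,
        ← lcm_cycleType, (m2 g).1 hg]
      decide
    obtain ⟨n, hn⟩ := three_type hord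
    have hle := sum_cycleType_le (ψ g : Perm α)
    rw [hn, Multiset.sum_replicate, smul_eq_mul, h6] at hle
    have hn1 : n = 0 ∨ n = 1 := by omega
    rcases hn1 with rfl | rfl
    · rw [m1]; exact hn
    · exfalso
      have h3 : ψ g ∈ F1.image ψ := by rw [himg, m2]; exact hn
      obtain ⟨g', hg', he⟩ := Finset.mem_image.1 h3
      have h4 := ψ.injective he
      rw [h4, m1, (m2 g).1 hg] at hg'
      have := congrArg Multiset.card hg'
      simp at this
  have hiter : ∀ j : ℕ, (ψ ^ (2 * j)) x ∈ F1 ∧ (ψ ^ (2 * j + 1)) x ∈ F2 := by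
    intro j
    induction j with
    | zero =>
      have h0 : x ∈ F1 := by rw [m1]; exact hx
      exact ⟨h0, by simpa using h12 x h0⟩
    | succ j ih =>
      have e1 : (ψ ^ (2 * (j + 1))) x = ψ ((ψ ^ (2 * j + 1)) x) := by
        rw [show 2 * (j + 1) = (2 * j + 1) + 1 by ring, pow_succ', MulAut.mul_apply]
      have e2 : (ψ ^ (2 * (j + 1) + 1)) x = ψ ((ψ ^ (2 * (j + 1))) x) := by
        rw [pow_succ', MulAut.mul_apply]
      have a1 : (ψ ^ (2 * (j + 1))) x ∈ F1 := by rw [e1]; exact h21 _ ih.2
      exact ⟨a1, by rw [e2]; exact h12 _ a1⟩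
  obtain ⟨j, hj⟩ := hk
  have hfin := (hiter j).2
  rw [← hj, hψk, m2] at hfin
  have hx' : (x : Perm α).cycleType = Multiset.replicate 2 3 := hfin
  rw [hx] at hx'
  have := congrArg Multiset.card hx'
  simp at this

/-- An automorphism of the alternating group of odd order is inner. -/
theorem inner_of_pow (h5 : 5 ≤ Fintype.card α) {k : ℕ} (hk : Odd k)
    (ψ : MulAut (alternatingGroup α)) (hψk : ψ ^ k = 1) :
    ψ ∈ (MulAut.conj : alternatingGroup α →* MulAut (alternatingGroup α)).range := by
  obtain ⟨p0, -⟩ := exists_avoid (∅ : Finset α) (by simp; omega)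
  obtain ⟨p1, h1⟩ := exists_avoid ({p0} : Finset α) (by simp; omega)
  obtain ⟨q0, h2⟩ := exists_avoid ({p0, p1} : Finset α) (lt_of_le_of_lt Finset.card_le_two (by omega))
  obtain ⟨q1, h3⟩ := exists_avoid ({p0, p1, q0} : Finset α)
    (lt_of_le_of_lt Finset.card_le_three (by omega))
  simp only [Finset.mem_insert, Finset.mem_singleton, not_or] at h1 h2 h3
  obtain ⟨σ, hσ⟩ := exists_conj ψ (three_preserved h5 hk ψ hψk) (p0 := p0) (p1 := p1) (q0 := q0)
    (q1 := q1) (Ne.symm h1) h2.1 h2.2 h3.1 h3.2.1 (Ne.symm h3.2.2)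
  exact inner_of_conj (by omega) hk ψ hψk σ hσ

end Pool.Agent.Lib.MP_bacaed_al
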