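import Pool.Agent.Lib.MP_bacaed_al.AutC
import Pool.Agent.Lib.MP_bacaed_al.AltBound
import Pool.Agent.Lib.MP_bacaed_al.Coset

/-! All automorphisms of the alternating group of degree different from six. -/

set_option linter.unusedSectionVars false

namespace Pool.Agent.Lib.MP_bacaed_al

open Equiv Equiv.Perm

section

variable {α : Type} [Fintype α] [DecidableEq α]

theorem exists_conj_of_ne_six (h5 : 5 ≤ Fintype.card α) (h6 : Fintype.card α ≠ 6)
    (ψ : MulAut (alternatingGroup α)) :
    ∃ σ : Perm α, ∀ x : alternatingGroup α, (ψ x : Perm α) = σ * (x : Perm α) * σ⁻¹ := by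
  obtain ⟨p0, -⟩ := exists_avoid (∅ : Finset α) (by simp; omega)
  obtain ⟨p1, h1⟩ := exists_avoid ({p0} : Finset α) (by simp; omega)
  obtain ⟨q0, h2⟩ := exists_avoid ({p0, p1} : Finset α) (lt_of_le_of_lt Finset.card_le_two (by omega))
  obtain ⟨q1, h3⟩ := exists_avoid ({p0, p1, q0} : Finset α)
    (lt_of_le_of_lt Finset.card_le_three (by omega))
  simp only [Finset.mem_insert, Finset.mem_singleton, not_or] at h1 h2 h3
  refine exists_conj ψ (fun x hx => ?_) (p0 := p0) (p1 := p1) (q0 := q0)
    (q1 := q1) (Ne.symm h1) h2.1 h2.2 h3.1 h3.2.1 (Ne.symm h3.2.2)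
  rcases image_type (by omega) ψ hx with h | h
  · exact h
  · exact absurd h.1 h6

/-- Conjugation. -/
theorem conjNormal_bijective (h5 : 5 ≤ Fintype.card α) (h6 : Fintype.card α ≠ 6) :
    Function.Bijective (MulAut.conjNormal : Perm α →* MulAut (alternatingGroup α)) := by
  constructor
  · rw [injective_iff_map_eq_one]
    intro τ hτ
    apply eq_one_of_centralize (by omega)
    intro x
    have h1 : (MulAut.conjNormal τ) x = x := by rw [hτ]; rfl
    rw [← MulAut.conjNormal_apply, h1]
  · intro ψ
    obtain ⟨σ, hσ⟩ := exists_conj_of_ne_six h5 h6 ψ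
    refine ⟨σ, ?_⟩
    apply MulEquiv.ext
    intro x
    apply Subtype.ext
    rw [MulAut.conjNormal_apply, hσ]

theorem conj_eq_conjNormal (t : alternatingGroup α) :
    (MulAut.conj t : MulAut (alternatingGroup α)) = MulAut.conjNormal (t : Perm α) := by
  apply MulEquiv.ext
  intro x
  apply Subtype.ext
  rw [MulAut.conjNormal_apply]
  rfl

/-- The cosets are the cosets of the alternating group in the symmetric group. -/
theorem cnt_eq (h5 : 5 ≤ Fintype.card α) (h6 : Fintype.card α ≠ 6)
    (ζ : MulAut (alternatingGroup α)) :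
    ∃ σ : Perm α, ∀ k : ℕ, cnt k (alternatingGroup α) ζ =
      Nat.card {t : alternatingGroup α // ((t : Perm α) * σ) ^ k = 1} := by
  obtain ⟨σ, rfl⟩ := (conjNormal_bijective h5 h6).2 ζ
  refine ⟨σ, fun k => Nat.card_congr (Equiv.subtypeEquivRight (fun t => ?_))⟩
  rw [conj_eq_conjNormal, ← map_mul, ← map_pow]
  constructor
  · intro h
    exact (conjNormal_bijective h5 h6).1 (by rw [h, map_one])
  · intro h
    rw [h, map_one]

end

theorem cnt_le_NN {n : ℕ} (h5 : 5 ≤ n) (h6 : n ≠ 6) (k : ℕ)
    (ζ : MulAut (alternatingGroup (Fin n))) : cnt k (alternatingGroup (Fin n)) ζ ≤ NN k n := by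
  obtain ⟨σ, hσ⟩ := cnt_eq (α := Fin n) (by rwa [Fintype.card_fin]) (by rwa [Fintype.card_fin]) ζ
  rw [hσ]
  refine Nat.card_le_card_of_injective
    (fun t : {t : alternatingGroup (Fin n) // ((t : Perm (Fin n)) * σ) ^ k = 1} =>
      (⟨(t.1 : Perm (Fin n)) * σ, t.2⟩ : {g : Perm (Fin n) // g ^ k = 1})) ?_
  intro a b hab
  apply Subtype.ext
  apply Subtype.ext
  exact mul_right_cancel (congrArg Subtype.val hab)

/-- The recursion for `k = 4`. -/
theorem rec_four (n : ℕ) (hn : 4 ≤ n) : n * NN 4 n ≤ n * NN 4 (n - 1) +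
    (n.descFactorial 2 * NN 4 (n - 2) + n.descFactorial 4 * NN 4 (n - 4)) := by
  have h := rec_ineq 4 n
  have h2 : (Finset.Icc 2 n).filter (fun m => m ∣ 4) = {2, 4} := by
    ext m
    rw [Finset.mem_filter, Finset.mem_Icc, Finset.mem_insert, Finset.mem_singleton]
    constructor
    · rintro ⟨⟨h1, -⟩, h3⟩
      have h4 := Nat.le_of_dvd (by norm_num) h3
      interval_cases m
      · left; rfl
      · exfalso; revert h3; decide
      · right; rfl
    · rintro (rfl | rfl)
      · exact ⟨⟨le_rfl, by omega⟩, by decide⟩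
      · exact ⟨⟨by norm_num, hn⟩, by decide⟩
  rwa [h2, Finset.sum_pair (by norm_num)] at h

theorem rec_two (n : ℕ) (hn : 2 ≤ n) : n * NN 2 n ≤ n * NN 2 (n - 1) +
    n.descFactorial 2 * NN 2 (n - 2) := by
  have h := rec_ineq 2 n
  have h2 : (Finset.Icc 2 n).filter (fun m => m ∣ 2) = {2} := by
    ext m
    rw [Finset.mem_filter, Finset.mem_Icc, Finset.mem_singleton]
    constructor
    · rintro ⟨⟨h1, -⟩, h3⟩
      have h4 := Nat.le_of_dvd (by norm_num) h3
      omega
    · rintro rfl
      exact ⟨⟨le_rfl, by omega⟩, dvd_rfl⟩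
  rwa [h2, Finset.sum_singleton] at h

theorem NN_one (k : ℕ) : NN k 1 ≤ 1 := by
  have h := rec_ineq k 1
  have h2 : (Finset.Icc 2 1).filter (fun m => m ∣ k) = ∅ := by
    rw [Finset.filter_eq_empty_iff]
    intro m hm
    rw [Finset.mem_Icc] at hm
    omega
  rw [h2, Finset.sum_empty] at h
  simp only [one_mul, add_zero, Nat.sub_self, NN_zero] at h
  exact h

theorem desc_fact (m j : ℕ) : (m + j).descFactorial j * m.factorial = (m + j).factorial := by
  have := Nat.factorial_mul_descFactorial (show j ≤ m + j by omega)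
  rw [Nat.add_sub_cancel] at this
  rw [mul_comm]; exact this

theorem NN_four_small : NN 4 5 ≤ 56 ∧ NN 4 7 ≤ 1072 ∧ NN 4 8 ≤ 6224 ∧ NN 4 9 ≤ 33616 ∧
    NN 4 10 ≤ 218656 := by
  have r0 := NN_zero 4
  have r1 := NN_one 4
  have r2 : NN 4 2 ≤ 2 := by
    have h := rec_ineq 4 2
    have h2 : (Finset.Icc 2 2).filter (fun m => m ∣ 4) = {2} := by decide
    rw [h2, Finset.sum_singleton] at h
    have d : Nat.descFactorial 2 2 = 2 := by decide
    rw [d, show 2 - 1 = 1 from rfl, show 2 - 2 = 0 from rfl] at h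
    omega
  have r3 : NN 4 3 ≤ 4 := by
    have h := rec_ineq 4 3
    have h2 : (Finset.Icc 2 3).filter (fun m => m ∣ 4) = {2} := by decide
    rw [h2, Finset.sum_singleton] at h
    have d : Nat.descFactorial 3 2 = 6 := by decide
    rw [d, show 3 - 1 = 2 from rfl, show 3 - 2 = 1 from rfl] at h
    omega
  have r4 : NN 4 4 ≤ 16 := by
    have h := rec_four 4 (by norm_num)
    rw [show Nat.descFactorial 4 2 = 12 by decide, show Nat.descFactorial 4 4 = 24 by decide,
      show 4 - 1 = 3 from rfl, show 4 - 2 = 2 from rfl, show 4 - 4 = 0 from rfl] at h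
    omega
  have r5 : NN 4 5 ≤ 56 := by
    have h := rec_four 5 (by norm_num)
    rw [show Nat.descFactorial 5 2 = 20 by decide, show Nat.descFactorial 5 4 = 120 by decide,
      show 5 - 1 = 4 from rfl, show 5 - 2 = 3 from rfl, show 5 - 4 = 1 from rfl] at h
    omega
  have r6 : NN 4 6 ≤ 256 := by
    have h := rec_four 6 (by norm_num)
    rw [show Nat.descFactorial 6 2 = 30 by decide, show Nat.descFactorial 6 4 = 360 by decide,
      show 6 - 1 = 5 from rfl, show 6 - 2 = 4 from rfl, show 6 - 4 = 2 from rfl] at h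
    omega
  have r7 : NN 4 7 ≤ 1072 := by
    have h := rec_four 7 (by norm_num)
    rw [show Nat.descFactorial 7 2 = 42 by decide, show Nat.descFactorial 7 4 = 840 by decide,
      show 7 - 1 = 6 from rfl, show 7 - 2 = 5 from rfl, show 7 - 4 = 3 from rfl] at h
    omega
  have r8 : NN 4 8 ≤ 6224 := by
    have h := rec_four 8 (by norm_num)
    rw [show Nat.descFactorial 8 2 = 56 by decide, show Nat.descFactorial 8 4 = 1680 by decide,
      show 8 - 1 = 7 from rfl, show 8 - 2 = 6 from rfl, show 8 - 4 = 4 from rfl] at h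
    omega
  have r9 : NN 4 9 ≤ 33616 := by
    have h := rec_four 9 (by norm_num)
    rw [show Nat.descFactorial 9 2 = 72 by decide, show Nat.descFactorial 9 4 = 3024 by decide,
      show 9 - 1 = 8 from rfl, show 9 - 2 = 7 from rfl, show 9 - 4 = 5 from rfl] at h
    omega
  have r10 : NN 4 10 ≤ 218656 := by
    have h := rec_four 10 (by norm_num)
    rw [show Nat.descFactorial 10 2 = 90 by decide, show Nat.descFactorial 10 4 = 5040 by decide,
      show 10 - 1 = 9 from rfl, show 10 - 2 = 8 from rfl, show 10 - 4 = 6 from rfl] at h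
    omega
  exact ⟨r5, r7, r8, r9, r10⟩

theorem NN_four (n : ℕ) (hn : 7 ≤ n) : 30 * NN 4 n ≤ 7 * n.factorial := by
  obtain ⟨-, s7, s8, s9, s10⟩ := NN_four_small
  induction n using Nat.strong_induction_on with
  | _ n ih =>
    by_cases hsmall : n ≤ 10
    · have f7 : Nat.factorial 7 = 5040 := by decide
      have f8 : Nat.factorial 8 = 40320 := by decide
      have f9 : Nat.factorial 9 = 362880 := by decide
      have f10 : Nat.factorial 10 = 3628800 := by decide
      interval_cases n
      · rw [f7]; omega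
      · rw [f8]; omega
      · rw [f9]; omega
      · rw [f10]; omega
    · obtain ⟨m, rfl⟩ : ∃ m, n = m + 4 := ⟨n - 4, by omega⟩
      have i1 := ih (m + 3) (by omega) (by omega)
      have i2 := ih (m + 2) (by omega) (by omega)
      have i4 := ih m (by omega) (by omega)
      have h := rec_four (m + 4) (by omega)
      rw [show m + 4 - 1 = m + 3 by omega, show m + 4 - 2 = m + 2 by omega,
        show m + 4 - 4 = m by omega] at h
      have e4 := desc_fact m 4
      have e2 : (m + 4).descFactorial 2 * (m + 2).factorial = (m + 4).factorial :=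
        desc_fact (m + 2) 2
      have e1 : (m + 4) * (m + 3).factorial = (m + 4).factorial :=
        (Nat.factorial_succ (m + 3)).symm
      have h1 : (m + 4) * (30 * NN 4 (m + 4)) ≤ (m + 4) * (7 * (m + 4).factorial) := by
        calc (m + 4) * (30 * NN 4 (m + 4)) = 30 * ((m + 4) * NN 4 (m + 4)) := by ring
          _ ≤ 30 * ((m + 4) * NN 4 (m + 3) + ((m + 4).descFactorial 2 * NN 4 (m + 2) +
              (m + 4).descFactorial 4 * NN 4 m)) := Nat.mul_le_mul_left _ h
          _ = (m + 4) * (30 * NN 4 (m + 3)) + ((m + 4).descFactorial 2 * (30 * NN 4 (m + 2)) +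
              (m + 4).descFactorial 4 * (30 * NN 4 m)) := by ring
          _ ≤ (m + 4) * (7 * (m + 3).factorial) + ((m + 4).descFactorial 2 *
              (7 * (m + 2).factorial) + (m + 4).descFactorial 4 * (7 * m.factorial)) :=
            Nat.add_le_add (Nat.mul_le_mul_left _ i1) (Nat.add_le_add
              (Nat.mul_le_mul_left _ i2) (Nat.mul_le_mul_left _ i4))
          _ = 7 * ((m + 4) * (m + 3).factorial) + (7 * ((m + 4).descFactorial 2 *
              (m + 2).factorial) + 7 * ((m + 4).descFactorial 4 * m.factorial)) := by ring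
          _ = 3 * (7 * (m + 4).factorial) := by rw [e1, e2, e4]; ring
          _ ≤ (m + 4) * (7 * (m + 4).factorial) := Nat.mul_le_mul_right _ (by omega)
      exact Nat.le_of_mul_le_mul_left h1 (by omega)

theorem NN_two (n : ℕ) (hn : 5 ≤ n) : 30 * NN 2 n ≤ 7 * n.factorial := by
  have r0 := NN_zero 2
  have r1 := NN_one 2
  have r2 := rec_two 2 (by norm_num)
  have r3 := rec_two 3 (by norm_num)
  have r4 := rec_two 4 (by norm_num)
  have r5 := rec_two 5 (by norm_num)
  have r6 := rec_two 6 (by norm_num)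
  rw [show Nat.descFactorial 2 2 = 2 by decide, show 2 - 1 = 1 from rfl,
    show 2 - 2 = 0 from rfl] at r2
  rw [show Nat.descFactorial 3 2 = 6 by decide, show 3 - 1 = 2 from rfl,
    show 3 - 2 = 1 from rfl] at r3
  rw [show Nat.descFactorial 4 2 = 12 by decide, show 4 - 1 = 3 from rfl,
    show 4 - 2 = 2 from rfl] at r4
  rw [show Nat.descFactorial 5 2 = 20 by decide, show 5 - 1 = 4 from rfl,
    show 5 - 2 = 3 from rfl] at r5
  rw [show Nat.descFactorial 6 2 = 30 by decide, show 6 - 1 = 5 from rfl,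
    show 6 - 2 = 4 from rfl] at r6
  have s2 : NN 2 2 ≤ 2 := by omega
  have s3 : NN 2 3 ≤ 4 := by omega
  have s4 : NN 2 4 ≤ 10 := by omega
  have s5 : NN 2 5 ≤ 26 := by omega
  have s6 : NN 2 6 ≤ 76 := by omega
  induction n using Nat.strong_induction_on with
  | _ n ih =>
    by_cases hsmall : n ≤ 6
    · have f5 : Nat.factorial 5 = 120 := by decide
      have f6 : Nat.factorial 6 = 720 := by decide
      interval_cases n
      · rw [f5]; omega
      · rw [f6]; omega
    · obtain ⟨m, rfl⟩ : ∃ m, n = m + 2 := ⟨n - 2, by omega⟩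
      have i1 := ih (m + 1) (by omega) (by omega)
      have i2 := ih m (by omega) (by omega)
      have h := rec_two (m + 2) (by omega)
      rw [show m + 2 - 1 = m + 1 by omega, show m + 2 - 2 = m by omega] at h
      have e2 := desc_fact m 2
      have e1 : (m + 2) * (m + 1).factorial = (m + 2).factorial :=
        (Nat.factorial_succ (m + 1)).symm
      have h1 : (m + 2) * (30 * NN 2 (m + 2)) ≤ (m + 2) * (7 * (m + 2).factorial) := by
        calc (m + 2) * (30 * NN 2 (m + 2)) = 30 * ((m + 2) * NN 2 (m + 2)) := by ring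
          _ ≤ 30 * ((m + 2) * NN 2 (m + 1) + (m + 2).descFactorial 2 * NN 2 m) :=
            Nat.mul_le_mul_left _ h
          _ = (m + 2) * (30 * NN 2 (m + 1)) + (m + 2).descFactorial 2 * (30 * NN 2 m) := by ring
          _ ≤ (m + 2) * (7 * (m + 1).factorial) + (m + 2).descFactorial 2 * (7 * m.factorial) :=
            Nat.add_le_add (Nat.mul_le_mul_left _ i1) (Nat.mul_le_mul_left _ i2)
          _ = 7 * ((m + 2) * (m + 1).factorial) + 7 * ((m + 2).descFactorial 2 * m.factorial) := by
            ring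
          _ = 2 * (7 * (m + 2).factorial) := by rw [e1, e2]; ring
          _ ≤ (m + 2) * (7 * (m + 2).factorial) := Nat.mul_le_mul_right _ (by omega)
      exact Nat.le_of_mul_le_mul_left h1 (by omega)

end Pool.Agent.Lib.MP_bacaed_al
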