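import Pool.Agent.Lib.MP_bacaed_al.Alg

/-! Counting elements of `SL(2,F)` by trace. -/

namespace Pool.Agent.Lib.MP_bacaed_al

open Matrix Matrix.SpecialLinearGroup
open scoped MatrixGroups

section cnt

variable {F : Type} [Field F] [Fintype F] [DecidableEq F]

/-- The number of roots in `F` of `X ^ 2 - t X + 1`. -/
def R (t : F) : ℕ := (Finset.univ.filter (fun a : F => a * (t - a) = 1)).card

/-- `SL(2,F)` is finite. -/
noncomputable local instance : Fintype SL(2, F) := Fintype.ofFinite _

omit [Fintype F] [DecidableEq F] in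
theorem tr_eq (g : SL(2, F)) : g.1 0 0 + g.1 1 1 = tr g := (Matrix.trace_fin_two _).symm

omit [Fintype F] [DecidableEq F] in
theorem det_eq (g : SL(2, F)) : g.1 0 0 * g.1 1 1 - g.1 0 1 * g.1 1 0 = 1 := by
  rw [← Matrix.det_fin_two]; exact g.2

omit [DecidableEq F] in
theorem card_bc (d : F) [Fintype {x : F × F // x.1 * x.2 = d}] [DecidableEq F] :
    Fintype.card {x : F × F // x.1 * x.2 = d} =
      (Fintype.card F - 1) + if d = 0 then Fintype.card F else 0 := by
  classical
  have e : {x : F × F // x.1 * x.2 = d} ≃ Σ b : F, {c : F // b * c = d} :=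
    { toFun := fun x => ⟨x.1.1, x.1.2, x.2⟩
      invFun := fun y => ⟨(y.1, y.2.1), y.2.2⟩
      left_inv := fun _ => rfl
      right_inv := fun _ => rfl }
  rw [Fintype.card_congr e, Fintype.card_sigma]
  have h : ∀ b : F, Fintype.card {c : F // b * c = d} =
      if b = 0 then (if d = 0 then Fintype.card F else 0) else 1 := by
    intro b
    rw [Fintype.card_subtype]
    split_ifs with hb hd
    · subst hb; subst hd; simp
    · subst hb
      rw [Finset.card_eq_zero, Finset.filter_eq_empty_iff]
      intro c _
      rw [zero_mul]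
      exact fun h => hd h.symm
    · rw [Finset.card_eq_one]
      refine ⟨d / b, ?_⟩
      ext c
      simp only [Finset.mem_filter, Finset.mem_univ, true_and, Finset.mem_singleton]
      rw [eq_div_iff hb, mul_comm]
  rw [Finset.sum_congr rfl (fun b _ => h b), ← Finset.add_sum_erase _ _ (Finset.mem_univ (0 : F)),
    if_pos rfl, Finset.sum_congr rfl (fun b hb => if_neg (Finset.ne_of_mem_erase hb)),
    Finset.sum_const, Finset.card_erase_of_mem (Finset.mem_univ _), Finset.card_univ, smul_eq_mul,
    mul_one, add_comm]

/-- Elements of trace `t` are triples `(a, (b, c))` with `b c = a (t - a) - 1`. -/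
def trEquiv (t : F) : {g : SL(2, F) // tr g = t} ≃
    Σ a : F, {x : F × F // x.1 * x.2 = a * (t - a) - 1} where
  toFun g := ⟨g.1.1 0 0, (g.1.1 0 1, g.1.1 1 0), by
    have hd := det_eq g.1
    have ht := (tr_eq g.1).trans g.2
    change g.1.1 0 1 * g.1.1 1 0 = g.1.1 0 0 * (t - g.1.1 0 0) - 1
    linear_combination (-1 : F) * hd + g.1.1 0 0 * ht⟩
  invFun y := ⟨⟨!![y.1, y.2.1.1; y.2.1.2, t - y.1], by
      rw [Matrix.det_fin_two_of, y.2.2]; ring⟩, by
      change Matrix.trace !![y.1, y.2.1.1; y.2.1.2, t - y.1] = t
      rw [Matrix.trace_fin_two_of]; ring⟩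
  left_inv g := by
    apply Subtype.ext
    apply Subtype.ext
    have ht := (tr_eq g.1).trans g.2
    ext i j
    fin_cases i <;> fin_cases j
    · rfl
    · rfl
    · rfl
    · change t - g.1.1 0 0 = g.1.1 1 1
      linear_combination (-1 : F) * ht
  right_inv y := by
    rfl

theorem card_tr (t : F) : Fintype.card {g : SL(2, F) // tr g = t} =
    Fintype.card F * (Fintype.card F - 1) + Fintype.card F * R t := by
  classical
  rw [Fintype.card_congr (trEquiv t), Fintype.card_sigma,
    Finset.sum_congr rfl (fun a _ => card_bc (a * (t - a) - 1)), Finset.sum_add_distrib,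
    Finset.sum_const, Finset.card_univ, smul_eq_mul]
  congr 1
  rw [← Finset.sum_filter, Finset.sum_const, smul_eq_mul, mul_comm, R]
  congr 2
  ext a
  simp [sub_eq_zero]

theorem sum_R : ∑ t : F, R t = Fintype.card F - 1 := by
  classical
  have h : ∀ t : F, R t = ∑ a : F, if a * (t - a) = 1 then 1 else 0 := by
    intro t
    rw [R, Finset.card_filter]
  rw [Finset.sum_congr rfl (fun t _ => h t), Finset.sum_comm]
  have h2 : ∀ a : F, (∑ t : F, if a * (t - a) = 1 then 1 else 0) = if a = 0 then 0 else 1 := by
    intro a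
    rw [← Finset.card_filter]
    split_ifs with ha
    · subst ha
      rw [Finset.card_eq_zero, Finset.filter_eq_empty_iff]
      intro t _
      rw [zero_mul]
      exact zero_ne_one
    · rw [Finset.card_eq_one]
      refine ⟨a⁻¹ + a, ?_⟩
      ext t
      simp only [Finset.mem_filter, Finset.mem_univ, true_and, Finset.mem_singleton]
      constructor
      · intro h
        have : t - a = a⁻¹ := eq_inv_of_mul_eq_one_right h
        rw [← this]; ring
      · rintro rfl
        rw [add_sub_cancel_right, mul_inv_cancel₀ ha]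
  rw [Finset.sum_congr rfl (fun a _ => h2 a), ← Finset.add_sum_erase _ _ (Finset.mem_univ (0 : F)),
    if_pos rfl, Finset.sum_congr rfl (fun b hb => if_neg (Finset.ne_of_mem_erase hb)),
    Finset.sum_const, Finset.card_erase_of_mem (Finset.mem_univ _), Finset.card_univ, smul_eq_mul,
    mul_one, zero_add]

theorem R_le (t : F) : R t ≤ 2 := by
  classical
  rw [R]
  by_cases h : ∃ a : F, a * (t - a) = 1
  · obtain ⟨a, ha⟩ := h
    refine (Finset.card_le_card (t := {a, t - a}) ?_).trans (Finset.card_le_two)
    intro b hb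
    have hb' : b * (t - b) = 1 := (Finset.mem_filter.mp hb).2
    have : (b - a) * (b - (t - a)) = 0 := by linear_combination ha - hb'
    rw [Finset.mem_insert, Finset.mem_singleton]
    rcases mul_eq_zero.mp this with h | h
    · left; exact sub_eq_zero.mp h
    · right; exact sub_eq_zero.mp h
  · push Not at h
    rw [Finset.filter_false_of_mem (fun a _ => h a)]
    simp

theorem R_one {t : F} (h : R t = 1) : t * t = 4 := by
  classical
  rw [R, Finset.card_eq_one] at h
  obtain ⟨a, ha⟩ := h
  have h1 : a * (t - a) = 1 := by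
    have : a ∈ Finset.univ.filter (fun a : F => a * (t - a) = 1) := by rw [ha]; simp
    exact (Finset.mem_filter.mp this).2
  have h2 : t - a = a := by
    have : t - a ∈ Finset.univ.filter (fun a : F => a * (t - a) = 1) := by
      rw [Finset.mem_filter]
      refine ⟨Finset.mem_univ _, ?_⟩
      rw [← h1]; ring
    rw [ha] at this
    exact Finset.mem_singleton.mp this
  rw [h2] at h1
  have h3 : t = 2 * a := by linear_combination h2
  rw [h3]
  linear_combination 4 * h1

theorem R_neg (t : F) : R (-t) = R t := by
  classical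
  rw [R, R]
  apply Finset.card_bij (fun a _ => -a)
  · intro a ha
    rw [Finset.mem_filter] at ha ⊢
    refine ⟨Finset.mem_univ _, ?_⟩
    rw [← ha.2]; ring
  · intro a _ b _ h
    exact neg_injective h
  · intro b hb
    rw [Finset.mem_filter] at hb
    refine ⟨-b, ?_, neg_neg b⟩
    rw [Finset.mem_filter]
    refine ⟨Finset.mem_univ _, ?_⟩
    rw [← hb.2]; ring

theorem R_zero {t : F} (h : R t = 0) (a : F) : a * (t - a) ≠ 1 := by
  intro h1
  rw [R, Finset.card_eq_zero, Finset.filter_eq_empty_iff] at h
  exact h (Finset.mem_univ a) h1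

theorem R_two {t : F} (h : R t = 2) : ∃ a : F, a * (t - a) = 1 ∧ a * a ≠ 1 := by
  classical
  rw [R, Finset.card_eq_two] at h
  obtain ⟨a, b, hab, h⟩ := h
  have ha : a * (t - a) = 1 := by
    have : a ∈ Finset.univ.filter (fun a : F => a * (t - a) = 1) := by rw [h]; simp
    exact (Finset.mem_filter.mp this).2
  have hb : b * (t - b) = 1 := by
    have : b ∈ Finset.univ.filter (fun a : F => a * (t - a) = 1) := by rw [h]; simp
    exact (Finset.mem_filter.mp this).2
  refine ⟨a, ha, ?_⟩
  intro haa
  have ha0 : a ≠ 0 := by rintro rfl; simp at haa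
  have h1 : t = 2 * a := by
    have : a * (t - 2 * a) = 0 := by linear_combination ha - haa
    have := (mul_eq_zero.mp this).resolve_left ha0
    linear_combination this
  have h2 : (b - a) * (b - a) = 0 := by
    rw [h1] at hb
    linear_combination haa - hb
  apply hab
  have := mul_self_eq_zero.mp h2
  exact (sub_eq_zero.mp this).symm

/-- Sum of the class sizes over a set of traces is at most the number of elements with trace there. -/
theorem sum_le (U : Finset F) (P : SL(2, F) → Prop) [DecidablePred P]
    (hU : ∀ t ∈ U, ∀ g : SL(2, F), tr g = t → P g) :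
    ∑ t ∈ U, (Fintype.card F * (Fintype.card F - 1) + Fintype.card F * R t) ≤
      Fintype.card {g : SL(2, F) // P g} := by
  classical
  rw [Finset.sum_congr rfl (fun t _ => (card_tr t).symm)]
  rw [Fintype.card_subtype]
  have h : ∀ t ∈ U, Fintype.card {g : SL(2, F) // tr g = t} =
      ((Finset.univ.filter P).filter (fun g => tr g = t)).card := by
    intro t ht
    rw [Fintype.card_subtype]
    congr 1
    ext g
    simp only [Finset.mem_filter, Finset.mem_univ, true_and]
    exact ⟨fun hg => ⟨hU t ht g hg, hg⟩, fun hg => hg.2⟩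
  rw [Finset.sum_congr rfl h]
  rw [← Finset.card_biUnion]
  · apply Finset.card_le_card
    intro g hg
    obtain ⟨t, _, ht⟩ := Finset.mem_biUnion.mp hg
    exact (Finset.mem_filter.mp ht).1
  · intro s _ t _ hst
    rw [Function.onFun, Finset.disjoint_left]
    intro g hg hg'
    exact hst ((Finset.mem_filter.mp hg).2.symm.trans (Finset.mem_filter.mp hg').2)

theorem card_sl : Fintype.card SL(2, F) =
    Fintype.card F * (Fintype.card F * (Fintype.card F - 1)) +
      Fintype.card F * (Fintype.card F - 1) := by
  classical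
  have e : SL(2, F) ≃ Σ t : F, {g : SL(2, F) // tr g = t} :=
    (Equiv.sigmaFiberEquiv (fun g : SL(2, F) => tr g)).symm
  rw [Fintype.card_congr e, Fintype.card_sigma, Finset.sum_congr rfl (fun t _ => card_tr t),
    Finset.sum_add_distrib, Finset.sum_const, Finset.card_univ, smul_eq_mul, ← Finset.mul_sum,
    sum_R]

end cnt

end Pool.Agent.Lib.MP_bacaed_al
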