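import Pool.Agent.Lib.MP_bacaed_al.Coset

/-! The case `k = 4` for a simple subnormal subgroup which is not normal. -/

namespace Pool.Agent.Lib.MP_bacaed_al

section four

variable {Q : Type*} [Group Q]

/-- If `z` does not normalise `S`, then only the elements of order dividing `2` matter. -/
theorem coset_four [Finite Q] (M S : Subgroup Q) (hM : M.Normal) (hSM : S ≤ M)
    (hS : ∀ m ∈ M, ∀ s ∈ S, m * s * m⁻¹ ∈ S) [IsSimpleGroup S] (z : Q)
    (hz : ¬ ∀ x ∈ S, z * x * z⁻¹ ∈ S) :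
    ∃ θ : MulAut S, ∀ s : S, ((s : Q) * z) ^ 4 = 1 → (MulAut.conj s * θ) ^ 2 = 1 := by
  classical
  have hex : ∃ n : ℕ, 0 < n ∧ ∀ x ∈ S, z ^ n * x * (z ^ n)⁻¹ ∈ S :=
    ⟨orderOf z, orderOf_pos z, fun x hx => by rw [pow_orderOf_eq_one]; simpa using hx⟩
  let l := Nat.find hex
  have hl0 : 0 < l := (Nat.find_spec hex).1
  have hl : ∀ x ∈ S, z ^ l * x * (z ^ l)⁻¹ ∈ S := (Nat.find_spec hex).2
  have hnot : ∀ n, 0 < n → n < l → ¬ ∀ x ∈ S, z ^ n * x * (z ^ n)⁻¹ ∈ S :=
    fun n hn hnl h => Nat.find_min hex hnl ⟨hn, h⟩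
  have hmin : ∀ n, 0 < n → n < l → ∀ x ∈ S, ∀ y ∈ S, Commute x (z ^ n * y * (z ^ n)⁻¹) := by
    intro n hn hnl
    rcases conj_or_commute M S hM hSM hS (z ^ n) with h | h
    · exact absurd h (hnot n hn hnl)
    · exact h
  have hl1 : l ≠ 1 := by
    intro h
    apply hz
    rw [h, pow_one] at hl
    exact hl
  let θh : S →* S :=
    { toFun := fun x => ⟨z ^ l * (x : Q) * (z ^ l)⁻¹, hl x x.2⟩
      map_one' := by apply Subtype.ext; simp
      map_mul' := by
        intro a b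
        apply Subtype.ext
        change z ^ l * ((a * b : S) : Q) * (z ^ l)⁻¹ =
          (z ^ l * (a : Q) * (z ^ l)⁻¹) * (z ^ l * (b : Q) * (z ^ l)⁻¹)
        rw [Subgroup.coe_mul]; group }
  have hinj : Function.Injective θh := by
    intro a b hab
    have h5 : z ^ l * (a : Q) * (z ^ l)⁻¹ = z ^ l * (b : Q) * (z ^ l)⁻¹ :=
      congrArg Subtype.val hab
    apply Subtype.ext
    exact mul_left_cancel (mul_right_cancel h5)
  let θ : MulAut S := MulEquiv.ofBijective θh ⟨hinj, Finite.surjective_of_injective hinj⟩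
  have hθ : ∀ x : S, ((θ x : S) : Q) = z ^ l * (x : Q) * (z ^ l)⁻¹ := fun x => rfl
  refine ⟨θ, ?_⟩
  intro s hs
  have hu : ∀ n, 0 < n → n ≤ l →
      ∃ u : Q, ((s : Q) * z) ^ n = s * u * z ^ n ∧ ∀ x ∈ S, Commute u x := by
    intro n hn
    induction n with
    | zero => omega
    | succ n ih =>
      intro hnl
      rcases Nat.eq_zero_or_pos n with h0 | h0
      · subst h0
        exact ⟨1, by simp, fun x _ => Commute.one_left x⟩
      · obtain ⟨u, hu1, hu2⟩ := ih h0 (by omega)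
        refine ⟨u * (z ^ n * (s : Q) * (z ^ n)⁻¹), ?_, ?_⟩
        · rw [pow_succ, hu1, pow_succ]; group
        · intro x hx
          exact (hu2 x hx).mul_left (hmin n h0 (by omega) x hx s s.2).symm
  obtain ⟨u, hu1, hu2⟩ := hu l hl0 le_rfl
  have hact : ∀ x : S, (((MulAut.conj s * θ) x : S) : Q) =
      (((s : Q) * z) ^ l) * (x : Q) * (((s : Q) * z) ^ l)⁻¹ := by
    intro x
    have h1 : (((MulAut.conj s * θ) x : S) : Q) = s * (z ^ l * (x : Q) * (z ^ l)⁻¹) * (s : Q)⁻¹ := by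
      rw [MulAut.mul_apply, MulAut.conj_apply, Subgroup.coe_mul, Subgroup.coe_mul,
        Subgroup.coe_inv, hθ]
    rw [h1, hu1]
    have h2 := hu2 _ (hl x x.2)
    have h3 : u * (z ^ l * (x : Q) * (z ^ l)⁻¹) * u⁻¹ = z ^ l * (x : Q) * (z ^ l)⁻¹ := by
      rw [h2.eq, mul_inv_cancel_right]
    calc (s : Q) * (z ^ l * (x : Q) * (z ^ l)⁻¹) * (s : Q)⁻¹ =
        s * (u * (z ^ l * (x : Q) * (z ^ l)⁻¹) * u⁻¹) * (s : Q)⁻¹ := by rw [h3]
      _ = s * u * z ^ l * x * (s * u * z ^ l)⁻¹ := by group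
  have hpow : ∀ j : ℕ, ∀ x : S, (((MulAut.conj s * θ) ^ j) x : Q) =
      ((((s : Q) * z) ^ l) ^ j) * (x : Q) * ((((s : Q) * z) ^ l) ^ j)⁻¹ := by
    intro j
    induction j with
    | zero => intro x; simp
    | succ j ih =>
      intro x
      rw [pow_succ', MulAut.mul_apply, hact, ih, pow_succ' (((s : Q) * z) ^ l)]
      group
  -- `z ^ 4` normalises `S`
  have hz4 : ∀ x ∈ S, z ^ 4 * x * (z ^ 4)⁻¹ ∈ S := by
    have h1 : (z ^ 4)⁻¹ = (s : Q) * (z * s * z⁻¹) * (z ^ 2 * s * (z ^ 2)⁻¹) *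
        (z ^ 3 * s * (z ^ 3)⁻¹) := by
      have h2 : ((s : Q) * z) ^ 4 = (s : Q) * (z * s * z⁻¹) * (z ^ 2 * s * (z ^ 2)⁻¹) *
        (z ^ 3 * s * (z ^ 3)⁻¹) * z ^ 4 := by
        have e4 : ((s : Q) * z) ^ 4 = (s * z) * (s * z) * (s * z) * (s * z) := by
          simp only [pow_succ, pow_zero, one_mul]
        rw [e4]; group
      rw [hs] at h2
      exact (eq_inv_of_mul_eq_one_left h2.symm).symm
    have h3 : (z ^ 4)⁻¹ ∈ M := by
      rw [h1]
      exact M.mul_mem (M.mul_mem (M.mul_mem (hSM s.2) (hM.conj_mem _ (hSM s.2) z))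
        (hM.conj_mem _ (hSM s.2) _)) (hM.conj_mem _ (hSM s.2) _)
    intro x hx
    have h4 : z ^ 4 ∈ M := by simpa using M.inv_mem h3
    exact hS _ h4 x hx
  have hl4 : l = 2 ∨ l = 4 := by
    have hle : l ≤ 4 := Nat.find_min' hex ⟨by norm_num, hz4⟩
    have hl3 : l ≠ 3 := by
      intro h3
      -- then `z = z ^ 4 * (z ^ 3)⁻¹` normalises `S`
      apply hz
      rw [h3] at hl
      -- `z ^ 3` induces a bijection of `S`
      have hinv : ∀ x ∈ S, (z ^ 3)⁻¹ * x * z ^ 3 ∈ S := by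
        let f : S → S := fun x => ⟨z ^ 3 * (x : Q) * (z ^ 3)⁻¹, hl x x.2⟩
        have hf : Function.Injective f := by
          intro a b hab
          have h5 : z ^ 3 * (a : Q) * (z ^ 3)⁻¹ = z ^ 3 * (b : Q) * (z ^ 3)⁻¹ :=
            congrArg Subtype.val hab
          apply Subtype.ext
          exact mul_left_cancel (mul_right_cancel h5)
        intro x hx
        obtain ⟨y, hy⟩ := Finite.surjective_of_injective hf ⟨x, hx⟩
        have h6 : z ^ 3 * (y : Q) * (z ^ 3)⁻¹ = x := congrArg Subtype.val hy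
        have h7 : (z ^ 3)⁻¹ * x * z ^ 3 = y := by rw [← h6]; group
        rw [h7]; exact y.2
      intro x hx
      have h8 := hz4 _ (hinv x hx)
      have h9 : z ^ 4 * ((z ^ 3)⁻¹ * x * z ^ 3) * (z ^ 4)⁻¹ = z * x * z⁻¹ := by group
      rwa [h9] at h8
    omega
  have hfin : ∀ j : ℕ, (((s : Q) * z) ^ l) ^ j = 1 → (MulAut.conj s * θ) ^ j = 1 := by
    intro j hj
    apply MulEquiv.ext
    intro x
    apply Subtype.ext
    rw [hpow, hj]
    simp
  rcases hl4 with h | h
  · apply hfin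
    rw [h, ← pow_mul]
    exact hs
  · apply hfin
    rw [h, hs, one_pow]

/-- If `z` normalises `S`. -/
theorem norm_coset [Finite Q] (S : Subgroup Q) (z : Q) (hz : ∀ x ∈ S, z * x * z⁻¹ ∈ S) :
    ∃ θ : MulAut S, ∀ (k : ℕ) (s : S) (u : Q), (∀ x ∈ S, Commute u x) →
      ((s : Q) * u * z) ^ k = 1 → (MulAut.conj s * θ) ^ k = 1 := by
  let θh : S →* S :=
    { toFun := fun x => ⟨z * (x : Q) * z⁻¹, hz x x.2⟩
      map_one' := by apply Subtype.ext; simp
      map_mul' := by
        intro a b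
        apply Subtype.ext
        change z * ((a * b : S) : Q) * z⁻¹ = (z * (a : Q) * z⁻¹) * (z * (b : Q) * z⁻¹)
        rw [Subgroup.coe_mul]; group }
  have hinj : Function.Injective θh := by
    intro a b hab
    have h5 : z * (a : Q) * z⁻¹ = z * (b : Q) * z⁻¹ := congrArg Subtype.val hab
    apply Subtype.ext
    exact mul_left_cancel (mul_right_cancel h5)
  let θ : MulAut S := MulEquiv.ofBijective θh ⟨hinj, Finite.surjective_of_injective hinj⟩
  have hθ : ∀ x : S, ((θ x : S) : Q) = z * (x : Q) * z⁻¹ := fun x => rfl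
  refine ⟨θ, ?_⟩
  intro k s u hu hs
  have hact : ∀ x : S, (((MulAut.conj s * θ) x : S) : Q) =
      ((s : Q) * u * z) * (x : Q) * ((s : Q) * u * z)⁻¹ := by
    intro x
    have h1 : (((MulAut.conj s * θ) x : S) : Q) = s * (z * (x : Q) * z⁻¹) * (s : Q)⁻¹ := by
      rw [MulAut.mul_apply, MulAut.conj_apply, Subgroup.coe_mul, Subgroup.coe_mul,
        Subgroup.coe_inv, hθ]
    rw [h1]
    have h2 := hu _ (hz x x.2)
    have h3 : u * (z * (x : Q) * z⁻¹) * u⁻¹ = z * (x : Q) * z⁻¹ := by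
      rw [h2.eq, mul_inv_cancel_right]
    calc (s : Q) * (z * (x : Q) * z⁻¹) * (s : Q)⁻¹ =
        s * (u * (z * (x : Q) * z⁻¹) * u⁻¹) * (s : Q)⁻¹ := by rw [h3]
      _ = s * u * z * x * (s * u * z)⁻¹ := by group
  have hpow : ∀ j : ℕ, ∀ x : S, (((MulAut.conj s * θ) ^ j) x : Q) =
      (((s : Q) * u * z) ^ j) * (x : Q) * (((s : Q) * u * z) ^ j)⁻¹ := by
    intro j
    induction j with
    | zero => intro x; simp
    | succ j ih =>
      intro x
      rw [pow_succ', MulAut.mul_apply, hact, ih]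
      generalize (s : Q) * u * z = w
      rw [pow_succ' w]
      group
  apply MulEquiv.ext
  intro x
  apply Subtype.ext
  rw [hpow, hs]
  simp

/-- Double counting with an arbitrary family of multipliers. -/
theorem card_le_of_family [Finite Q] {I : Type*} [Finite I] (f : I → Q) (k C : ℕ)
    (h : ∀ z : Q, Nat.card {i : I // (f i * z) ^ k = 1} ≤ C) :
    Nat.card {g : Q // g ^ k = 1} * Nat.card I ≤ Nat.card Q * C := by
  classical
  haveI : Fintype Q := Fintype.ofFinite Q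
  have e : {g : Q // g ^ k = 1} × I ≃ Σ z : Q, {i : I // (f i * z) ^ k = 1} :=
    { toFun := fun p => ⟨(f p.2)⁻¹ * p.1.1, p.2, by
        rw [mul_inv_cancel_left]; exact p.1.2⟩
      invFun := fun q => (⟨f q.2.1 * q.1, q.2.2⟩, q.2.1)
      left_inv := by
        intro p
        apply Prod.ext
        · apply Subtype.ext
          exact mul_inv_cancel_left _ _
        · rfl
      right_inv := by
        rintro ⟨z, i, hi⟩
        have hz : (f i)⁻¹ * (f i * z) = z := inv_mul_cancel_left _ _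
        refine Sigma.ext hz ?_
        refine (Subtype.heq_iff_coe_eq ?_).2 rfl
        intro x
        change (_ * ((f i)⁻¹ * (f i * z))) ^ k = 1 ↔ _
        rw [hz] }
  rw [← Nat.card_prod, Nat.card_congr e, Nat.card_sigma]
  calc ∑ z : Q, Nat.card {i : I // (f i * z) ^ k = 1} ≤ ∑ _z : Q, C :=
        Finset.sum_le_sum (fun z _ => h z)
    _ = Nat.card Q * C := by
        rw [Finset.sum_const, Finset.card_univ, smul_eq_mul, Nat.card_eq_fintype_card]

theorem card_pairs_le {A B : Type*} [Finite A] [Finite B] (p : A → B → Prop) (C : ℕ)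
    (h : ∀ b, Nat.card {a : A // p a b} ≤ C) :
    Nat.card {x : A × B // p x.1 x.2} ≤ Nat.card B * C := by
  classical
  haveI : Fintype B := Fintype.ofFinite B
  have e : {x : A × B // p x.1 x.2} ≃ Σ b : B, {a : A // p a b} :=
    { toFun := fun x => ⟨x.1.2, x.1.1, x.2⟩
      invFun := fun y => ⟨(y.2.1, y.1), y.2.2⟩
      left_inv := fun x => rfl
      right_inv := fun y => rfl }
  rw [Nat.card_congr e, Nat.card_sigma]
  calc ∑ b : B, Nat.card {a : A // p a b} ≤ ∑ _b : B, C := Finset.sum_le_sum (fun b _ => h b)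
    _ = Nat.card B * C := by
        rw [Finset.sum_const, Finset.card_univ, smul_eq_mul, Nat.card_eq_fintype_card]

theorem card_pairs_le' {A B : Type*} [Finite A] [Finite B] (p : A → B → Prop) (C : ℕ)
    (h : ∀ a, Nat.card {b : B // p a b} ≤ C) :
    Nat.card {x : A × B // p x.1 x.2} ≤ Nat.card A * C := by
  classical
  haveI : Fintype A := Fintype.ofFinite A
  have e : {x : A × B // p x.1 x.2} ≃ Σ a : A, {b : B // p a b} :=
    { toFun := fun x => ⟨x.1.1, x.1.2, x.2⟩
      invFun := fun y => ⟨(y.1, y.2.1), y.2.2⟩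
      left_inv := fun x => rfl
      right_inv := fun y => rfl }
  rw [Nat.card_congr e, Nat.card_sigma]
  calc ∑ a : A, Nat.card {b : B // p a b} ≤ ∑ _a : A, C := Finset.sum_le_sum (fun a _ => h a)
    _ = Nat.card A * C := by
        rw [Finset.sum_const, Finset.card_univ, smul_eq_mul, Nat.card_eq_fintype_card]

end four

end Pool.Agent.Lib.MP_bacaed_al
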