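import Mathlib

/-! Definitions for the density constants. -/

namespace Pool.Agent.Lib.MP_bacaed_al

/-- The proportion of the elements of the finite group `G` whose order divides `k`. -/
noncomputable def rho (k : ℕ) (G : Type) [Group G] : ℝ :=
  (Nat.card {g : G // orderOf g ∣ k} : ℝ) / (Nat.card G : ℝ)

/-- The supremum of `rho k G` over the finite non-soluble groups `G`. -/
noncomputable def eps (k : ℕ) : ℝ :=
  sSup {x : ℝ | ∃ (G : Type) (_ : Group G), Finite G ∧ ¬ Group.IsSolvable G ∧ rho k G = x}

/-- `G` has a quotient `Q` with a normal subgroup `M` which has a normal subgroup `S` isomorphic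
to `T`. (For a nonabelian simple group `T` this means that `T` is a composition factor of `G`.) -/
def HasFactor (T G : Type) [Group T] [Group G] : Prop :=
  ∃ (Q : Type) (_ : Group Q) (f : G →* Q) (M S : Subgroup Q), Function.Surjective f ∧ M.Normal ∧
    S ≤ M ∧ (∀ m ∈ M, ∀ s ∈ S, m * s * m⁻¹ ∈ S) ∧ Nonempty (S ≃* T)

theorem rho_le_one (k : ℕ) (G : Type) [Group G] [Finite G] : rho k G ≤ 1 := by
  have h1 : Nat.card {g : G // orderOf g ∣ k} ≤ Nat.card G :=
    Nat.card_le_card_of_injective _ Subtype.val_injective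
  have h2 : (0 : ℝ) < Nat.card G := by exact_mod_cast Nat.card_pos
  rw [rho, div_le_one h2]
  exact_mod_cast h1

theorem bdd_eps (k : ℕ) : BddAbove
    {x : ℝ | ∃ (G : Type) (_ : Group G), Finite G ∧ ¬ Group.IsSolvable G ∧ rho k G = x} := by
  refine ⟨1, ?_⟩
  rintro y ⟨G', _, hfin, -, rfl⟩
  exact rho_le_one k G'

theorem le_eps {k : ℕ} {G : Type} [Group G] [Finite G] (hG : ¬ Group.IsSolvable G) :
    rho k G ≤ eps k :=
  le_csSup (bdd_eps k) ⟨G, inferInstance, inferInstance, hG, rfl⟩

theorem rho_eq (k : ℕ) (G : Type) [Group G] :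
    rho k G = (Nat.card {g : G // g ^ k = 1} : ℝ) / (Nat.card G : ℝ) := by
  rw [rho]
  congr 2
  exact Nat.card_congr (Equiv.subtypeEquivRight (fun g => orderOf_dvd_iff_pow_eq_one))

/-- Preimages under a surjective homomorphism. -/
theorem card_preimage {G Q : Type} [Group G] [Group Q] [Finite G] (f : G →* Q)
    (hf : Function.Surjective f) (p : Q → Prop) :
    Nat.card {g : G // p (f g)} * Nat.card Q = Nat.card {x : Q // p x} * Nat.card G := by
  have e1 : G ⧸ f.ker ≃* Q := QuotientGroup.quotientKerEquivOfSurjective f hf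
  have he : ∀ g : G, (QuotientGroup.quotientKerEquivOfSurjective f hf) (g : G ⧸ f.ker) = f g :=
    fun g => rfl
  have e : {g : G // p (f g)} ≃ f.ker × {x : Q // p x} := by
    refine Equiv.trans (Equiv.trans ?_ (QuotientGroup.preimageMkEquivSubgroupProdSet f.ker
      {x : G ⧸ f.ker | p ((QuotientGroup.quotientKerEquivOfSurjective f hf) x)})) ?_
    · exact Equiv.subtypeEquivRight (fun g => Iff.rfl)
    · exact Equiv.prodCongr (Equiv.refl _)
        (Equiv.subtypeEquiv (QuotientGroup.quotientKerEquivOfSurjective f hf).toEquiv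
          (fun x => Iff.rfl))
  have hc : Nat.card G = Nat.card Q * Nat.card f.ker := by
    rw [Subgroup.card_eq_card_quotient_mul_card_subgroup f.ker, Nat.card_congr e1.toEquiv]
  rw [Nat.card_congr e, Nat.card_prod, hc]
  ring

/-- The proportion does not decrease when passing to a quotient. -/
theorem rho_le_quot {G Q : Type} [Group G] [Group Q] [Finite G] [Finite Q] (f : G →* Q)
    (hf : Function.Surjective f) (k : ℕ) : rho k G ≤ rho k Q := by
  rw [rho_eq, rho_eq]
  have hG : (0 : ℝ) < Nat.card G := by exact_mod_cast Nat.card_pos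
  have hQ : (0 : ℝ) < Nat.card Q := by exact_mod_cast Nat.card_pos
  rw [div_le_div_iff₀ hG hQ]
  have h1 := card_preimage f hf (fun x => x ^ k = 1)
  have h2 : Nat.card {g : G // g ^ k = 1} ≤ Nat.card {g : G // (f g) ^ k = 1} :=
    Nat.card_le_card_of_injective
      (fun g : {g : G // g ^ k = 1} => (⟨g.1, by rw [← map_pow, g.2, map_one]⟩ :
        {g : G // (f g) ^ k = 1}))
      (fun a b hab => Subtype.ext (congrArg (fun t => t.1) hab))
  have h3 : Nat.card {g : G // g ^ k = 1} * Nat.card Q ≤
      Nat.card {x : Q // x ^ k = 1} * Nat.card G := by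
    rw [← h1]
    exact Nat.mul_le_mul_right _ h2
  exact_mod_cast h3

end Pool.Agent.Lib.MP_bacaed_al
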