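import Pool.Agent.Lib.MP_bacaed_al.Defs

/-! A finite non-soluble group has a nonabelian simple factor. -/

namespace Pool.Agent.Lib.MP_bacaed_al

section

variable {G : Type} [Group G]

/-- Minimal `M`-invariant subgroups of `M`: a conjugate equals `S` or commutes with it. -/
theorem min_conj [Finite G] (M S : Subgroup G) (hM : M.Normal) (hSM : S ≤ M)
    (hS : ∀ m ∈ M, ∀ s ∈ S, m * s * m⁻¹ ∈ S)
    (hmin : ∀ U : Subgroup G, U ≤ S → (∀ m ∈ M, ∀ s ∈ U, m * s * m⁻¹ ∈ U) → U = ⊥ ∨ U = S)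
    (g : G) :
    (∀ x ∈ S, g * x * g⁻¹ ∈ S) ∨ (∀ x ∈ S, ∀ y ∈ S, Commute x (g * y * g⁻¹)) := by
  have hconj : ∀ (h : G), ∀ x ∈ M, h⁻¹ * x * h ∈ M := by
    intro h x hx
    have := hM.conj_mem x hx h⁻¹
    simpa using this
  let U : Subgroup G :=
    { carrier := {u : G | u ∈ S ∧ g⁻¹ * u * g ∈ S}
      one_mem' := by simp [S.one_mem]
      mul_mem' := by
        intro a b ha hb
        refine ⟨S.mul_mem ha.1 hb.1, ?_⟩
        have : g⁻¹ * (a * b) * g = (g⁻¹ * a * g) * (g⁻¹ * b * g) := by group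
        rw [this]
        exact S.mul_mem ha.2 hb.2
      inv_mem' := by
        intro a ha
        refine ⟨S.inv_mem ha.1, ?_⟩
        have : g⁻¹ * a⁻¹ * g = (g⁻¹ * a * g)⁻¹ := by group
        rw [this]
        exact S.inv_mem ha.2 }
  have hUS : U ≤ S := fun u hu => hu.1
  have hU : ∀ m ∈ M, ∀ s ∈ U, m * s * m⁻¹ ∈ U := by
    intro m hm s hs
    refine ⟨hS m hm s hs.1, ?_⟩
    have : g⁻¹ * (m * s * m⁻¹) * g = (g⁻¹ * m * g) * (g⁻¹ * s * g) * (g⁻¹ * m * g)⁻¹ := by group
    rw [this]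
    exact hS _ (hconj g m hm) _ hs.2
  rcases hmin U hUS hU with h | h
  · right
    intro x hx y hy
    have hw : g * y * g⁻¹ ∈ M := hM.conj_mem y (hSM hy) g
    have hc : x * ((g * y * g⁻¹) * x⁻¹ * (g * y * g⁻¹)⁻¹) ∈ U := by
      refine ⟨S.mul_mem hx (hS _ hw _ (S.inv_mem hx)), ?_⟩
      have h2 : g⁻¹ * (x * ((g * y * g⁻¹) * x⁻¹ * (g * y * g⁻¹)⁻¹)) * g =
          ((g⁻¹ * x * g) * y * (g⁻¹ * x * g)⁻¹) * y⁻¹ := by group
      rw [h2]
      exact S.mul_mem (hS _ (hconj g x (hSM hx)) _ hy) (S.inv_mem hy)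
    rw [h, Subgroup.mem_bot] at hc
    change x * (g * y * g⁻¹) = (g * y * g⁻¹) * x
    have h4 : x * (g * y * g⁻¹) * x⁻¹ * (g * y * g⁻¹)⁻¹ = 1 := by
      rw [← hc]; group
    calc x * (g * y * g⁻¹) =
        (x * (g * y * g⁻¹) * x⁻¹ * (g * y * g⁻¹)⁻¹) * ((g * y * g⁻¹) * x) := by group
      _ = (g * y * g⁻¹) * x := by rw [h4, one_mul]
  · left
    have hmem : ∀ u : S, g⁻¹ * (u : G) * g ∈ S := by
      intro u
      have : (u : G) ∈ U := by rw [h]; exact u.2
      exact this.2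
    let f : S → S := fun u => ⟨g⁻¹ * (u : G) * g, hmem u⟩
    have hf : Function.Injective f := by
      intro a b hab
      have h5 : g⁻¹ * (a : G) * g = g⁻¹ * (b : G) * g := congrArg Subtype.val hab
      apply Subtype.ext
      exact mul_left_cancel (mul_right_cancel h5)
    have hf' := Finite.surjective_of_injective hf
    intro x hx
    obtain ⟨u, hu⟩ := hf' ⟨x, hx⟩
    have h6 : g⁻¹ * (u : G) * g = x := congrArg Subtype.val hu
    have h7 : g * x * g⁻¹ = u := by rw [← h6]; group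
    rw [h7]; exact u.2

/-- The inductive step: a minimal normal subgroup which is not soluble. -/
theorem simple_in_minimal [Finite G] (M : Subgroup G) (hM : M.Normal)
    (hminM : ∀ N : Subgroup G, N.Normal → N ≤ M → N = ⊥ ∨ N = M) (hns : ¬ Group.IsSolvable M) :
    ∃ S : Subgroup G, S ≤ M ∧ (∀ m ∈ M, ∀ s ∈ S, m * s * m⁻¹ ∈ S) ∧ IsSimpleGroup S ∧
      ¬ ∀ a b : S, a * b = b * a := by
  have hMbot : M ≠ ⊥ := by
    rintro rfl
    exact hns inferInstance
  obtain ⟨S, hSP, hSmin⟩ := exists_minimal_of_wellFoundedLT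
    (fun S : Subgroup G => S ≤ M ∧ S ≠ ⊥ ∧ ∀ m ∈ M, ∀ s ∈ S, m * s * m⁻¹ ∈ S)
    ⟨M, le_rfl, hMbot, fun m hm s hs => M.mul_mem (M.mul_mem hm hs) (M.inv_mem hm)⟩
  obtain ⟨hSM, hSbot, hS⟩ := hSP
  have hmin : ∀ U : Subgroup G, U ≤ S → (∀ m ∈ M, ∀ s ∈ U, m * s * m⁻¹ ∈ U) →
      U = ⊥ ∨ U = S := by
    intro U hUS hU
    by_cases h : U = ⊥
    · left; exact h
    · right
      exact le_antisymm hUS (hSmin ⟨hUS.trans hSM, h, hU⟩ hUS)
  have hdich := min_conj M S hM hSM hS hmin
  -- `M` is generated by the conjugates of `S`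
  have hK : Subgroup.normalClosure (S : Set G) = M := by
    rcases hminM (Subgroup.normalClosure (S : Set G)) Subgroup.normalClosure_normal
      (Subgroup.normalClosure_le_normal (fun x hx => hSM hx)) with h | h
    · exfalso
      apply hSbot
      rw [eq_bot_iff]
      intro x hx
      rw [← h]
      exact Subgroup.subset_normalClosure hx
    · exact h
  have hgen : Subgroup.closure {w : G | ∃ g : G, ∃ s ∈ S, w = g * s * g⁻¹} = M := by
    rw [← hK, Subgroup.normalClosure]
    congr 1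
    ext w
    rw [Group.mem_conjugatesOfSet_iff]
    constructor
    · rintro ⟨g, s, hs, rfl⟩
      exact ⟨s, hs, isConj_iff.2 ⟨g, rfl⟩⟩
    · rintro ⟨s, hs, hc⟩
      obtain ⟨g, hg⟩ := isConj_iff.1 hc
      exact ⟨g, s, hs, hg.symm⟩
  have hnc : ¬ ∀ a b : S, a * b = b * a := by
    intro hab
    apply hns
    have hcomm : ∀ x ∈ {w : G | ∃ g : G, ∃ s ∈ S, w = g * s * g⁻¹},
        ∀ y ∈ {w : G | ∃ g : G, ∃ s ∈ S, w = g * s * g⁻¹}, x * y = y * x := by
      rintro x ⟨g, s, hs, rfl⟩ y ⟨h, t, ht, rfl⟩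
      have key : Commute s ((g⁻¹ * h) * t * (g⁻¹ * h)⁻¹) := by
        rcases hdich (g⁻¹ * h) with h1 | h1
        · have := hab ⟨s, hs⟩ ⟨_, h1 t ht⟩
          exact congrArg Subtype.val this
        · exact h1 s hs t ht
      have key' : s * ((g⁻¹ * h) * t * (g⁻¹ * h)⁻¹) = ((g⁻¹ * h) * t * (g⁻¹ * h)⁻¹) * s := key
      calc g * s * g⁻¹ * (h * t * h⁻¹) = g * (s * ((g⁻¹ * h) * t * (g⁻¹ * h)⁻¹)) * g⁻¹ := by group
        _ = g * (((g⁻¹ * h) * t * (g⁻¹ * h)⁻¹) * s) * g⁻¹ := by rw [key']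
        _ = h * t * h⁻¹ * (g * s * g⁻¹) := by group
    apply Group.isSolvable_of_comm
    intro a b
    have ha : (a : G) ∈ Subgroup.closure {w : G | ∃ g : G, ∃ s ∈ S, w = g * s * g⁻¹} := by
      rw [hgen]; exact a.2
    have hb : (b : G) ∈ Subgroup.closure {w : G | ∃ g : G, ∃ s ∈ S, w = g * s * g⁻¹} := by
      rw [hgen]; exact b.2
    apply Subtype.ext
    change (a : G) * (b : G) = (b : G) * (a : G)
    refine Subgroup.closure_induction₂
      (p := fun x y _ _ => x * y = y * x) (fun x y hx hy => hcomm x hx y hy) ?_ ?_ ?_ ?_ ?_ ?_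
      ha hb
    · intro x _; simp
    · intro x _; simp
    · intro x y z _ _ _ h1 h2
      exact (Commute.mul_left (show Commute x z from h1) (show Commute y z from h2))
    · intro y z x _ _ _ h1 h2
      exact (Commute.mul_right (show Commute x y from h1) (show Commute x z from h2))
    · intro x y _ _ h1
      exact (Commute.inv_left (show Commute x y from h1))
    · intro x y _ _ h1
      exact (Commute.inv_right (show Commute x y from h1))
  refine ⟨S, hSM, hS, ?_, hnc⟩
  haveI : Nontrivial S := (Subgroup.nontrivial_iff_ne_bot S).2 hSbot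
  refine { eq_bot_or_eq_top_of_normal := ?_ }
  intro N hN
  have hUS : N.map S.subtype ≤ S := by
    rintro _ ⟨n, _, rfl⟩
    exact n.2
  have hNS : ∀ s ∈ S, ∀ u ∈ N.map S.subtype, s * u * s⁻¹ ∈ N.map S.subtype := by
    rintro s hs _ ⟨n, hn, rfl⟩
    exact ⟨⟨s, hs⟩ * n * ⟨s, hs⟩⁻¹, hN.conj_mem n hn _, rfl⟩
  have hNM : ∀ m ∈ M, ∀ u ∈ N.map S.subtype, m * u * m⁻¹ ∈ N.map S.subtype := by
    have hboth : ∀ m ∈ Subgroup.closure {w : G | ∃ g : G, ∃ s ∈ S, w = g * s * g⁻¹},
        (∀ u ∈ N.map S.subtype, m * u * m⁻¹ ∈ N.map S.subtype) ∧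
        (∀ u ∈ N.map S.subtype, m⁻¹ * u * m ∈ N.map S.subtype) := by
      intro m hm
      induction hm using Subgroup.closure_induction with
      | mem x hx =>
        obtain ⟨g, s, hs, rfl⟩ := hx
        rcases hdich g with h | h
        · have h1 := h s hs
          refine ⟨fun u hu => hNS _ h1 u hu, fun u hu => ?_⟩
          have := hNS _ (S.inv_mem h1) u hu
          rwa [inv_inv] at this
        · refine ⟨fun u hu => ?_, fun u hu => ?_⟩
          · have h1 : u * (g * s * g⁻¹) = (g * s * g⁻¹) * u := h u (hUS hu) s hs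
            rw [← h1, mul_inv_cancel_right]
            exact hu
          · have h1 : u * (g * s * g⁻¹) = (g * s * g⁻¹) * u := h u (hUS hu) s hs
            rw [mul_assoc, h1, inv_mul_cancel_left]
            exact hu
      | one => simp
      | mul x y _ _ hx hy =>
        refine ⟨fun u hu => ?_, fun u hu => ?_⟩
        · have := hx.1 _ (hy.1 u hu)
          have h2 : x * y * u * (x * y)⁻¹ = x * (y * u * y⁻¹) * x⁻¹ := by group
          rw [h2]; exact this
        · have := hy.2 _ (hx.2 u hu)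
          have h2 : (x * y)⁻¹ * u * (x * y) = y⁻¹ * (x⁻¹ * u * x) * y := by group
          rw [h2]; exact this
      | inv x _ hx =>
        refine ⟨fun u hu => ?_, fun u hu => ?_⟩
        · have := hx.2 u hu
          rwa [inv_inv]
        · have := hx.1 u hu
          rwa [inv_inv]
    intro m hm
    rw [← hgen] at hm
    exact (hboth m hm).1
  rcases hmin _ hUS hNM with h | h
  · left
    exact (Subgroup.map_eq_bot_iff_of_injective N S.subtype_injective).1 h
  · right
    rw [Subgroup.eq_top_iff']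
    intro x
    have : (x : G) ∈ N.map S.subtype := by rw [h]; exact x.2
    obtain ⟨n, hn, hnx⟩ := this
    have : n = x := Subtype.ext hnx
    rw [← this]; exact hn

end

theorem HasFactor.comp {T G Q : Type} [Group T] [Group G] [Group Q] (f : G →* Q)
    (hf : Function.Surjective f) (h : HasFactor T Q) : HasFactor T G := by
  obtain ⟨Q', _, f', M, S, h1, h2, h3, h4, h5⟩ := h
  exact ⟨Q', inferInstance, f'.comp f, M, S, h1.comp hf, h2, h3, h4, h5⟩

theorem exists_factor (n : ℕ) : ∀ (G : Type) [Group G] [Finite G], Nat.card G = n →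
    ¬ Group.IsSolvable G → ∃ (T : Type) (_ : Group T), Finite T ∧ IsSimpleGroup T ∧
      (¬ ∀ a b : T, a * b = b * a) ∧ HasFactor T G := by
  induction n using Nat.strong_induction_on with
  | _ n ih =>
    intro G _ _ hn hG
    have hnt : (⊤ : Subgroup G) ≠ ⊥ := fun h => hG (Group.isSolvable_of_top_eq_bot G h)
    obtain ⟨M, hMP, hMmin⟩ := exists_minimal_of_wellFoundedLT
      (fun M : Subgroup G => M.Normal ∧ M ≠ ⊥) ⟨⊤, inferInstance, hnt⟩
    obtain ⟨hM, hMbot⟩ := hMP
    by_cases hq : Group.IsSolvable (G ⧸ M)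
    · have hns : ¬ Group.IsSolvable M := by
        intro h
        exact hG ((Group.isSolvable_iff_subgroup_quotient M).2 ⟨h, hq⟩)
      have hminM : ∀ N : Subgroup G, N.Normal → N ≤ M → N = ⊥ ∨ N = M := by
        intro N hN hNM
        by_cases h : N = ⊥
        · left; exact h
        · right; exact le_antisymm hNM (hMmin ⟨hN, h⟩ hNM)
      obtain ⟨S, hSM, hS, hsim, hnc⟩ := simple_in_minimal M hM hminM hns
      exact ⟨S, inferInstance, inferInstance, hsim, hnc, G, inferInstance, MonoidHom.id G, M, S,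
        Function.surjective_id, hM, hSM, hS, ⟨MulEquiv.refl _⟩⟩
    · have hlt : Nat.card (G ⧸ M) < n := by
        rw [← hn, Subgroup.card_eq_card_quotient_mul_card_subgroup M]
        have h1 : 0 < Nat.card (G ⧸ M) := Nat.card_pos
        have h2 : 1 < Nat.card M := by
          rw [Subgroup.one_lt_card_iff_ne_bot]; exact hMbot
        exact lt_mul_of_one_lt_right h1 h2
      obtain ⟨T, hT, h1, h2, h3, h4⟩ := ih _ hlt (G ⧸ M) rfl hq
      exact ⟨T, hT, h1, h2, h3, HasFactor.comp (QuotientGroup.mk' M)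
        (QuotientGroup.mk'_surjective M) h4⟩

end Pool.Agent.Lib.MP_bacaed_al
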