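import Pool.Agent.Lib.MP_bacaed_al.ManyD

/-! A fixed factor `T`: the supremum over the groups with the factor `T`. -/

namespace Pool.Agent.Lib.MP_bacaed_al

/-- The proportions of the finite groups with the factor `T`. -/
def vals (k : ℕ) (T : Type) [Group T] : Set ℝ :=
  {x : ℝ | ∃ (G : Type) (_ : Group G), Finite G ∧ HasFactor T G ∧ rho k G = x}

theorem bdd_vals (k : ℕ) (T : Type) [Group T] : BddAbove (vals k T) := by
  refine ⟨1, ?_⟩
  rintro y ⟨G, _, hfin, -, rfl⟩
  exact rho_le_one k G

theorem le_vals {k : ℕ} {T : Type} [Group T] {G : Type} [Group G] [Finite G]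
    (h : HasFactor T G) : rho k G ≤ sSup (vals k T) :=
  le_csSup (bdd_vals k T) ⟨G, inferInstance, inferInstance, h, rfl⟩

/-- A homomorphism which is injective on the simple subnormal subgroup. -/
theorem hasFactor_map {T Q Q' : Type} [Group T] [Group Q] [Group Q'] (M S : Subgroup Q)
    (hM : M.Normal) (hSM : S ≤ M) (hS : ∀ m ∈ M, ∀ s ∈ S, m * s * m⁻¹ ∈ S) (e : S ≃* T)
    (f : Q →* Q') (hf : Function.Surjective f) (hinj : Function.Injective (f.comp S.subtype)) :
    HasFactor T Q' := by
  refine ⟨Q', inferInstance, MonoidHom.id Q', M.map f, S.map f, Function.surjective_id,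
    hM.map f hf, Subgroup.map_mono hSM, ?_, ⟨?_⟩⟩
  · rintro _ ⟨m, hm, rfl⟩ _ ⟨s, hs, rfl⟩
    exact ⟨m * s * m⁻¹, hS m hm s hs, by simp⟩
  · have e1 : (f.comp S.subtype).range = S.map f := by
      rw [MonoidHom.range_comp, Subgroup.range_subtype]
    exact ((MulEquiv.subgroupCongr e1).symm.trans (MonoidHom.ofInjective hinj).symm).trans e

theorem few_conj_factor {T Q : Type} [Group T] [Group Q] [Finite Q] (M S : Subgroup Q)
    (hM : M.Normal) (hSM : S ≤ M) (hS : ∀ m ∈ M, ∀ s ∈ S, m * s * m⁻¹ ∈ S) (e : S ≃* T)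
    [IsSimpleGroup S] (hT : ¬ ∀ a b : S, a * b = b * a) :
    ∃ (Q' : Type) (_ : Group Q') (f : Q →* Q'), Function.Surjective f ∧ Finite Q' ∧
      HasFactor T Q' ∧
      Nat.card Q' ≤ ((Subgroup.normalizer (S : Set Q)).index * Nat.card S ^ Nat.card S).factorial := by
  classical
  let H := Subgroup.centralizer (S : Set Q)
  let Φ : Q →* Equiv.Perm (Q ⧸ H) := MulAction.toPermHom Q (Q ⧸ H)
  have hinj : Function.Injective (Φ.rangeRestrict.comp S.subtype) := by
    rw [injective_iff_map_eq_one]
    intro s hs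
    have h1 : (s : Q) ∈ Φ.ker := by
      rw [MonoidHom.mem_ker]
      exact congrArg Subtype.val hs
    have h2 : (s : Q) ∈ H := by
      rw [← Subgroup.normalCore_eq_ker H] at h1
      exact Subgroup.normalCore_le H h1
    have h3 : s ∈ Subgroup.center S := by
      rw [Subgroup.mem_center_iff]
      intro x
      apply Subtype.ext
      exact Subgroup.mem_centralizer_iff.1 h2 x x.2
    rw [center_bot hT, Subgroup.mem_bot] at h3
    exact h3
  refine ⟨Φ.range, inferInstance, Φ.rangeRestrict, Φ.rangeRestrict_surjective, inferInstance,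
    hasFactor_map M S hM hSM hS e _ Φ.rangeRestrict_surjective hinj, ?_⟩
  have h1 : Nat.card Φ.range ≤ Nat.card (Equiv.Perm (Q ⧸ H)) :=
    Nat.card_le_card_of_injective _ Subtype.val_injective
  rw [Nat.card_perm] at h1
  exact h1.trans (Nat.factorial_le (card_quot_centralizer S))

/-- The factor `T` of `G` is a factor of a subgroup which contains all squares. -/
theorem hasFactor_ker {T G : Type} [Group T] [IsSimpleGroup T] [Group G]
    (hT : ¬ ∀ a b : T, a * b = b * a) (h : HasFactor T G) (K : Subgroup G) (hK : K.Normal)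
    (hsq : ∀ g : G, g * g ∈ K) : HasFactor T K := by
  obtain ⟨Q, _, f, M, S, hf, hM, hSM, hS, ⟨e⟩⟩ := h
  haveI : IsSimpleGroup S := e.isSimpleGroup
  let R : Subgroup Q := K.map f
  have hR : R.Normal := hK.map f hf
  have hSR : S ≤ R := by
    let U : Subgroup S := R.comap S.subtype
    have hU : U.Normal := hR.comap S.subtype
    rcases hU.eq_bot_or_eq_top with h1 | h1
    · exfalso
      apply hT
      have h2 : ∀ s : S, s * s = 1 := by
        intro s
        obtain ⟨g, hg⟩ := hf (s : Q)
        have h3 : s * s ∈ U := by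
          change ((s * s : S) : Q) ∈ R
          rw [Subgroup.coe_mul, ← hg, ← map_mul]
          exact Subgroup.mem_map_of_mem f (hsq g)
        rw [h1, Subgroup.mem_bot] at h3
        exact h3
      intro a b
      have h4 : ∀ x y : S, x * y = y * x := by
        intro x y
        have hx := eq_inv_of_mul_eq_one_left (h2 x)
        have hy := eq_inv_of_mul_eq_one_left (h2 y)
        have hxy := eq_inv_of_mul_eq_one_left (h2 (x * y))
        rw [hxy, mul_inv_rev, ← hx, ← hy]
      have h5 := h4 (e.symm a) (e.symm b)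
      rw [← map_mul, ← map_mul] at h5
      exact e.symm.injective h5
    · intro s hs
      have h2 : (⟨s, hs⟩ : S) ∈ U := by rw [h1]; exact Subgroup.mem_top _
      exact h2
  refine ⟨R, inferInstance, f.subgroupMap K, M.subgroupOf R, S.subgroupOf R,
    f.subgroupMap_surjective K, hM.subgroupOf R, ?_, ?_, ⟨?_⟩⟩
  · intro x hx
    exact hSM hx
  · intro m hm s hs
    exact hS _ hm _ hs
  · exact (Subgroup.subgroupOfEquivOfLe hSR).trans e

/-- If the supremum is `1/2`, `k` odd, it is not attained. -/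
theorem vals_not_attained {k : ℕ} (hk : Odd k) {T : Type} [Group T] [IsSimpleGroup T]
    (hT : ¬ ∀ a b : T, a * b = b * a) (h : sSup (vals k T) = 1 / 2) (G : Type) [Group G] [Finite G]
    (hG : HasFactor T G) : rho k G < 1 / 2 := by
  refine lt_of_le_of_ne (h ▸ le_vals hG) ?_
  intro heq
  have hGpos : (0 : ℝ) < Nat.card G := by exact_mod_cast Nat.card_pos
  rw [rho_eq, div_eq_iff hGpos.ne'] at heq
  have h1 : Nat.card G = 2 * Nat.card {t : G // t ^ k = 1} := by
    have : (Nat.card G : ℝ) = 2 * (Nat.card {t : G // t ^ k = 1} : ℝ) := by linarith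
    exact_mod_cast this
  obtain ⟨φ, hφ⟩ := exists_sign (odd_card (G := G) hk) h1
  have hall : ∀ x ∈ φ.ker, x ^ k = 1 := by
    let j : {t : G // t ^ k = 1} → φ.ker := fun t => ⟨t.1, sign_of_pow φ hk t.2⟩
    have hj : Function.Injective j := by
      intro a b hab
      exact Subtype.ext (congrArg (fun t : φ.ker => (t : G)) hab)
    haveI : Fintype {t : G // t ^ k = 1} := Fintype.ofFinite _
    haveI : Fintype φ.ker := Fintype.ofFinite _
    have hbij : Function.Bijective j := by
      rw [Fintype.bijective_iff_injective_and_card]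
      refine ⟨hj, ?_⟩
      rw [← Nat.card_eq_fintype_card, ← Nat.card_eq_fintype_card, hφ]
    intro x hx
    obtain ⟨t, ht⟩ := hbij.2 ⟨x, hx⟩
    have : t.1 = x := congrArg (fun t : φ.ker => (t : G)) ht
    rw [← this]
    exact t.2
  have hF : HasFactor T φ.ker := by
    refine hasFactor_ker hT hG φ.ker inferInstance (fun g => ?_)
    rw [MonoidHom.mem_ker, map_mul, ← sq, Int.units_sq]
  have hone : rho k φ.ker = 1 := by
    have h2 : (0 : ℝ) < Nat.card φ.ker := by exact_mod_cast Nat.card_pos
    rw [rho_eq, div_eq_one_iff_eq h2.ne']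
    congr 1
    refine Nat.card_congr (Equiv.subtypeUnivEquiv (fun x => ?_))
    apply Subtype.ext
    exact hall x.1 x.2
  have h3 := le_vals (k := k) hF
  rw [hone, h] at h3
  norm_num at h3

/-- If no coset is full, all the proportions below `1/2` stay away from `1/2`. -/
theorem gap_fixed {k : ℕ} (hk0 : 0 < k) (T : Type) [Group T] [IsSimpleGroup T] [Finite T]
    (hT : ¬ ∀ a b : T, a * b = b * a) (hfull : ∀ ζ : MulAut T, cnt k T ζ < Nat.card T)
    (h : ∀ (G : Type) [Group G] [Finite G], HasFactor T G → rho k G < 1 / 2) :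
    ∃ η : ℝ, 0 < η ∧ ∀ (G : Type) [Group G] [Finite G], HasFactor T G → rho k G ≤ 1 / 2 - η := by
  set n := Nat.card T with hn
  have hTpos : 0 < n := Nat.card_pos
  have hn1 : (1 : ℝ) ≤ n := by exact_mod_cast hTpos
  have hc0 : (0 : ℝ) ≤ 1 - 1 / n := by
    rw [sub_nonneg, div_le_one (by linarith)]
    exact hn1
  have hc1 : (1 : ℝ) - 1 / n < 1 := by
    have : (0 : ℝ) < 1 / n := by positivity
    linarith
  obtain ⟨r, hr⟩ := exists_pow_lt_of_lt_one (show (0 : ℝ) < 1 / 4 by norm_num) hc1
  set B : ℕ := (k * r * n ^ n).factorial with hB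
  have hBpos : (0 : ℝ) < B := by exact_mod_cast Nat.factorial_pos _
  refine ⟨min (1 / 4) (1 / (2 * (B : ℝ))), lt_min (by norm_num) (by positivity), ?_⟩
  intro G _ _ hF
  obtain ⟨Q, _, f, M, S, hf, hM, hSM, hS, ⟨e⟩⟩ := hF
  haveI : Finite Q := Finite.of_surjective f hf
  haveI : IsSimpleGroup S := e.isSimpleGroup
  have hST : ¬ ∀ a b : S, a * b = b * a := by
    intro hab
    apply hT
    intro a b
    have := hab (e.symm a) (e.symm b)
    rw [← map_mul, ← map_mul] at this
    exact e.symm.injective this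
  have hcS : Nat.card S = n := Nat.card_congr e.toEquiv
  have hSpos : 0 < Nat.card S := Nat.card_pos
  refine (rho_le_quot f hf k).trans ?_
  by_cases hind : k * r ≤ (Subgroup.normalizer (S : Set Q)).index
  · have hC : ∀ ζ : MulAut S, cnt k S ζ ≤ Nat.card S - 1 := by
      intro ζ
      have h1 := hfull (MulAut.congr e ζ)
      rw [cnt_congr, ← hcS] at h1
      omega
    have h1 := many_conj M S hM hSM hS k (Nat.card S - 1) hk0 hC r hind
    have h2 : (Nat.card {g : Q // g ^ k = 1} : ℝ) * (Nat.card S : ℝ) ^ r ≤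
        (Nat.card Q : ℝ) * ((Nat.card S : ℝ) - 1) ^ r := by
      have h3 : ((Nat.card S - 1 : ℕ) : ℝ) = (Nat.card S : ℝ) - 1 := by
        rw [Nat.cast_sub hSpos, Nat.cast_one]
      rw [← h3]
      exact_mod_cast h1
    have hQ : (0 : ℝ) < Nat.card Q := by exact_mod_cast Nat.card_pos
    have hS' : (0 : ℝ) < Nat.card S := by exact_mod_cast hSpos
    have h4 : rho k Q ≤ (((Nat.card S : ℝ) - 1) / (Nat.card S : ℝ)) ^ r := by
      rw [rho_eq, div_pow, div_le_div_iff₀ hQ (pow_pos hS' r), mul_comm (_ ^ r) (Nat.card Q : ℝ)]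
      exact h2
    have h5 : ((Nat.card S : ℝ) - 1) / (Nat.card S : ℝ) = 1 - 1 / n := by
      rw [sub_div, div_self hS'.ne', hcS]
    rw [h5] at h4
    have h8 : min (1 / 4 : ℝ) (1 / (2 * (B : ℝ))) ≤ 1 / 4 := min_le_left _ _
    linarith
  · push Not at hind
    obtain ⟨Q', _, f', hf', _, hF', hcard⟩ := few_conj_factor M S hM hSM hS e hST
    have h1 : Nat.card Q' ≤ B := by
      refine hcard.trans (Nat.factorial_le ?_)
      rw [hcS]
      exact Nat.mul_le_mul hind.le le_rfl
    have h2 := rho_le_of_card Q' (h Q' hF') h1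
    have h3 : min (1 / 4 : ℝ) (1 / (2 * (B : ℝ))) ≤ 1 / (2 * (B : ℝ)) := min_le_right _ _
    have h4 := rho_le_quot f' hf' k
    linarith

theorem phi_vals {T : Type} [Group T] [Finite T] [IsSimpleGroup T]
    (hT : ¬ ∀ a b : T, a * b = b * a) {k : ℕ} (hk : 1 < k) (ζ : MulAut T) (h0 : 0 < cnt k T ζ) :
    (Nat.totient k : ℝ) * (cnt k T ζ : ℝ) + 1 ≤
      sSup (vals k T) * ((k : ℝ) * (Nat.card T : ℝ)) := by
  obtain ⟨G, _, i, _, hi, hn, h⟩ := phi_group hT hk ζ h0
  have hF : HasFactor T G := by
    refine ⟨G, inferInstance, MonoidHom.id G, i.range, i.range, Function.surjective_id, hn, le_rfl,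
      ?_, ⟨(MonoidHom.ofInjective hi).symm⟩⟩
    intro m hm s hs
    exact hn.conj_mem s hs m
  refine h.trans (mul_le_mul_of_nonneg_right (le_vals hF) ?_)
  positivity

/-- For odd `k` with `2 φ(k) > k` the supremum over the groups with the factor `T` is not `1/2`. -/
theorem vals_ne_half {T : Type} [Group T] [Finite T] [IsSimpleGroup T]
    (hT : ¬ ∀ a b : T, a * b = b * a) {k : ℕ} (hk : Odd k) (hphi : k < 2 * Nat.totient k) :
    sSup (vals k T) ≠ 1 / 2 := by
  intro h
  have hTpos : 0 < Nat.card T := Nat.card_pos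
  have hTpos' : (0 : ℝ) < Nat.card T := by exact_mod_cast hTpos
  have hself : HasFactor T T := ⟨T, inferInstance, MonoidHom.id T, ⊤, ⊤, Function.surjective_id,
    inferInstance, le_rfl, fun _ _ _ _ => Subgroup.mem_top _, ⟨Subgroup.topEquiv⟩⟩
  have hfull : ∀ ζ : MulAut T, cnt k T ζ < Nat.card T := by
    intro ζ
    by_contra hcon
    push Not at hcon
    rcases Nat.lt_or_ge 1 k with h1k | h1k
    · have h3 := phi_vals hT h1k ζ (lt_of_lt_of_le hTpos hcon)
      rw [h] at h3
      have h4 : (Nat.card T : ℝ) ≤ cnt k T ζ := by exact_mod_cast hcon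
      have h5 : (Nat.totient k : ℝ) * (Nat.card T : ℝ) ≤
          (Nat.totient k : ℝ) * (cnt k T ζ : ℝ) :=
        mul_le_mul_of_nonneg_left h4 (Nat.cast_nonneg _)
      have h6 : 2 * (Nat.totient k : ℝ) * (Nat.card T : ℝ) < (k : ℝ) * (Nat.card T : ℝ) := by
        linarith
      have h7 : 2 * (Nat.totient k : ℝ) < (k : ℝ) := lt_of_mul_lt_mul_right h6 hTpos'.le
      have h8 : 2 * Nat.totient k < k := by exact_mod_cast h7
      omega
    · have hk1 : k = 1 := by
        have := hk.pos
        omega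
      subst hk1
      have hle : Nat.card {t : T // (MulAut.conj t * ζ) ^ 1 = 1} = Nat.card T :=
        le_antisymm (Nat.card_le_card_of_injective _ Subtype.val_injective) hcon
      have hbij : Function.Bijective
          (Subtype.val : {t : T // (MulAut.conj t * ζ) ^ 1 = 1} → T) :=
        Function.Injective.bijective_of_nat_card_le Subtype.val_injective hle.ge
      have hall : ∀ t : T, (MulAut.conj t * ζ) ^ 1 = 1 := by
        intro t
        obtain ⟨s, hs⟩ := hbij.2 t
        rw [← hs]
        exact s.2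
      have h3 := hall 1
      rw [pow_one, map_one, one_mul] at h3
      have h5 : ∀ t : T, t = 1 := by
        intro t
        have h6 := hall t
        rw [pow_one, h3, mul_one] at h6
        exact conj_eq_one hT h6
      exact hT (fun a b => by rw [h5 a, h5 b])
  obtain ⟨η, hη, hgap⟩ := gap_fixed hk.pos T hT hfull
    (fun G _ _ hG => vals_not_attained hk hT h G hG)
  have hne : (vals k T).Nonempty := ⟨_, T, inferInstance, inferInstance, hself, rfl⟩
  have h2 : sSup (vals k T) ≤ 1 / 2 - η := by
    refine csSup_le hne ?_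
    rintro x ⟨G, _, hfin, hG, rfl⟩
    exact hgap G hG
  rw [h] at h2
  linarith

end Pool.Agent.Lib.MP_bacaed_al
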