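import Pool.Agent.Lib.MP_bacaed_al.CosetFour

/-! The case `k = 4`: two commuting conjugates. -/

namespace Pool.Agent.Lib.MP_bacaed_al

section red

variable {Q : Type*} [Group Q]

/-- Multiplying `z` by an element of `M` does not change whether it normalises `S`. -/
theorem norm_iff {M S : Subgroup Q} (hS : ∀ m ∈ M, ∀ s ∈ S, m * s * m⁻¹ ∈ S) {m z : Q}
    (hm : m ∈ M) (h : ∀ x ∈ S, (m * z) * x * (m * z)⁻¹ ∈ S) : ∀ x ∈ S, z * x * z⁻¹ ∈ S := by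
  intro x hx
  have h1 := hS _ (M.inv_mem hm) _ (h x hx)
  have h2 : m⁻¹ * (m * z * x * (m * z)⁻¹) * m⁻¹⁻¹ = z * x * z⁻¹ := by group
  rwa [h2] at h1

theorem single_le [Finite Q] (M S : Subgroup Q) (hM : M.Normal) (hSM : S ≤ M)
    (hS : ∀ m ∈ M, ∀ s ∈ S, m * s * m⁻¹ ∈ S) [IsSimpleGroup S] (A : ℕ)
    (hA : ∀ ζ : MulAut S, cnt 2 S ζ ≤ A) (z : Q) (hz : ¬ ∀ x ∈ S, z * x * z⁻¹ ∈ S) :
    Nat.card {s : S // ((s : Q) * z) ^ 4 = 1} ≤ A := by
  obtain ⟨θ, hθ⟩ := coset_four M S hM hSM hS z hz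
  refine le_trans ?_ (hA θ)
  exact Nat.card_le_card_of_injective
    (fun s : {s : S // ((s : Q) * z) ^ 4 = 1} =>
      (⟨s.1, hθ s.1 s.2⟩ : {t : S // (MulAut.conj t * θ) ^ 2 = 1}))
    (fun a b hab => Subtype.ext (congrArg (fun t => t.1) hab))

theorem card_four_nonnormal [Finite Q] (M S : Subgroup Q) (hM : M.Normal) (hSM : S ≤ M)
    (hS : ∀ m ∈ M, ∀ s ∈ S, m * s * m⁻¹ ∈ S) [IsSimpleGroup S] (g0 : Q)
    (hg0 : ¬ ∀ x ∈ S, g0 * x * g0⁻¹ ∈ S) (A B C : ℕ) (hA : ∀ ζ : MulAut S, cnt 2 S ζ ≤ A)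
    (hB : ∀ ζ : MulAut S, cnt 4 S ζ ≤ B) (h1 : Nat.card S * A ≤ C) (h2 : B * B ≤ C) :
    Nat.card {g : Q // g ^ 4 = 1} * (Nat.card S * Nat.card S) ≤ Nat.card Q * C := by
  let S2 : Subgroup Q := S.map (MulAut.conj g0).toMonoidHom
  have hmem : ∀ y : Q, y ∈ S2 ↔ ∃ s ∈ S, g0 * s * g0⁻¹ = y := fun y => Iff.rfl
  have e2 : S ≃* S2 := S.equivMapOfInjective (MulAut.conj g0).toMonoidHom (MulAut.conj g0).injective
  have hcomm : ∀ x ∈ S, ∀ y ∈ S2, Commute x y := by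
    intro x hx y hy
    obtain ⟨s, hs, rfl⟩ := (hmem y).1 hy
    rcases conj_or_commute M S hM hSM hS g0 with h | h
    · exact absurd h hg0
    · exact h x hx s hs
  have hS2M : S2 ≤ M := by
    intro y hy
    obtain ⟨s, hs, rfl⟩ := (hmem y).1 hy
    exact hM.conj_mem s (hSM hs) g0
  have hS2 : ∀ m ∈ M, ∀ s ∈ S2, m * s * m⁻¹ ∈ S2 := by
    intro m hm y hy
    obtain ⟨s, hs, rfl⟩ := (hmem y).1 hy
    have hm' : g0⁻¹ * m * g0 ∈ M := by
      have := hM.conj_mem m hm g0⁻¹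
      simpa using this
    refine (hmem _).2 ⟨_, hS _ hm' _ hs, ?_⟩
    group
  have hsimp : IsSimpleGroup S2 := e2.symm.isSimpleGroup
  have hA2 : ∀ ζ : MulAut S2, cnt 2 S2 ζ ≤ A := by
    intro ζ
    rw [← cnt_congr e2.symm]
    exact hA _
  have hB2 : ∀ ζ : MulAut S2, cnt 4 S2 ζ ≤ B := by
    intro ζ
    rw [← cnt_congr e2.symm]
    exact hB _
  have hc : Nat.card S2 = Nat.card S := (Nat.card_congr e2.toEquiv).symm
  have hprod : Nat.card S * Nat.card S = Nat.card (S × S2) := by rw [Nat.card_prod, hc]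
  rw [hprod]
  refine card_le_of_family (fun p : S × S2 => (p.1 : Q) * (p.2 : Q)) 4 C (fun z => ?_)
  by_cases hz : ∀ x ∈ S, z * x * z⁻¹ ∈ S
  · by_cases hz2 : ∀ x ∈ S2, z * x * z⁻¹ ∈ S2
    · obtain ⟨θ1, hθ1⟩ := norm_coset S z hz
      obtain ⟨θ2, hθ2⟩ := norm_coset S2 z hz2
      refine le_trans ?_ ((Nat.mul_le_mul (hB θ1) (hB2 θ2)).trans h2)
      rw [cnt, cnt, ← Nat.card_prod]
      refine Nat.card_le_card_of_injective
        (fun p : {p : S × S2 // ((p.1 : Q) * (p.2 : Q) * z) ^ 4 = 1} =>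
          ((⟨p.1.1, hθ1 4 p.1.1 p.1.2 (fun x hx => (hcomm x hx _ p.1.2.2).symm) p.2⟩ :
            {t : S // (MulAut.conj t * θ1) ^ 4 = 1}),
           (⟨p.1.2, hθ2 4 p.1.2 p.1.1 (fun y hy => hcomm _ p.1.1.2 y hy) (by
              rw [← (hcomm _ p.1.1.2 _ p.1.2.2).eq]; exact p.2)⟩ :
            {t : S2 // (MulAut.conj t * θ2) ^ 4 = 1}))) ?_
      intro a b hab
      have ha := congrArg (fun t => t.1.1) hab
      have hb := congrArg (fun t => t.2.1) hab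
      exact Subtype.ext (Prod.ext ha hb)
    · refine le_trans (card_pairs_le' (fun (a : S) (b : S2) => ((a : Q) * (b : Q) * z) ^ 4 = 1) A
        (fun a => ?_)) h1
      have hza : ¬ ∀ x ∈ S2, ((a : Q) * z) * x * ((a : Q) * z)⁻¹ ∈ S2 :=
        fun h => hz2 (norm_iff hS2 (hSM a.2) h)
      refine le_trans (le_of_eq ?_) (single_le M S2 hM hS2M hS2 A hA2 _ hza)
      refine Nat.card_congr (Equiv.subtypeEquivRight (fun b => ?_))
      rw [(hcomm _ a.2 _ b.2).eq, mul_assoc]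
  · rw [← hc] at h1
    refine le_trans (card_pairs_le (fun (a : S) (b : S2) => ((a : Q) * (b : Q) * z) ^ 4 = 1) A
      (fun b => ?_)) h1
    have hzb : ¬ ∀ x ∈ S, ((b : Q) * z) * x * ((b : Q) * z)⁻¹ ∈ S :=
      fun h => hz (norm_iff hS (hS2M b.2) h)
    refine le_trans (le_of_eq ?_) (single_le M S hM hSM hS A hA _ hzb)
    refine Nat.card_congr (Equiv.subtypeEquivRight (fun a => ?_))
    rw [mul_assoc]

end red

end Pool.Agent.Lib.MP_bacaed_al
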