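import Pool.Agent.Lib.MP_bacaed_al.AutN
import Pool.Agent.Lib.MP_bacaed_al.RedFour
import Pool.Agent.Lib.MP_bacaed_al.AltRho

/-! The case `k = 4` for the alternating groups of degree different from six. -/

namespace Pool.Agent.Lib.MP_bacaed_al

open Equiv Equiv.Perm

theorem five_counts : Nat.card {t : Perm (Fin 5) // t ^ 4 = 1 ∧ sign t = 1} ≤ 16 ∧
    Nat.card {t : Perm (Fin 5) // t ^ 4 = 1 ∧ sign t = -1} ≤ 40 := by
  classical
  set E := Finset.univ.filter (fun g : Perm (Fin 5) => g ^ 4 = 1) with hE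
  set E1 := Finset.univ.filter (fun g : Perm (Fin 5) => g ^ 4 = 1 ∧ sign g = 1) with hE1
  set E2 := Finset.univ.filter (fun g : Perm (Fin 5) => g ^ 4 = 1 ∧ sign g = -1) with hE2
  have hcE : E.card ≤ 56 := by
    have h := NN_four_small.1
    rwa [NN, Nat.card_eq_fintype_card, Fintype.card_subtype] at h
  have hdis : Disjoint E1 E2 := by
    rw [Finset.disjoint_left]
    intro g h1 h2
    rw [hE1, Finset.mem_filter] at h1
    rw [hE2, Finset.mem_filter] at h2
    rw [h1.2.2] at h2
    exact absurd h2.2.2 (by decide)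
  have hsum : E1.card + E2.card ≤ 56 := by
    rw [← Finset.card_union_of_disjoint hdis]
    refine le_trans (Finset.card_le_card ?_) hcE
    intro g hg
    rw [Finset.mem_union, hE1, hE2, Finset.mem_filter, Finset.mem_filter] at hg
    rw [hE, Finset.mem_filter]
    rcases hg with h | h
    · exact ⟨h.1, h.2.1⟩
    · exact ⟨h.1, h.2.1⟩
  let F : Multiset ℕ → Finset (Perm (Fin 5)) := fun m =>
    Finset.univ.filter (fun g : Perm (Fin 5) => g.cycleType = m)
  have hF : ∀ m g, g ∈ F m ↔ g.cycleType = m := by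
    intro m g; simp [F]
  have hcF : ∀ m c, (if m.sum ≤ 5 ∧ ∀ a ∈ m, 2 ≤ a then (Nat.factorial 5) /
      ((Nat.factorial (5 - m.sum)) * m.prod * (∏ n ∈ m.toFinset, Nat.factorial (m.count n)))
      else 0) = c → (F m).card = c := by
    intro m c h
    change (Finset.univ.filter (fun g : Perm (Fin 5) => g.cycleType = m)).card = c
    rw [card_of_cycleType, Fintype.card_fin]
    exact h
  have c0 : (F 0).card = 1 := hcF 0 1 (by decide)
  have c22 : (F {2, 2}).card = 15 := hcF {2, 2} 15 (by decide)
  have c2 : (F {2}).card = 10 := hcF {2} 10 (by decide)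
  have c4 : (F {4}).card = 30 := hcF {4} 30 (by decide)
  have hd : ∀ m m' : Multiset ℕ, m ≠ m' → Disjoint (F m) (F m') := by
    intro m m' hmm
    rw [Finset.disjoint_left]
    intro g h1 h2
    rw [hF] at h1 h2
    exact hmm (h1.symm.trans h2)
  have l1 : 16 ≤ E1.card := by
    have h : (F 0 ∪ F {2, 2}).card = 16 := by
      rw [Finset.card_union_of_disjoint (hd _ _ (by decide)), c0, c22]
    rw [← h]
    refine Finset.card_le_card ?_
    intro g hg
    rw [Finset.mem_union, hF, hF] at hg
    rw [hE1, Finset.mem_filter, ← orderOf_dvd_iff_pow_eq_one, ← lcm_cycleType, sign_of_cycleType]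
    rcases hg with h | h <;> rw [h] <;> exact ⟨Finset.mem_univ _, by decide, by decide⟩
  have l2 : 40 ≤ E2.card := by
    have h : (F {2} ∪ F {4}).card = 40 := by
      rw [Finset.card_union_of_disjoint (hd _ _ (by decide)), c2, c4]
    rw [← h]
    refine Finset.card_le_card ?_
    intro g hg
    rw [Finset.mem_union, hF, hF] at hg
    rw [hE2, Finset.mem_filter, ← orderOf_dvd_iff_pow_eq_one, ← lcm_cycleType, sign_of_cycleType]
    rcases hg with h | h <;> rw [h] <;> exact ⟨Finset.mem_univ _, by decide, by decide⟩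
  constructor
  · rw [Nat.card_eq_fintype_card, Fintype.card_subtype]
    change E1.card ≤ 16
    omega
  · rw [Nat.card_eq_fintype_card, Fintype.card_subtype]
    change E2.card ≤ 40
    omega

theorem cnt_four_le {n : ℕ} (h5 : 5 ≤ n) (h6 : n ≠ 6) : ∃ B : ℕ,
    (∀ ζ : MulAut (alternatingGroup (Fin n)), cnt 4 (alternatingGroup (Fin n)) ζ ≤ B) ∧
    3 * B ≤ 2 * Nat.card (alternatingGroup (Fin n)) := by
  by_cases hn : n = 5
  · subst hn
    refine ⟨40, fun ζ => ?_, ?_⟩
    · obtain ⟨σ, hσ⟩ := cnt_eq (α := Fin 5) (by simp) (by simp) ζ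
      rw [hσ]
      have hs : ∀ t : alternatingGroup (Fin 5), sign ((t : Perm (Fin 5)) * σ) = sign σ := by
        intro t
        rw [map_mul, mem_alternatingGroup.1 t.2, one_mul]
      rcases Int.units_eq_one_or (sign σ) with h | h
      · refine le_trans ?_ (five_counts.1.trans (by norm_num))
        refine Nat.card_le_card_of_injective
          (fun t : {t : alternatingGroup (Fin 5) // ((t : Perm (Fin 5)) * σ) ^ 4 = 1} =>
            (⟨(t.1 : Perm (Fin 5)) * σ, t.2, (hs t.1).trans h⟩ :
              {g : Perm (Fin 5) // g ^ 4 = 1 ∧ sign g = 1})) ?_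
        intro a b hab
        apply Subtype.ext
        apply Subtype.ext
        exact mul_right_cancel (congrArg Subtype.val hab)
      · refine le_trans ?_ five_counts.2
        refine Nat.card_le_card_of_injective
          (fun t : {t : alternatingGroup (Fin 5) // ((t : Perm (Fin 5)) * σ) ^ 4 = 1} =>
            (⟨(t.1 : Perm (Fin 5)) * σ, t.2, (hs t.1).trans h⟩ :
              {g : Perm (Fin 5) // g ^ 4 = 1 ∧ sign g = -1})) ?_
        intro a b hab
        apply Subtype.ext
        apply Subtype.ext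
        exact mul_right_cancel (congrArg Subtype.val hab)
    · rw [two_mul_card_alt (by norm_num)]
      decide
  · refine ⟨NN 4 n, fun ζ => cnt_le_NN h5 h6 4 ζ, ?_⟩
    have h1 := NN_four n (by omega)
    rw [← two_mul_card_alt h5] at h1
    omega

theorem rho_four_alt {n : ℕ} (h5 : 5 ≤ n) (h6 : n ≠ 6) :
    rho 4 (alternatingGroup (Fin n)) ≤ 7 / 15 := by
  by_cases hn : n = 5
  · subst hn
    have hpos : (0 : ℝ) < Nat.card (alternatingGroup (Fin 5)) := by exact_mod_cast Nat.card_pos
    rw [rho_eq, div_le_div_iff₀ hpos (by norm_num)]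
    have h1 : Nat.card {g : alternatingGroup (Fin 5) // g ^ 4 = 1} ≤ 16 := by
      refine le_trans ?_ five_counts.1
      refine Nat.card_le_card_of_injective
        (fun t : {t : alternatingGroup (Fin 5) // t ^ 4 = 1} =>
          (⟨(t.1 : Perm (Fin 5)), congrArg Subtype.val t.2, mem_alternatingGroup.1 t.1.2⟩ :
            {g : Perm (Fin 5) // g ^ 4 = 1 ∧ sign g = 1})) ?_
      intro a b hab
      apply Subtype.ext
      apply Subtype.ext
      exact congrArg (fun g : {g : Perm (Fin 5) // g ^ 4 = 1 ∧ sign g = 1} => g.1) hab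
    have h2 : 2 * Nat.card (alternatingGroup (Fin 5)) = 120 := by
      rw [two_mul_card_alt (by norm_num)]; decide
    have h3 : Nat.card {g : alternatingGroup (Fin 5) // g ^ 4 = 1} * 15 ≤
        7 * Nat.card (alternatingGroup (Fin 5)) := by omega
    exact_mod_cast h3
  · have := rho_alt_le h5 (k := 4) (p := 7) (q := 15) (by norm_num) (NN_four n (by omega))
    exact_mod_cast this

theorem rho_four_perm {n : ℕ} (h5 : 5 ≤ n) (h6 : n ≠ 6) : rho 4 (Perm (Fin n)) ≤ 7 / 15 := by
  have hpos : (0 : ℝ) < Nat.card (Perm (Fin n)) := by exact_mod_cast Nat.card_pos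
  rw [rho_eq, div_le_div_iff₀ hpos (by norm_num)]
  have h1 : Nat.card (Perm (Fin n)) = n.factorial := by
    rw [Nat.card_eq_fintype_card, Fintype.card_perm, Fintype.card_fin]
  have h2 : NN 4 n * 15 ≤ 7 * n.factorial := by
    by_cases hn : n = 5
    · subst hn
      have h3 := NN_four_small.1
      have h4 : Nat.factorial 5 = 120 := by decide
      rw [h4]; omega
    · have h3 := NN_four n (by omega)
      omega
  rw [← h1] at h2
  have h3 : Nat.card {g : Perm (Fin n) // g ^ 4 = 1} * 15 ≤ 7 * Nat.card (Perm (Fin n)) := h2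
  exact_mod_cast h3

theorem conj_eq_conjNormal' {Q : Type*} [Group Q] (S : Subgroup Q) [S.Normal] (s : S) :
    (MulAut.conjNormal (s : Q) : MulAut S) = MulAut.conj s := by
  apply MulEquiv.ext
  intro x
  apply Subtype.ext
  rw [MulAut.conjNormal_apply]
  rfl

theorem normal_case {n : ℕ} (h5 : 5 ≤ n) (h6 : n ≠ 6) {Q : Type} [Group Q] [Finite Q]
    (S : Subgroup Q) [S.Normal] (e : S ≃* alternatingGroup (Fin n)) : rho 4 Q ≤ 7 / 15 := by
  let E : Perm (Fin n) ≃* MulAut (alternatingGroup (Fin n)) :=
    MulEquiv.ofBijective MulAut.conjNormal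
      (conjNormal_bijective (by rwa [Fintype.card_fin]) (by rwa [Fintype.card_fin]))
  have hE : ∀ σ, E σ = MulAut.conjNormal σ := fun σ => rfl
  let F : Q →* Perm (Fin n) := E.symm.toMonoidHom.comp
    ((MulAut.congr e).toMonoidHom.comp (MulAut.conjNormal : Q →* MulAut S))
  have hF : ∀ q, F q = E.symm (MulAut.congr e (MulAut.conjNormal q)) := fun q => rfl
  have hFs : ∀ s : S, F (s : Q) = (e s : Perm (Fin n)) := by
    intro s
    rw [hF, MulEquiv.symm_apply_eq, hE, ← conj_eq_conjNormal, conj_eq_conjNormal']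
    apply MulEquiv.ext
    intro t
    simp [MulAut.congr]
  have hge : alternatingGroup (Fin n) ≤ F.range := by
    intro t ht
    refine ⟨(e.symm ⟨t, ht⟩ : S), ?_⟩
    rw [hFs, MulEquiv.apply_symm_apply]
  refine (rho_le_quot F.rangeRestrict F.rangeRestrict_surjective 4).trans ?_
  by_cases hR : F.range ≤ alternatingGroup (Fin n)
  · have heq : F.range = alternatingGroup (Fin n) := le_antisymm hR hge
    rw [heq]
    exact rho_four_alt h5 h6
  · obtain ⟨σ, hσ, hσ'⟩ := SetLike.not_le_iff_exists.1 hR
    have htop : F.range = ⊤ := by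
      rw [Subgroup.eq_top_iff']
      intro g
      by_cases hg : g ∈ alternatingGroup (Fin n)
      · exact hge hg
      · have hs : sign σ = -1 := by
          rcases Int.units_eq_one_or (sign σ) with h | h
          · exact absurd (mem_alternatingGroup.2 h) hσ'
          · exact h
        have hs' : sign g = -1 := by
          rcases Int.units_eq_one_or (sign g) with h | h
          · exact absurd (mem_alternatingGroup.2 h) hg
          · exact h
        have h1 : g * σ⁻¹ ∈ alternatingGroup (Fin n) := by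
          rw [mem_alternatingGroup, map_mul, map_inv, hs, hs']
          decide
        have h2 : g = (g * σ⁻¹) * σ := by group
        rw [h2]
        exact F.range.mul_mem (hge h1) hσ
    rw [htop]
    exact (rho_le_quot (Subgroup.topEquiv (G := Perm (Fin n))).toMonoidHom
      (Subgroup.topEquiv (G := Perm (Fin n))).surjective 4).trans (rho_four_perm h5 h6)

/-- `k = 4`. -/
theorem rho_four_factor {n : ℕ} (h5 : 5 ≤ n) (h6 : n ≠ 6) {G : Type} [Group G] [Finite G]
    (h : HasFactor (alternatingGroup (Fin n)) G) : rho 4 G ≤ 7 / 15 := by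
  obtain ⟨Q, _, f, M, S, hf, hM, hSM, hS, ⟨e⟩⟩ := h
  have : Finite Q := Finite.of_surjective f hf
  refine (rho_le_quot f hf 4).trans ?_
  by_cases hn : ∀ g : Q, ∀ x ∈ S, g * x * g⁻¹ ∈ S
  · have : S.Normal := ⟨fun x hx g => hn g x hx⟩
    exact normal_case h5 h6 S e
  · rw [not_forall] at hn
    obtain ⟨g0, hg0⟩ := hn
    have := alt_simple h5
    have : IsSimpleGroup S := e.isSimpleGroup
    obtain ⟨B, hB, hB'⟩ := cnt_four_le h5 h6
    have hc : Nat.card S = Nat.card (alternatingGroup (Fin n)) := Nat.card_congr e.toEquiv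
    have h2 := NN_two n h5
    rw [← two_mul_card_alt h5, ← hc] at h2
    rw [← hc] at hB'
    have key := card_four_nonnormal M S hM hSM hS g0 hg0 (NN 2 n) B
      (max (Nat.card S * NN 2 n) (B * B))
      (fun ζ => by rw [← cnt_congr e]; exact cnt_le_NN h5 h6 2 _)
      (fun ζ => by rw [← cnt_congr e]; exact hB _) (le_max_left _ _) (le_max_right _ _)
    have hSpos : 0 < Nat.card S := Nat.card_pos
    have hC : 15 * max (Nat.card S * NN 2 n) (B * B) ≤ 7 * (Nat.card S * Nat.card S) := by
      rcases max_cases (Nat.card S * NN 2 n) (B * B) with ⟨h, -⟩ | ⟨h, -⟩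
      · rw [h]
        have h3 : 15 * NN 2 n ≤ 7 * Nat.card S := by omega
        calc 15 * (Nat.card S * NN 2 n) = Nat.card S * (15 * NN 2 n) := by ring
          _ ≤ Nat.card S * (7 * Nat.card S) := Nat.mul_le_mul_left _ h3
          _ = 7 * (Nat.card S * Nat.card S) := by ring
      · rw [h]
        have h3 : (3 * B) * (3 * B) ≤ (2 * Nat.card S) * (2 * Nat.card S) :=
          Nat.mul_le_mul hB' hB'
        nlinarith
    have hfin : 15 * Nat.card {g : Q // g ^ 4 = 1} ≤ 7 * Nat.card Q := by
      have h4 : (Nat.card S * Nat.card S) * (15 * Nat.card {g : Q // g ^ 4 = 1}) ≤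
          (Nat.card S * Nat.card S) * (7 * Nat.card Q) := by
        calc (Nat.card S * Nat.card S) * (15 * Nat.card {g : Q // g ^ 4 = 1}) =
            15 * (Nat.card {g : Q // g ^ 4 = 1} * (Nat.card S * Nat.card S)) := by ring
          _ ≤ 15 * (Nat.card Q * max (Nat.card S * NN 2 n) (B * B)) := Nat.mul_le_mul_left _ key
          _ = Nat.card Q * (15 * max (Nat.card S * NN 2 n) (B * B)) := by ring
          _ ≤ Nat.card Q * (7 * (Nat.card S * Nat.card S)) := Nat.mul_le_mul_left _ hC
          _ = (Nat.card S * Nat.card S) * (7 * Nat.card Q) := by ring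
      exact Nat.le_of_mul_le_mul_left h4 (Nat.mul_pos hSpos hSpos)
    have hpos : (0 : ℝ) < Nat.card Q := by exact_mod_cast Nat.card_pos
    rw [rho_eq, div_le_div_iff₀ hpos (by norm_num)]
    have h5' : Nat.card {g : Q // g ^ 4 = 1} * 15 ≤ 7 * Nat.card Q := by omega
    exact_mod_cast h5'

end Pool.Agent.Lib.MP_bacaed_al
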