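import Pool.Agent.Lib.MP_bacaed_al.Cnt

/-! More than half of the elements of `SL(2,F)` have central `k`-th power. -/

namespace Pool.Agent.Lib.MP_bacaed_al

open Matrix Matrix.SpecialLinearGroup
open scoped MatrixGroups

section main

variable {F : Type} [Field F]

theorem dvd_two_mul_div {s q : ℕ} (h : Nat.gcd 2 (q - 1) ∣ s) :
    s ∣ 2 * (s / Nat.gcd 2 (q - 1)) := by
  obtain ⟨c, hc⟩ := h
  have hpos : 0 < Nat.gcd 2 (q - 1) := Nat.gcd_pos_of_pos_left _ two_pos
  rw [hc, Nat.mul_div_cancel_left _ hpos]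
  exact Nat.mul_dvd_mul_right (Nat.gcd_dvd_left 2 (q - 1)) c

/-- elements whose characteristic polynomial is irreducible -/
theorem nonsplit [Fintype F] (t : F) (ht : ∀ a : F, a * (t - a) ≠ 1) (n : ℕ)
    (hn : (Fintype.card F + 1) ∣ 2 * n) (g : SL(2, F)) (hg : tr g = t) :
    g ^ n ∈ Subgroup.center SL(2, F) := by
  obtain ⟨x, hx1, hx2, hx3⟩ := exists_frob t ht
  obtain ⟨c, hc⟩ := hn
  exact pow_mem_center (AlgebraicClosure F) t x hx1 hx2 n
    (by rw [hc, pow_mul, hx3, one_pow]) g hg

/-- elements with two distinct eigenvalues in `F` -/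
theorem split [Fintype F] (t : F) (a : F) (ha : a * (t - a) = 1) (ha2 : a * a ≠ 1) (n : ℕ)
    (hn : (Fintype.card F - 1) ∣ 2 * n) (g : SL(2, F)) (hg : tr g = t) :
    g ^ n ∈ Subgroup.center SL(2, F) := by
  have ha0 : a ≠ 0 := by rintro rfl; simp at ha
  have h1 : a ^ (Fintype.card F - 1) = 1 := FiniteField.pow_card_sub_one_eq_one a ha0
  obtain ⟨c, hc⟩ := hn
  refine pow_mem_center F t a ?_ ha2 n (by rw [hc, pow_mul, h1, one_pow]) g hg
  rw [Algebra.algebraMap_self, RingHom.id_apply]
  linear_combination (-1 : F) * ha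

/-- if one element of trace `t` has odd prime order `r`, then all have central `r`-th power -/
theorem same_trace (g₀ : SL(2, F)) (r : ℕ) (hr : r.Prime) (hr2 : r ≠ 2) (h₀ : orderOf g₀ = r)
    (g : SL(2, F)) (hg : tr g = tr g₀) : g ^ r ∈ Subgroup.center SL(2, F) := by
  obtain ⟨a, b, h1, -⟩ := pow_formula F (tr g₀) r
  have e1 := h1 g₀ rfl
  have e2 : (g₀ : Matrix (Fin 2) (Fin 2) F) ^ r = 1 := by
    have : g₀ ^ r = 1 := by rw [← h₀]; exact pow_orderOf_eq_one g₀
    rw [← Matrix.SpecialLinearGroup.coe_pow, this, Matrix.SpecialLinearGroup.coe_one]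
  rw [e2] at e1
  have ha : a = 0 := by
    by_contra ha
    have hc : g₀ ∈ Subgroup.center SL(2, F) := by
      apply center_of_scalar g₀ ((1 - b) / a)
      have h3 : a • (g₀ : Matrix (Fin 2) (Fin 2) F) = (1 - b) • 1 := by
        rw [sub_smul, one_smul]
        exact eq_sub_of_add_eq e1.symm
      rw [div_eq_inv_mul, mul_smul, ← h3, smul_smul, inv_mul_cancel₀ ha, one_smul]
    have h4 := sq_of_center g₀ hc
    have h5 : r ∣ 2 := by rw [← h₀]; exact orderOf_dvd_of_pow_eq_one h4
    exact hr2 ((Nat.prime_dvd_prime_iff_eq hr Nat.prime_two).mp h5)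
  apply center_of_scalar _ b
  rw [Matrix.SpecialLinearGroup.coe_pow, h1 g hg, ha, zero_smul, zero_add]

theorem tr_neg (g : SL(2, F)) : tr (-g) = - tr g := by
  rw [tr, tr, Matrix.SpecialLinearGroup.coe_neg, Matrix.trace_neg]

theorem neg_pow_center (g : SL(2, F)) (n : ℕ) (h : (-g) ^ n ∈ Subgroup.center SL(2, F)) :
    g ^ n ∈ Subgroup.center SL(2, F) := by
  rcases Nat.even_or_odd n with hn | hn
  · rwa [hn.neg_pow] at h
  · rw [hn.neg_pow] at h
    rw [Subgroup.mem_center_iff] at h ⊢
    intro x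
    have := h x
    rw [mul_neg, neg_mul] at this
    exact neg_injective this

variable [Fintype F] [DecidableEq F]

theorem sum_split : (Finset.univ.filter (fun t : F => R t = 1)).card +
    2 * (Finset.univ.filter (fun t : F => R t = 2)).card = Fintype.card F - 1 := by
  rw [← sum_R]
  have h : ∀ t : F, R t = (if R t = 1 then 1 else 0) + 2 * (if R t = 2 then 1 else 0) := by
    intro t
    have := R_le t
    interval_cases R t <;> simp
  rw [Finset.sum_congr rfl (fun t _ => h t), Finset.sum_add_distrib, ← Finset.mul_sum,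
    ← Finset.card_filter, ← Finset.card_filter]

theorem card_split : (Finset.univ.filter (fun t : F => R t = 0)).card +
    (Finset.univ.filter (fun t : F => R t = 1)).card +
    (Finset.univ.filter (fun t : F => R t = 2)).card = Fintype.card F := by
  have h : ∀ t : F, 1 = (if R t = 0 then 1 else 0) + (if R t = 1 then 1 else 0) +
      (if R t = 2 then 1 else 0) := by
    intro t
    have := R_le t
    interval_cases R t <;> simp
  rw [Finset.card_filter, Finset.card_filter, Finset.card_filter, ← Finset.sum_add_distrib,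
    ← Finset.sum_add_distrib, ← Finset.sum_congr rfl (fun t _ => h t)]
  simp

/-- at most as many traces with a double root as elements in `{t, -t}`, if `t ≠ 0` or `2 = 0`. -/
theorem card_one_le (t : F) (ht : t = 0 → (2 : F) = 0) :
    (Finset.univ.filter (fun t : F => R t = 1)).card ≤ ({t, -t} : Finset F).card := by
  by_cases h2 : (2 : F) = 0
  · have h3 : Finset.univ.filter (fun t : F => R t = 1) ⊆ {0} := by
      intro s hs
      have h4 := R_one (Finset.mem_filter.mp hs).2
      have h5 : s * s = 0 := by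
        rw [h4]
        have : (4 : F) = 2 * 2 := by norm_num
        rw [this, h2, mul_zero]
      rw [Finset.mem_singleton]
      exact mul_self_eq_zero.mp h5
    refine (Finset.card_le_card h3).trans ?_
    rw [Finset.card_singleton, Nat.one_le_iff_ne_zero, Finset.card_ne_zero]
    exact ⟨t, by simp⟩
  · have ht0 : t ≠ 0 := fun h => h2 (ht h)
    have hne : t ≠ -t := by
      intro h
      have : 2 * t = 0 := by linear_combination h
      rcases mul_eq_zero.mp this with h | h
      · exact h2 h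
      · exact ht0 h
    rw [Finset.card_pair hne]
    have h3 : Finset.univ.filter (fun t : F => R t = 1) ⊆ {2, -2} := by
      intro s hs
      have h4 := R_one (Finset.mem_filter.mp hs).2
      have h5 : (s - 2) * (s + 2) = 0 := by linear_combination h4
      rw [Finset.mem_insert, Finset.mem_singleton]
      rcases mul_eq_zero.mp h5 with h | h
      · left; exact sub_eq_zero.mp h
      · right; exact eq_neg_of_add_eq_zero_left h
    exact (Finset.card_le_card h3).trans Finset.card_le_two

noncomputable local instance : Fintype SL(2, F) := Fintype.ofFinite _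

omit [DecidableEq F] in
theorem main_count
    (hq : 4 ≤ Fintype.card F) (s r k : ℕ)
    (hs : s = Fintype.card F - 1 ∨ s = Fintype.card F + 1)
    (hsk : s / Nat.gcd 2 (Fintype.card F - 1) ∣ k) (hr : r.Prime) (hr2 : r ≠ 2) (hrk : r ∣ k)
    (hrG : r ∣ Fintype.card F * ((Fintype.card F - 1) * (Fintype.card F + 1))) (hrs : ¬ r ∣ s) :
    Nat.card SL(2, F) < 2 * Nat.card {g : SL(2, F) // g ^ k ∈ Subgroup.center SL(2, F)} := by
  classical
  set q := Fintype.card F with hqdef
  -- an element of order `r`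
  have hcard := card_sl (F := F)
  rw [← hqdef] at hcard
  have hcard2 : Fintype.card SL(2, F) = q * ((q - 1) * (q + 1)) := by
    rw [hcard]
    obtain ⟨m, hm⟩ : ∃ m, q = m + 1 := ⟨q - 1, by omega⟩
    rw [hm]; simp only [Nat.add_sub_cancel]; ring
  haveI : Fact r.Prime := ⟨hr⟩
  obtain ⟨g₀, hg₀⟩ := exists_prime_orderOf_dvd_card r (by rw [hcard2]; exact hrG :
    r ∣ Fintype.card SL(2, F))
  set t₀ := tr g₀ with ht₀
  have hdk : ∀ n : ℕ, n ∣ k → ∀ g : SL(2, F), g ^ n ∈ Subgroup.center SL(2, F) →
      g ^ k ∈ Subgroup.center SL(2, F) := by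
    rintro n ⟨c, rfl⟩ g hg
    rw [pow_mul]
    exact Subgroup.pow_mem _ hg c
  have hcls : ∀ t ∈ ({t₀, -t₀} : Finset F), ∀ g : SL(2, F), tr g = t →
      g ^ k ∈ Subgroup.center SL(2, F) := by
    intro t ht g hg
    apply hdk r hrk
    rw [Finset.mem_insert, Finset.mem_singleton] at ht
    rcases ht with rfl | rfl
    · exact same_trace g₀ r hr hr2 hg₀ g hg
    · apply neg_pow_center
      apply same_trace g₀ r hr hr2 hg₀
      rw [tr_neg, hg, neg_neg]
  have ht0 : t₀ = 0 → (2 : F) = 0 := by
    intro h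
    exfalso
    have h1 : (g₀ : Matrix (Fin 2) (Fin 2) F) * (g₀ : Matrix (Fin 2) (Fin 2) F) = -1 := by
      rw [sq_eq, ← ht₀, h, zero_smul, zero_sub]
    have h2 : g₀ ^ 4 = 1 := by
      apply Subtype.ext
      change ((g₀ ^ 4 : SL(2, F)) : Matrix (Fin 2) (Fin 2) F) = 1
      have hh : (g₀ : Matrix (Fin 2) (Fin 2) F) ^ 4 =
          ((g₀ : Matrix (Fin 2) (Fin 2) F) * (g₀ : Matrix (Fin 2) (Fin 2) F)) *
          ((g₀ : Matrix (Fin 2) (Fin 2) F) * (g₀ : Matrix (Fin 2) (Fin 2) F)) := by
        simp only [pow_succ, pow_zero, one_mul, mul_assoc]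
      rw [Matrix.SpecialLinearGroup.coe_pow, hh, h1, neg_mul_neg, one_mul]
    have h3 : r ∣ 2 ^ 2 := by rw [← hg₀]; exact orderOf_dvd_of_pow_eq_one h2
    exact hr2 ((Nat.prime_dvd_prime_iff_eq hr Nat.prime_two).mp (hr.dvd_of_dvd_pow h3))
  have hone := card_one_le t₀ ht0
  have hdvd : Nat.gcd 2 (q - 1) ∣ s := by
    have h1 : Nat.gcd 2 (q - 1) ∣ q - 1 := Nat.gcd_dvd_right _ _
    rcases hs with rfl | rfl
    · exact h1
    · have h2 : q + 1 = (q - 1) + 2 := by omega
      rw [h2]
      exact Nat.dvd_add h1 (Nat.gcd_dvd_left _ _)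
  have hs2 := dvd_two_mul_div hdvd
  -- `g₀` is not killed by the torus exponent
  have hnot : ¬ g₀ ^ (s / Nat.gcd 2 (q - 1)) ∈ Subgroup.center SL(2, F) := by
    intro h
    have h1 := sq_of_center _ h
    rw [← pow_mul] at h1
    have h2 : r ∣ s / Nat.gcd 2 (q - 1) * 2 := by
      rw [← hg₀]; exact orderOf_dvd_of_pow_eq_one h1
    rcases hr.dvd_mul.mp h2 with h3 | h3
    · exact hrs (h3.trans (Nat.div_dvd_of_dvd hdvd))
    · exact hr2 ((Nat.prime_dvd_prime_iff_eq hr Nat.prime_two).mp h3)
  have hsp := sum_split (F := F)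
  have hcs := card_split (F := F)
  have hRneg := R_neg t₀
  set n0 := (Finset.univ.filter (fun t : F => R t = 0)).card with hn0
  set n1 := (Finset.univ.filter (fun t : F => R t = 1)).card with hn1
  set n2 := (Finset.univ.filter (fun t : F => R t = 2)).card with hn2
  set c := ({t₀, -t₀} : Finset F).card with hc
  rw [Nat.card_eq_fintype_card, Nat.card_eq_fintype_card]
  obtain ⟨m, hm⟩ : ∃ m, q = m + 1 := ⟨q - 1, by omega⟩
  rcases hs with hs | hs
  · -- the split torus: `s = q - 1`
    have hR : R t₀ ≠ 2 := by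
      intro h
      obtain ⟨a, ha1, ha2⟩ := R_two h
      exact hnot (split t₀ a ha1 ha2 _ ((dvd_of_eq hs.symm).trans hs2) g₀ rfl)
    have hdisj : Disjoint (Finset.univ.filter (fun t : F => R t = 2)) {t₀, -t₀} := by
      rw [Finset.disjoint_left]
      intro t ht ht'
      have h1 := (Finset.mem_filter.mp ht).2
      rw [Finset.mem_insert, Finset.mem_singleton] at ht'
      rcases ht' with rfl | rfl
      · exact hR h1
      · exact hR (hRneg ▸ h1)
    have hsum := sum_le (Finset.univ.filter (fun t : F => R t = 2) ∪ {t₀, -t₀})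
      (fun g : SL(2, F) => g ^ k ∈ Subgroup.center SL(2, F)) (by
        intro t ht g hg
        rcases Finset.mem_union.mp ht with h | h
        · obtain ⟨a, ha1, ha2⟩ := R_two (Finset.mem_filter.mp h).2
          exact hdk _ hsk g (split t a ha1 ha2 _ ((dvd_of_eq hs.symm).trans hs2) g hg)
        · exact hcls t h g hg)
    rw [Finset.sum_union hdisj, Finset.sum_congr rfl (fun t ht => by
      rw [(Finset.mem_filter.mp ht).2] :
      ∀ t ∈ Finset.univ.filter (fun t : F => R t = 2),
        Fintype.card F * (Fintype.card F - 1) + Fintype.card F * R t =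
        Fintype.card F * (Fintype.card F - 1) + Fintype.card F * 2), Finset.sum_const,
      smul_eq_mul, ← hn2, ← hqdef] at hsum
    have hlow : c * (q * (q - 1)) ≤ ∑ t ∈ ({t₀, -t₀} : Finset F), (q * (q - 1) + q * R t) := by
      rw [hc, ← smul_eq_mul, ← Finset.sum_const]
      exact Finset.sum_le_sum (fun t _ => Nat.le_add_right _ _)
    refine lt_of_lt_of_le ?_ (Nat.mul_le_mul_left 2 (le_trans (Nat.add_le_add_left hlow _) hsum))
    rw [hcard2, hm, Nat.add_sub_cancel]
    rw [← hqdef, hm, Nat.add_sub_cancel] at hsp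
    have hcpos : 1 ≤ c := by
      rw [hc, Nat.one_le_iff_ne_zero, Finset.card_ne_zero]
      exact ⟨t₀, by simp⟩
    have hm3 : 3 ≤ m := by omega
    have h2n : m ≤ c + 2 * n2 := by omega
    have key : (m + 1) * (m * (m + 1 + 1)) <
        (c + 2 * n2) * ((m + 1) * m + (m + 1) * 2) + c * ((m + 1) * m) * 2 -
          c * ((m + 1) * m + (m + 1) * 2) := by
      have h3 : m * ((m + 1) * m + (m + 1) * 2) ≤ (c + 2 * n2) * ((m + 1) * m + (m + 1) * 2) :=
        Nat.mul_le_mul_right _ h2n
      have h4 : c * ((m + 1) * m + (m + 1) * 2) < c * ((m + 1) * m) * 2 := by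
        have : (m + 1) * m + (m + 1) * 2 < (m + 1) * m * 2 := by nlinarith
        calc c * ((m + 1) * m + (m + 1) * 2) < c * ((m + 1) * m * 2) :=
              Nat.mul_lt_mul_of_pos_left this hcpos
          _ = c * ((m + 1) * m) * 2 := by ring
      have h5 : (m + 1) * (m * (m + 1 + 1)) = m * ((m + 1) * m + (m + 1) * 2) := by ring
      omega
    have h6 : 2 * (n2 * ((m + 1) * m + (m + 1) * 2) + c * ((m + 1) * m)) =
        (c + 2 * n2) * ((m + 1) * m + (m + 1) * 2) + c * ((m + 1) * m) * 2 -
          c * ((m + 1) * m + (m + 1) * 2) := by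
      have h7 : (c + 2 * n2) * ((m + 1) * m + (m + 1) * 2) =
          c * ((m + 1) * m + (m + 1) * 2) + 2 * (n2 * ((m + 1) * m + (m + 1) * 2)) := by ring
      rw [h7]
      have h8 : 2 * (n2 * ((m + 1) * m + (m + 1) * 2) + c * ((m + 1) * m)) =
        2 * (n2 * ((m + 1) * m + (m + 1) * 2)) + c * ((m + 1) * m) * 2 := by ring
      omega
    rw [h6]
    exact key
  · -- the non-split torus: `s = q + 1`
    have hR : R t₀ ≠ 0 := by
      intro h
      exact hnot (nonsplit t₀ (R_zero h) _ ((dvd_of_eq hs.symm).trans hs2) g₀ rfl)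
    have hdisj : Disjoint (Finset.univ.filter (fun t : F => R t = 0)) {t₀, -t₀} := by
      rw [Finset.disjoint_left]
      intro t ht ht'
      have h1 := (Finset.mem_filter.mp ht).2
      rw [Finset.mem_insert, Finset.mem_singleton] at ht'
      rcases ht' with rfl | rfl
      · exact hR h1
      · exact hR (hRneg ▸ h1)
    have hsum := sum_le (Finset.univ.filter (fun t : F => R t = 0) ∪ {t₀, -t₀})
      (fun g : SL(2, F) => g ^ k ∈ Subgroup.center SL(2, F)) (by
        intro t ht g hg
        rcases Finset.mem_union.mp ht with h | h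
        · exact hdk _ hsk g (nonsplit t (R_zero (Finset.mem_filter.mp h).2) _
            ((dvd_of_eq hs.symm).trans hs2) g hg)
        · exact hcls t h g hg)
    rw [Finset.sum_union hdisj, Finset.sum_congr rfl (fun t ht => by
      rw [(Finset.mem_filter.mp ht).2] :
      ∀ t ∈ Finset.univ.filter (fun t : F => R t = 0),
        Fintype.card F * (Fintype.card F - 1) + Fintype.card F * R t =
        Fintype.card F * (Fintype.card F - 1) + Fintype.card F * 0), Finset.sum_const,
      smul_eq_mul, ← hn0, ← hqdef] at hsum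
    have hlow : c * (q * (q - 1) + q) ≤ ∑ t ∈ ({t₀, -t₀} : Finset F), (q * (q - 1) + q * R t) := by
      rw [hc, ← smul_eq_mul, ← Finset.sum_const]
      refine Finset.sum_le_sum (fun t ht => ?_)
      have : 1 ≤ R t := by
        rw [Finset.mem_insert, Finset.mem_singleton] at ht
        rcases ht with rfl | rfl
        · omega
        · rw [hRneg]; omega
      calc q * (q - 1) + q = q * (q - 1) + q * 1 := by ring
        _ ≤ q * (q - 1) + q * R t := Nat.add_le_add_left (Nat.mul_le_mul_left _ this) _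
    refine lt_of_lt_of_le ?_ (Nat.mul_le_mul_left 2 (le_trans (Nat.add_le_add_left hlow _) hsum))
    rw [hcard2, hm, Nat.add_sub_cancel]
    rw [← hqdef, hm, Nat.add_sub_cancel] at hsp
    rw [← hqdef, hm] at hcs
    have hcpos : 1 ≤ c := by
      rw [hc, Nat.one_le_iff_ne_zero, Finset.card_ne_zero]
      exact ⟨t₀, by simp⟩
    -- `2 n0 = q + 1 - n1 ≥ q + 1 - c`
    have h2n : m + 2 ≤ c + 2 * n0 := by omega
    have h3 : (m + 2) * ((m + 1) * m) ≤ (c + 2 * n0) * ((m + 1) * m) :=
      Nat.mul_le_mul_right _ h2n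
    have h4 : (m + 1) * (m * (m + 1 + 1)) = (m + 2) * ((m + 1) * m) := by ring
    have h5 : (c + 2 * n0) * ((m + 1) * m) = c * ((m + 1) * m) + 2 * (n0 * ((m + 1) * m)) := by
      ring
    have h6 : 2 * (n0 * ((m + 1) * m + (m + 1) * 0) + c * ((m + 1) * m + (m + 1))) =
        2 * (n0 * ((m + 1) * m)) + c * ((m + 1) * m) + c * ((m + 1) * m) + 2 * c * (m + 1) := by
      ring
    have h7 : 0 < 2 * c * (m + 1) := by positivity
    rw [h6, h4]
    omega

end main

end Pool.Agent.Lib.MP_bacaed_al
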