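import Pool.Agent.Lib.MP_bacaed_al.Coset

/-! Several conjugates of a simple subnormal subgroup in different cycles. -/

namespace Pool.Agent.Lib.MP_bacaed_al

section many

variable {Q : Type*} [Group Q]

/-- The elements `s z`, `s ∈ S`, whose `k`-th power centralises `S`. -/
theorem coset_act [Finite Q] (M S : Subgroup Q) (hM : M.Normal) (hSM : S ≤ M)
    (hS : ∀ m ∈ M, ∀ s ∈ S, m * s * m⁻¹ ∈ S) [IsSimpleGroup S] (k : ℕ) (z : Q) :
    ∃ θ : MulAut S, ∀ s : S, (∀ x ∈ S, Commute (((s : Q) * z) ^ k) x) →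
      (MulAut.conj s * θ) ^ k = 1 := by
  classical
  have hex : ∃ n : ℕ, 0 < n ∧ ∀ x ∈ S, z ^ n * x * (z ^ n)⁻¹ ∈ S :=
    ⟨orderOf z, orderOf_pos z, fun x hx => by rw [pow_orderOf_eq_one]; simpa using hx⟩
  let l := Nat.find hex
  have hl0 : 0 < l := (Nat.find_spec hex).1
  have hl : ∀ x ∈ S, z ^ l * x * (z ^ l)⁻¹ ∈ S := (Nat.find_spec hex).2
  have hmin : ∀ n, 0 < n → n < l → ∀ x ∈ S, ∀ y ∈ S, Commute x (z ^ n * y * (z ^ n)⁻¹) := by
    intro n hn hnl
    rcases conj_or_commute M S hM hSM hS (z ^ n) with h | h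
    · exact absurd ⟨hn, h⟩ (Nat.find_min hex hnl)
    · exact h
  let θh : S →* S :=
    { toFun := fun x => ⟨z ^ l * (x : Q) * (z ^ l)⁻¹, hl x x.2⟩
      map_one' := by apply Subtype.ext; simp
      map_mul' := by
        intro a b
        apply Subtype.ext
        change z ^ l * ((a * b : S) : Q) * (z ^ l)⁻¹ =
          (z ^ l * (a : Q) * (z ^ l)⁻¹) * (z ^ l * (b : Q) * (z ^ l)⁻¹)
        rw [Subgroup.coe_mul]; group }
  have hinj : Function.Injective θh := by
    intro a b hab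
    have h5 : z ^ l * (a : Q) * (z ^ l)⁻¹ = z ^ l * (b : Q) * (z ^ l)⁻¹ :=
      congrArg Subtype.val hab
    apply Subtype.ext
    exact mul_left_cancel (mul_right_cancel h5)
  let θ : MulAut S := MulEquiv.ofBijective θh ⟨hinj, Finite.surjective_of_injective hinj⟩
  have hθ : ∀ x : S, ((θ x : S) : Q) = z ^ l * (x : Q) * (z ^ l)⁻¹ := fun x => rfl
  refine ⟨θ, ?_⟩
  intro s hs
  have hu : ∀ n, 0 < n → n ≤ l →
      ∃ u : Q, ((s : Q) * z) ^ n = s * u * z ^ n ∧ ∀ x ∈ S, Commute u x := by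
    intro n hn
    induction n with
    | zero => omega
    | succ n ih =>
      intro hnl
      rcases Nat.eq_zero_or_pos n with h0 | h0
      · subst h0
        exact ⟨1, by simp, fun x _ => Commute.one_left x⟩
      · obtain ⟨u, hu1, hu2⟩ := ih h0 (by omega)
        refine ⟨u * (z ^ n * (s : Q) * (z ^ n)⁻¹), ?_, ?_⟩
        · rw [pow_succ, hu1, pow_succ]; group
        · intro x hx
          exact (hu2 x hx).mul_left (hmin n h0 (by omega) x hx s s.2).symm
  obtain ⟨u, hu1, hu2⟩ := hu l hl0 le_rfl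
  have hact : ∀ x : S, (((MulAut.conj s * θ) x : S) : Q) =
      (((s : Q) * z) ^ l) * (x : Q) * (((s : Q) * z) ^ l)⁻¹ := by
    intro x
    have h1 : (((MulAut.conj s * θ) x : S) : Q) = s * (z ^ l * (x : Q) * (z ^ l)⁻¹) * (s : Q)⁻¹ := by
      rw [MulAut.mul_apply, MulAut.conj_apply, Subgroup.coe_mul, Subgroup.coe_mul,
        Subgroup.coe_inv, hθ]
    rw [h1, hu1]
    have h2 := hu2 _ (hl x x.2)
    have h3 : u * (z ^ l * (x : Q) * (z ^ l)⁻¹) * u⁻¹ = z ^ l * (x : Q) * (z ^ l)⁻¹ := by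
      rw [h2.eq, mul_inv_cancel_right]
    calc (s : Q) * (z ^ l * (x : Q) * (z ^ l)⁻¹) * (s : Q)⁻¹ =
        s * (u * (z ^ l * (x : Q) * (z ^ l)⁻¹) * u⁻¹) * (s : Q)⁻¹ := by rw [h3]
      _ = s * u * z ^ l * x * (s * u * z ^ l)⁻¹ := by group
  have hpow : ∀ j : ℕ, ∀ x : S, (((MulAut.conj s * θ) ^ j) x : Q) =
      ((((s : Q) * z) ^ l) ^ j) * (x : Q) * ((((s : Q) * z) ^ l) ^ j)⁻¹ := by
    intro j
    induction j with
    | zero => intro x; simp
    | succ j ih =>
      intro x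
      rw [pow_succ', MulAut.mul_apply, hact, ih, pow_succ' (((s : Q) * z) ^ l)]
      group
  apply MulEquiv.ext
  intro x
  apply Subtype.ext
  have hc : Commute ((((s : Q) * z) ^ l) ^ k) x := by
    rw [← pow_mul, mul_comm l k, pow_mul]
    exact (hs x x.2).pow_left l
  rw [hpow, hc.eq, mul_inv_cancel_right]
  rfl

/-- Averaging over the cosets of `S` in a set which is closed under multiplication by `S`. -/
theorem avg_le [Finite Q] (S : Subgroup Q) (X p : Q → Prop) (C : ℕ)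
    (hX : ∀ s ∈ S, ∀ x, X x → X (s * x))
    (h : ∀ z : Q, X z → Nat.card {s : S // p ((s : Q) * z)} ≤ C) :
    Nat.card {g : Q // X g ∧ p g} * Nat.card S ≤ Nat.card {g : Q // X g} * C := by
  classical
  haveI : Fintype {g : Q // X g} := Fintype.ofFinite _
  have e : {g : Q // X g ∧ p g} × S ≃ Σ z : {g : Q // X g}, {s : S // p ((s : Q) * z.1)} :=
    { toFun := fun q => ⟨⟨(q.2 : Q)⁻¹ * q.1.1, hX _ (S.inv_mem q.2.2) _ q.1.2.1⟩, q.2, by
        rw [mul_inv_cancel_left]; exact q.1.2.2⟩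
      invFun := fun q => (⟨(q.2.1 : Q) * q.1.1, hX _ q.2.1.2 _ q.1.2, q.2.2⟩, q.2.1)
      left_inv := by
        intro q
        apply Prod.ext
        · apply Subtype.ext
          exact mul_inv_cancel_left _ _
        · rfl
      right_inv := by
        rintro ⟨⟨z, hz⟩, s, hs⟩
        have hz' : (s : Q)⁻¹ * ((s : Q) * z) = z := inv_mul_cancel_left _ _
        refine Sigma.ext (Subtype.ext hz') ?_
        refine (Subtype.heq_iff_coe_eq ?_).2 rfl
        intro x
        change p (_ * ((s : Q)⁻¹ * ((s : Q) * z))) ↔ _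
        rw [hz'] }
  rw [← Nat.card_prod, Nat.card_congr e, Nat.card_sigma]
  calc ∑ z : {g : Q // X g}, Nat.card {s : S // p ((s : Q) * z.1)} ≤
        ∑ _z : {g : Q // X g}, C := Finset.sum_le_sum (fun z _ => h z.1 z.2)
    _ = Nat.card {g : Q // X g} * C := by
        rw [Finset.sum_const, Finset.card_univ, smul_eq_mul, Nat.card_eq_fintype_card]

/-- The conjugate `g S g⁻¹`. -/
def cj (S : Subgroup Q) (g : Q) : Subgroup Q := S.map (MulAut.conj g).toMonoidHom

theorem mem_cj {S : Subgroup Q} {g x : Q} : x ∈ cj S g ↔ ∃ s ∈ S, g * s * g⁻¹ = x := by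
  rw [cj, Subgroup.mem_map]
  rfl

/-- The isomorphism of `S` with its conjugate. -/
noncomputable def cjEquiv (S : Subgroup Q) (g : Q) : S ≃* cj S g :=
  S.equivMapOfInjective (MulAut.conj g).toMonoidHom (MulAut.conj g).injective

theorem cj_le {M S : Subgroup Q} (hM : M.Normal) (hSM : S ≤ M) (g : Q) : cj S g ≤ M := by
  intro x hx
  obtain ⟨s, hs, rfl⟩ := mem_cj.1 hx
  exact hM.conj_mem s (hSM hs) g

theorem cj_inv {M S : Subgroup Q} (hM : M.Normal)
    (hS : ∀ m ∈ M, ∀ s ∈ S, m * s * m⁻¹ ∈ S) (g : Q) :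
    ∀ m ∈ M, ∀ s ∈ cj S g, m * s * m⁻¹ ∈ cj S g := by
  intro m hm x hx
  obtain ⟨s, hs, rfl⟩ := mem_cj.1 hx
  rw [mem_cj]
  refine ⟨(g⁻¹ * m * g) * s * (g⁻¹ * m * g)⁻¹, hS _ ?_ _ hs, by group⟩
  have := hM.conj_mem m hm g⁻¹
  simpa using this

/-- the invariant set -/
def XL (M S : Subgroup Q) (k : ℕ) (z : Q) (L : List Q) (y : Q) : Prop :=
  y * z⁻¹ ∈ M ∧ ∀ g ∈ L, ∀ x ∈ S, Commute (y ^ k) (g * x * g⁻¹)

theorem pow_mod {M : Subgroup Q} (hM : M.Normal) {y z : Q} (h : y * z⁻¹ ∈ M) (n : ℕ) :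
    ∃ m ∈ M, y ^ n = z ^ n * m := by
  induction n with
  | zero => exact ⟨1, M.one_mem, by simp⟩
  | succ n ih =>
    obtain ⟨m, hm, h1⟩ := ih
    refine ⟨z⁻¹ * m * z * (z⁻¹ * (y * z⁻¹) * z), ?_, ?_⟩
    · refine M.mul_mem ?_ ?_
      · have := hM.conj_mem m hm z⁻¹
        simpa using this
      · have := hM.conj_mem _ h z⁻¹
        simpa using this
    · rw [pow_succ, h1, pow_succ]
      group

/-- Adding one conjugate in a new cycle. -/
theorem XL_step [Finite Q] (M S : Subgroup Q) (hM : M.Normal) (hSM : S ≤ M)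
    (hS : ∀ m ∈ M, ∀ s ∈ S, m * s * m⁻¹ ∈ S) [IsSimpleGroup S] (k C : ℕ)
    (hC : ∀ ζ : MulAut S, cnt k S ζ ≤ C) (z : Q) (L : List Q) (g : Q)
    (hg : ∀ g' ∈ L, ∀ n : ℕ, ∀ x ∈ S, ∀ y ∈ S,
      Commute (g * x * g⁻¹) (z ^ n * (g' * y * g'⁻¹) * (z ^ n)⁻¹)) :
    Nat.card {y : Q // XL M S k z (g :: L) y} * Nat.card S ≤
      Nat.card {y : Q // XL M S k z L y} * C := by
  haveI : IsSimpleGroup (cj S g) := (cjEquiv S g).symm.isSimpleGroup
  have hstab : ∀ s ∈ cj S g, ∀ y, XL M S k z L y → XL M S k z L (s * y) := by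
    intro s hs y hy
    refine ⟨?_, ?_⟩
    · rw [mul_assoc]
      exact M.mul_mem (cj_le hM hSM g hs) hy.1
    · intro g' hg' x hx
      have key : ∀ n : ℕ, (s * y) ^ n * (g' * x * g'⁻¹) * ((s * y) ^ n)⁻¹ =
          y ^ n * (g' * x * g'⁻¹) * (y ^ n)⁻¹ := by
        intro n
        induction n with
        | zero => simp
        | succ n ih =>
          have h1 : (s * y) ^ (n + 1) * (g' * x * g'⁻¹) * ((s * y) ^ (n + 1))⁻¹ =
              s * y * ((s * y) ^ n * (g' * x * g'⁻¹) * ((s * y) ^ n)⁻¹) * (s * y)⁻¹ := by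
            rw [pow_succ' (s * y) n, mul_inv_rev (s * y) ((s * y) ^ n)]
            simp only [mul_assoc]
          rw [h1, ih]
          have h2 : s * y * (y ^ n * (g' * x * g'⁻¹) * (y ^ n)⁻¹) * (s * y)⁻¹ =
              s * (y ^ (n + 1) * (g' * x * g'⁻¹) * (y ^ (n + 1))⁻¹) * s⁻¹ := by
            rw [pow_succ']; group
          rw [h2]
          have h3 : Commute s (y ^ (n + 1) * (g' * x * g'⁻¹) * (y ^ (n + 1))⁻¹) := by
            obtain ⟨m, hm, h4⟩ := pow_mod hM hy.1 (n + 1)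
            obtain ⟨s', hs', rfl⟩ := mem_cj.1 hs
            obtain ⟨x', hx', h5⟩ := mem_cj.1 (cj_inv hM hS g' m hm _ (mem_cj.2 ⟨x, hx, rfl⟩))
            have h6 : y ^ (n + 1) * (g' * x * g'⁻¹) * (y ^ (n + 1))⁻¹ =
                z ^ (n + 1) * (g' * x' * g'⁻¹) * (z ^ (n + 1))⁻¹ := by
              rw [h4, h5, mul_inv_rev]
              simp only [mul_assoc]
            rw [h6]
            exact hg g' hg' (n + 1) s' hs' x' hx'
          rw [h3.eq, mul_inv_cancel_right]
      have h7 := key k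
      have h8 := hy.2 g' hg' x hx
      rw [h8.eq, mul_inv_cancel_right] at h7
      exact mul_inv_eq_iff_eq_mul.1 h7
  have h1 := avg_le (cj S g) (XL M S k z L)
    (fun y => ∀ x ∈ cj S g, Commute (y ^ k) x) C hstab (by
      intro y _
      obtain ⟨θ, hθ⟩ := coset_act M (cj S g) hM (cj_le hM hSM g) (cj_inv hM hS g) k y
      have h2 : cnt k (cj S g) θ ≤ C := by
        have h3 := cnt_congr (cjEquiv S g).symm k θ
        rw [← h3]
        exact hC _
      refine le_trans ?_ h2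
      exact Nat.card_le_card_of_injective
        (fun s : {s : cj S g // ∀ x ∈ cj S g, Commute (((s : Q) * y) ^ k) x} =>
          (⟨s.1, hθ s.1 s.2⟩ : {t : cj S g // (MulAut.conj t * θ) ^ k = 1}))
        (fun a b hab => Subtype.ext (congrArg (fun t => t.1) hab)))
  have h4 : Nat.card (cj S g) = Nat.card S := (Nat.card_congr (cjEquiv S g).toEquiv).symm
  rw [h4] at h1
  refine le_trans (Nat.mul_le_mul_right _ ?_) h1
  refine Nat.card_le_card_of_injective
    (fun y : {y : Q // XL M S k z (g :: L) y} =>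
      (⟨y.1, ⟨y.2.1, fun g' hg' => y.2.2 g' (List.mem_cons_of_mem _ hg')⟩, ?_⟩ :
        {y : Q // XL M S k z L y ∧ ∀ x ∈ cj S g, Commute (y ^ k) x})) ?_
  · intro x hx
    obtain ⟨s, hs, rfl⟩ := mem_cj.1 hx
    exact y.2.2 g List.mem_cons_self s hs
  · intro a b hab
    exact Subtype.ext (congrArg (fun t => t.1) hab)

/-- The conjugates of `S` which commute with all the conjugates in a list, moved by `z`. -/
theorem exists_list [Finite Q] (M S : Subgroup Q) (hM : M.Normal) (hSM : S ≤ M)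
    (hS : ∀ m ∈ M, ∀ s ∈ S, m * s * m⁻¹ ∈ S) [IsSimpleGroup S] (k C : ℕ) (hk : 0 < k)
    (hC : ∀ ζ : MulAut S, cnt k S ζ ≤ C) (z : Q) (hz : z ^ k ∈ M) (r : ℕ)
    (hr : k * r ≤ (Subgroup.normalizer (S : Set Q)).index) :
    ∃ L : List Q, L.length = r ∧
      Nat.card {y : Q // XL M S k z L y} * Nat.card S ^ r ≤ Nat.card M * C ^ r := by
  classical
  induction r with
  | zero =>
    refine ⟨[], rfl, ?_⟩
    rw [pow_zero, pow_zero, mul_one, mul_one]
    exact Nat.card_le_card_of_injective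
      (fun y : {y : Q // XL M S k z [] y} => (⟨y.1 * z⁻¹, y.2.1⟩ : M))
      (fun a b hab => Subtype.ext (mul_right_cancel (congrArg Subtype.val hab)))
  | succ r ih =>
    obtain ⟨L, hL, hcard⟩ := ih (le_trans (Nat.mul_le_mul_left k (Nat.le_succ r)) hr)
    set N := Subgroup.normalizer (S : Set Q) with hN
    have hMN : ∀ m ∈ M, ∀ g : Q, g⁻¹ * m * g ∈ N := by
      intro m hm g
      apply Subgroup.mem_normalizer_fintype
      intro x hx
      refine hS _ ?_ x hx
      have := hM.conj_mem m hm g⁻¹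
      simpa using this
    haveI : Fintype (Q ⧸ N) := Fintype.ofFinite _
    let W : Finset (Q ⧸ N) := (Finset.range k ×ˢ L.toFinset).image
      (fun p => (QuotientGroup.mk (z ^ p.1 * p.2) : Q ⧸ N))
    have hW : W.card ≤ k * r := by
      refine Finset.card_image_le.trans ?_
      rw [Finset.card_product, Finset.card_range]
      exact Nat.mul_le_mul_left k (hL ▸ List.toFinset_card_le L)
    have hlt : W.card < (Finset.univ : Finset (Q ⧸ N)).card := by
      rw [Finset.card_univ, ← Nat.card_eq_fintype_card, ← Subgroup.index_eq_card]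
      have h1 : k * r < k * (r + 1) := Nat.mul_lt_mul_of_pos_left (Nat.lt_succ_self r) hk
      omega
    obtain ⟨w, hw⟩ : ∃ w, w ∉ W := by
      by_contra hcon
      push Not at hcon
      have : W = Finset.univ := Finset.eq_univ_iff_forall.2 hcon
      rw [this] at hlt
      exact lt_irrefl _ hlt
    obtain ⟨g, rfl⟩ := QuotientGroup.mk_surjective w
    refine ⟨g :: L, by rw [List.length_cons, hL], ?_⟩
    have hg : ∀ g' ∈ L, ∀ n : ℕ, ∀ x ∈ S, ∀ y ∈ S,
        Commute (g * x * g⁻¹) (z ^ n * (g' * y * g'⁻¹) * (z ^ n)⁻¹) := by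
      intro g' hg' n x hx y hy
      rcases conj_or_commute M S hM hSM hS (g⁻¹ * (z ^ n * g')) with h | h
      · exfalso
        apply hw
        have h1 : g⁻¹ * (z ^ n * g') ∈ N := Subgroup.mem_normalizer_fintype h
        -- `z ^ n g' N = z ^ (n % k) g' N`
        have h2 : (QuotientGroup.mk g : Q ⧸ N) = QuotientGroup.mk (z ^ n * g') :=
          QuotientGroup.eq.2 h1
        have h3 : (z ^ k) ^ (n / k) ∈ M := M.pow_mem hz _
        have h4 : (QuotientGroup.mk (z ^ (n % k) * g') : Q ⧸ N) =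
            QuotientGroup.mk (z ^ n * g') := by
          rw [QuotientGroup.eq]
          have h5 : z ^ n = z ^ (n % k) * (z ^ k) ^ (n / k) := by
            rw [← pow_mul, ← pow_add, Nat.mod_add_div]
          have h6 : (z ^ (n % k) * g')⁻¹ * (z ^ n * g') =
              g'⁻¹ * ((z ^ k) ^ (n / k)) * g' := by
            rw [h5]; group
          rw [h6]
          exact hMN _ h3 g'
        rw [h2, ← h4]
        refine Finset.mem_image.2 ⟨(n % k, g'), ?_, rfl⟩
        rw [Finset.mem_product]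
        exact ⟨Finset.mem_range.2 (Nat.mod_lt _ hk), List.mem_toFinset.2 hg'⟩
      · have h1 := h x hx y hy
        have h2 : Commute (g * x * g⁻¹)
            (g * (g⁻¹ * (z ^ n * g') * y * (g⁻¹ * (z ^ n * g'))⁻¹) * g⁻¹) := by
          have h3 : (g * x * g⁻¹) * (g * (g⁻¹ * (z ^ n * g') * y * (g⁻¹ * (z ^ n * g'))⁻¹) * g⁻¹) =
              g * (x * (g⁻¹ * (z ^ n * g') * y * (g⁻¹ * (z ^ n * g'))⁻¹)) * g⁻¹ := by group
          have h4 : (g * (g⁻¹ * (z ^ n * g') * y * (g⁻¹ * (z ^ n * g'))⁻¹) * g⁻¹) * (g * x * g⁻¹) =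
              g * ((g⁻¹ * (z ^ n * g') * y * (g⁻¹ * (z ^ n * g'))⁻¹) * x) * g⁻¹ := by group
          change (g * x * g⁻¹) * (g * (g⁻¹ * (z ^ n * g') * y * (g⁻¹ * (z ^ n * g'))⁻¹) * g⁻¹) =
            (g * (g⁻¹ * (z ^ n * g') * y * (g⁻¹ * (z ^ n * g'))⁻¹) * g⁻¹) * (g * x * g⁻¹)
          rw [h3, h4, h1.eq]
        have h5 : g * (g⁻¹ * (z ^ n * g') * y * (g⁻¹ * (z ^ n * g'))⁻¹) * g⁻¹ =
            z ^ n * (g' * y * g'⁻¹) * (z ^ n)⁻¹ := by group
        rwa [h5] at h2
    have h6 := XL_step M S hM hSM hS k C hC z L g hg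
    calc Nat.card {y : Q // XL M S k z (g :: L) y} * Nat.card S ^ (r + 1) =
        (Nat.card {y : Q // XL M S k z (g :: L) y} * Nat.card S) * Nat.card S ^ r := by ring
      _ ≤ (Nat.card {y : Q // XL M S k z L y} * C) * Nat.card S ^ r :=
          Nat.mul_le_mul_right _ h6
      _ = (Nat.card {y : Q // XL M S k z L y} * Nat.card S ^ r) * C := by ring
      _ ≤ (Nat.card M * C ^ r) * C := Nat.mul_le_mul_right _ hcard
      _ = Nat.card M * C ^ (r + 1) := by ring

/-- Many conjugates: few solutions. -/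
theorem many_conj [Finite Q] (M S : Subgroup Q) (hM : M.Normal) (hSM : S ≤ M)
    (hS : ∀ m ∈ M, ∀ s ∈ S, m * s * m⁻¹ ∈ S) [IsSimpleGroup S] (k C : ℕ) (hk : 0 < k)
    (hC : ∀ ζ : MulAut S, cnt k S ζ ≤ C) (r : ℕ)
    (hr : k * r ≤ (Subgroup.normalizer (S : Set Q)).index) :
    Nat.card {g : Q // g ^ k = 1} * Nat.card S ^ r ≤ Nat.card Q * C ^ r := by
  have hcoset : ∀ z : Q,
      Nat.card {m : M // ((m : Q) * z) ^ k = 1} * Nat.card S ^ r ≤ Nat.card M * C ^ r := by
    intro z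
    by_cases h : ∃ m : M, ((m : Q) * z) ^ k = 1
    · obtain ⟨m, hm⟩ := h
      have hz : z ^ k ∈ M := by
        have h0 : z * ((m : Q) * z)⁻¹ ∈ M := by
          have : z * ((m : Q) * z)⁻¹ = (m : Q)⁻¹ := by group
          rw [this]
          exact M.inv_mem m.2
        obtain ⟨m', hm', h1⟩ := pow_mod hM h0 k
        rw [hm, one_mul] at h1
        rw [h1]; exact hm'
      obtain ⟨L, -, h2⟩ := exists_list M S hM hSM hS k C hk hC z hz r hr
      refine le_trans (Nat.mul_le_mul_right _ ?_) h2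
      refine Nat.card_le_card_of_injective
        (fun m : {m : M // ((m : Q) * z) ^ k = 1} =>
          (⟨(m.1 : Q) * z, ⟨by rw [mul_inv_cancel_right]; exact m.1.2,
            fun g' _ x _ => by rw [m.2]; exact Commute.one_left _⟩⟩ :
            {y : Q // XL M S k z L y})) ?_
      intro a b hab
      apply Subtype.ext
      apply Subtype.ext
      exact mul_right_cancel (congrArg (fun t : {y : Q // XL M S k z L y} => t.1) hab)
    · have h0 : Nat.card {m : M // ((m : Q) * z) ^ k = 1} = 0 := by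
        rw [Nat.card_eq_zero]
        left
        exact ⟨fun m => h ⟨m.1, m.2⟩⟩
      rw [h0, zero_mul]
      exact Nat.zero_le _
  obtain ⟨z, hz⟩ := Finite.exists_max
    (fun z : Q => Nat.card {m : M // ((m : Q) * z) ^ k = 1})
  have h1 := card_le_of_coset M k _ hz
  have hMpos : 0 < Nat.card M := Nat.card_pos
  have h2 : (Nat.card {g : Q // g ^ k = 1} * Nat.card S ^ r) * Nat.card M ≤
      (Nat.card Q * C ^ r) * Nat.card M := by
    calc (Nat.card {g : Q // g ^ k = 1} * Nat.card S ^ r) * Nat.card M =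
        (Nat.card {g : Q // g ^ k = 1} * Nat.card M) * Nat.card S ^ r := by ring
      _ ≤ (Nat.card Q * Nat.card {m : M // ((m : Q) * z) ^ k = 1}) * Nat.card S ^ r :=
          Nat.mul_le_mul_right _ h1
      _ = Nat.card Q * (Nat.card {m : M // ((m : Q) * z) ^ k = 1} * Nat.card S ^ r) := by ring
      _ ≤ Nat.card Q * (Nat.card M * C ^ r) := Nat.mul_le_mul_left _ (hcoset z)
      _ = (Nat.card Q * C ^ r) * Nat.card M := by ring
  exact Nat.le_of_mul_le_mul_right h2 hMpos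

end many

end Pool.Agent.Lib.MP_bacaed_al
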