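import Pool.Agent.Lib.MP_bacaed_al.ManyA
import Pool.Agent.Lib.MP_bacaed_al.Parity

/-! Few conjugates: a non-soluble quotient of bounded order. -/

namespace Pool.Agent.Lib.MP_bacaed_al

section few

variable {Q : Type} [Group Q] [Finite Q]

theorem card_quot_centralizer (S : Subgroup Q) :
    Nat.card (Q ⧸ Subgroup.centralizer (S : Set Q)) ≤
      (Subgroup.normalizer (S : Set Q)).index * Nat.card S ^ Nat.card S := by
  classical
  set N := Subgroup.normalizer (S : Set Q) with hN
  have hr : ∀ a : Q, ((QuotientGroup.mk a : Q ⧸ N).out)⁻¹ * a ∈ N := by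
    intro a
    rw [← QuotientGroup.eq]
    exact QuotientGroup.out_eq' _
  let F : Q ⧸ Subgroup.centralizer (S : Set Q) → (Q ⧸ N) × (S → S) := fun q =>
    (QuotientGroup.mk q.out, fun s =>
      ⟨((QuotientGroup.mk q.out : Q ⧸ N).out)⁻¹ * q.out * (s : Q) *
        (((QuotientGroup.mk q.out : Q ⧸ N).out)⁻¹ * q.out)⁻¹,
        (Subgroup.mem_normalizer_iff.1 (hr q.out) s).1 s.2⟩)
  have hF : Function.Injective F := by
    intro q q' h
    have h1 : (QuotientGroup.mk q.out : Q ⧸ N) = QuotientGroup.mk q'.out := congrArg Prod.fst h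
    have h2 : ∀ s : S, ((QuotientGroup.mk q.out : Q ⧸ N).out)⁻¹ * q.out * (s : Q) *
        (((QuotientGroup.mk q.out : Q ⧸ N).out)⁻¹ * q.out)⁻¹ =
        ((QuotientGroup.mk q'.out : Q ⧸ N).out)⁻¹ * q'.out * (s : Q) *
        (((QuotientGroup.mk q'.out : Q ⧸ N).out)⁻¹ * q'.out)⁻¹ := fun s =>
      congrArg Subtype.val (congrFun (congrArg Prod.snd h) s)
    rw [h1] at h2
    have h3 : (q.out)⁻¹ * q'.out ∈ Subgroup.centralizer (S : Set Q) := by
      rw [Subgroup.mem_centralizer_iff]
      intro s hs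
      have h4 := h2 ⟨s, hs⟩
      set r := ((QuotientGroup.mk q'.out : Q ⧸ N).out) with hrdef
      have h5 : q.out * s * (q.out)⁻¹ = q'.out * s * (q'.out)⁻¹ := by
        have h6 : q.out * s * (q.out)⁻¹ = r * (r⁻¹ * q.out * s * (r⁻¹ * q.out)⁻¹) * r⁻¹ := by group
        have h7 : q'.out * s * (q'.out)⁻¹ = r * (r⁻¹ * q'.out * s * (r⁻¹ * q'.out)⁻¹) * r⁻¹ := by
          group
        rw [h6, h7]
        exact congrArg (fun x => r * x * r⁻¹) h4
      calc s * ((q.out)⁻¹ * q'.out) = (q.out)⁻¹ * (q.out * s * (q.out)⁻¹) * q'.out := by group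
        _ = (q.out)⁻¹ * (q'.out * s * (q'.out)⁻¹) * q'.out := by rw [h5]
        _ = (q.out)⁻¹ * q'.out * s := by group
    rw [← QuotientGroup.out_eq' q, ← QuotientGroup.out_eq' q']
    exact QuotientGroup.eq.2 h3
  have h8 := Nat.card_le_card_of_injective F hF
  rwa [Nat.card_prod, Nat.card_fun, ← Subgroup.index_eq_card] at h8

theorem few_conj (S : Subgroup Q) [IsSimpleGroup S] (hT : ¬ ∀ a b : S, a * b = b * a) :
    ∃ (Q' : Type) (_ : Group Q') (f : Q →* Q'), Function.Surjective f ∧ Finite Q' ∧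
      ¬ Group.IsSolvable Q' ∧
      Nat.card Q' ≤ ((Subgroup.normalizer (S : Set Q)).index * Nat.card S ^ Nat.card S).factorial := by
  classical
  let H := Subgroup.centralizer (S : Set Q)
  let Φ : Q →* Equiv.Perm (Q ⧸ H) := MulAction.toPermHom Q (Q ⧸ H)
  have hinj : Function.Injective (Φ.rangeRestrict.comp S.subtype) := by
    rw [injective_iff_map_eq_one]
    intro s hs
    have h1 : (s : Q) ∈ Φ.ker := by
      rw [MonoidHom.mem_ker]
      exact congrArg Subtype.val hs
    have h2 : (s : Q) ∈ H := by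
      rw [← Subgroup.normalCore_eq_ker H] at h1
      exact Subgroup.normalCore_le H h1
    have h3 : s ∈ Subgroup.center S := by
      rw [Subgroup.mem_center_iff]
      intro x
      apply Subtype.ext
      exact Subgroup.mem_centralizer_iff.1 h2 x x.2
    rw [center_bot hT, Subgroup.mem_bot] at h3
    exact h3
  refine ⟨Φ.range, inferInstance, Φ.rangeRestrict, Φ.rangeRestrict_surjective, inferInstance,
    ?_, ?_⟩
  · intro hsol
    exact not_solvable_of_simple hT (Group.isSolvable_of_isSolvable_injective hinj)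
  · have h1 : Nat.card Φ.range ≤ Nat.card (Equiv.Perm (Q ⧸ H)) :=
      Nat.card_le_card_of_injective _ Subtype.val_injective
    rw [Nat.card_perm] at h1
    exact h1.trans (Nat.factorial_le (card_quot_centralizer S))

end few

end Pool.Agent.Lib.MP_bacaed_al
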