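import Pool.Agent.Lib.MP_bacaed_al.Parity

/-! The proportion in one coset is at most `(k / φ(k)) eps k`. -/

namespace Pool.Agent.Lib.MP_bacaed_al

section phi

variable {T : Type} [Group T]

/-- The action of a cyclic group of order `k` by the powers of `ζ`. -/
noncomputable def cyc (k : ℕ) (ζ : MulAut T) (hζ : ζ ^ k = 1) :
    Multiplicative (ZMod k) →* MulAut T :=
  AddMonoidHom.toMultiplicativeLeft (ZMod.lift k
    ⟨zmultiplesHom (Additive (MulAut T)) (Additive.ofMul ζ), by
      rw [zmultiplesHom_apply, natCast_zsmul, ← ofMul_pow, hζ, ofMul_one]⟩)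

theorem cyc_one (k : ℕ) (ζ : MulAut T) (hζ : ζ ^ k = 1) :
    cyc k ζ hζ (Multiplicative.ofAdd 1) = ζ := by
  have h1 := ZMod.lift_coe k (A := Additive (MulAut T))
    ⟨zmultiplesHom (Additive (MulAut T)) (Additive.ofMul ζ), by
      rw [zmultiplesHom_apply, natCast_zsmul, ← ofMul_pow, hζ, ofMul_one]⟩ 1
  rw [Int.cast_one] at h1
  change Additive.toMul (ZMod.lift k (A := Additive (MulAut T))
    ⟨zmultiplesHom (Additive (MulAut T)) (Additive.ofMul ζ), _⟩ 1) = ζ
  rw [h1]
  change Additive.toMul (zmultiplesHom (Additive (MulAut T)) (Additive.ofMul ζ) 1) = ζ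
  rw [zmultiplesHom_apply, one_zsmul, toMul_ofMul]

theorem conj_eq_one [IsSimpleGroup T] (hT : ¬ ∀ a b : T, a * b = b * a) {t : T}
    (h : MulAut.conj t = 1) : t = 1 := by
  have h1 : t ∈ Subgroup.center T := by
    rw [Subgroup.mem_center_iff]
    intro x
    have h2 : MulAut.conj t x = x := by rw [h]; rfl
    rw [MulAut.conj_apply] at h2
    exact (mul_inv_eq_iff_eq_mul.1 h2).symm
  rw [center_bot hT, Subgroup.mem_bot] at h1
  exact h1

theorem cnt_shift (k : ℕ) (ζ : MulAut T) (a : T) :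
    cnt k T (MulAut.conj a * ζ) = cnt k T ζ := by
  refine Nat.card_congr (Equiv.subtypeEquiv (Equiv.mulRight a) (fun t => ?_))
  rw [← mul_assoc, ← map_mul]
  rfl

/-- The extension of `T` by a cyclic group of order `k`. -/
theorem phi_group [Finite T] [IsSimpleGroup T] (hT : ¬ ∀ a b : T, a * b = b * a) {k : ℕ}
    (hk : 1 < k) (ζ : MulAut T) (h0 : 0 < cnt k T ζ) :
    ∃ (G : Type) (_ : Group G) (i : T →* G), Finite G ∧ Function.Injective i ∧ i.range.Normal ∧
      (Nat.totient k : ℝ) * (cnt k T ζ : ℝ) + 1 ≤ rho k G * ((k : ℝ) * (Nat.card T : ℝ)) := by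
  classical
  haveI : NeZero k := ⟨by omega⟩
  haveI : Fact (1 < k) := ⟨hk⟩
  have hTpos : (0 : ℝ) < Nat.card T := by exact_mod_cast Nat.card_pos
  have hkpos : (0 : ℝ) < k := by exact_mod_cast (by omega : 0 < k)
  have h0' : 0 < cnt k T ζ := h0
  rw [cnt, Nat.card_pos_iff] at h0'
  obtain ⟨⟨a, ha⟩, -⟩ := h0'
  rw [← cnt_shift k ζ a]
  set ξ := MulAut.conj a * ζ with hξ
  let φ := cyc k ξ ha
  haveI : Finite (Multiplicative (ZMod k)) := inferInstanceAs (Finite (ZMod k))
  haveI : Finite (T ⋊[φ] Multiplicative (ZMod k)) :=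
    Finite.of_equiv _ (SemidirectProduct.equivProd (φ := φ)).symm
  let Ψ : T ⋊[φ] Multiplicative (ZMod k) →* MulAut T :=
    SemidirectProduct.lift MulAut.conj φ (by
      intro c
      ext t x
      simp [MulAut.conj_apply])
  have hpow : ∀ t : T, (MulAut.conj t * ξ) ^ k = 1 →
      (⟨t, Multiplicative.ofAdd 1⟩ : T ⋊[φ] Multiplicative (ZMod k)) ^ k = 1 := by
    intro t ht
    set x : T ⋊[φ] Multiplicative (ZMod k) := ⟨t, Multiplicative.ofAdd 1⟩ with hx
    have h1 : Ψ x = MulAut.conj t * ξ := by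
      change MulAut.conj t * φ (Multiplicative.ofAdd 1) = MulAut.conj t * ξ
      rw [cyc_one]
    have h2 : (x ^ k).right = 1 := by
      change SemidirectProduct.rightHom (x ^ k) = 1
      rw [map_pow]
      change (Multiplicative.ofAdd (1 : ZMod k)) ^ k = 1
      rw [← ofAdd_nsmul, nsmul_eq_mul, ZMod.natCast_self, zero_mul, ofAdd_zero]
    have h3 : Ψ (x ^ k) = 1 := by rw [map_pow, h1, ht]
    have h4 : MulAut.conj (x ^ k).left = 1 := by
      have h5 : Ψ (x ^ k) = MulAut.conj (x ^ k).left * φ (x ^ k).right := rfl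
      rw [h5, h2, map_one, mul_one] at h3
      exact h3
    exact SemidirectProduct.ext (conj_eq_one hT h4) h2
  -- the injection
  have hmod : ∀ (x : T ⋊[φ] Multiplicative (ZMod k)), x ^ k = 1 → ∀ n : ℕ, x ^ n = x ^ (n % k) := by
    intro x hx n
    conv_lhs => rw [← Nat.div_add_mod n k]
    rw [pow_add, pow_mul, hx, one_pow, one_mul]
  let F : {t : T // (MulAut.conj t * ξ) ^ k = 1} × (ZMod k)ˣ →
      {x : T ⋊[φ] Multiplicative (ZMod k) // x ^ k = 1} := fun p =>
    ⟨(⟨p.1.1, Multiplicative.ofAdd 1⟩ : T ⋊[φ] Multiplicative (ZMod k)) ^ (p.2 : ZMod k).val, by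
      rw [← pow_mul, mul_comm, pow_mul, hpow p.1.1 p.1.2, one_pow]⟩
  have h2 : ∀ (s : T) (m : ZMod k), SemidirectProduct.rightHom
      ((⟨s, Multiplicative.ofAdd 1⟩ : T ⋊[φ] Multiplicative (ZMod k)) ^ m.val) =
      Multiplicative.ofAdd m := by
    intro s m
    rw [map_pow]
    change (Multiplicative.ofAdd (1 : ZMod k)) ^ m.val = _
    rw [← ofAdd_nsmul, nsmul_eq_mul, ZMod.natCast_zmod_val, mul_one]
  have hF : Function.Injective F := by
    rintro ⟨⟨t, ht⟩, u⟩ ⟨⟨t', ht'⟩, u'⟩ h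
    have h1 : (⟨t, Multiplicative.ofAdd 1⟩ : T ⋊[φ] Multiplicative (ZMod k)) ^ (u : ZMod k).val =
        (⟨t', Multiplicative.ofAdd 1⟩ : T ⋊[φ] Multiplicative (ZMod k)) ^ (u' : ZMod k).val :=
      congrArg Subtype.val h
    have h3 : (u : ZMod k) = u' := by
      have h4 := congrArg SemidirectProduct.rightHom h1
      rw [h2, h2] at h4
      exact Multiplicative.ofAdd.injective h4
    have h5 : u = u' := Units.ext h3
    subst h5
    have h6 : ((u : ZMod k).val * ((u⁻¹ : (ZMod k)ˣ) : ZMod k).val) % k = 1 % k := by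
      rw [← ZMod.natCast_eq_natCast_iff', Nat.cast_mul, ZMod.natCast_zmod_val,
        ZMod.natCast_zmod_val, Nat.cast_one, Units.mul_inv]
    have h7 := congrArg (fun x => x ^ ((u⁻¹ : (ZMod k)ˣ) : ZMod k).val) h1
    simp only [← pow_mul] at h7
    rw [hmod _ (hpow t ht), hmod _ (hpow t' ht') ((u : ZMod k).val * _), h6,
      ← hmod _ (hpow t ht), ← hmod _ (hpow t' ht'), pow_one, pow_one] at h7
    have h8 : t = t' := congrArg SemidirectProduct.left h7
    subst h8
    rfl
  have hF1 : ∀ p, F p ≠ ⟨1, one_pow k⟩ := by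
    rintro ⟨⟨t, ht⟩, u⟩ h
    have h10 : (⟨t, Multiplicative.ofAdd 1⟩ : T ⋊[φ] Multiplicative (ZMod k)) ^ (u : ZMod k).val =
        1 := congrArg Subtype.val h
    have h11 := congrArg SemidirectProduct.rightHom h10
    rw [h2, map_one] at h11
    exact u.ne_zero (Multiplicative.ofAdd.injective h11)
  let F' : Option ({t : T // (MulAut.conj t * ξ) ^ k = 1} × (ZMod k)ˣ) →
      {x : T ⋊[φ] Multiplicative (ZMod k) // x ^ k = 1} := fun o =>
    o.elim ⟨1, one_pow k⟩ F
  have hF' : Function.Injective F' := by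
    intro a b hab
    rcases a with _ | a <;> rcases b with _ | b
    · rfl
    · exact absurd hab.symm (hF1 b)
    · exact absurd hab (hF1 a)
    · exact congrArg some (hF hab)
  have hcard := Nat.card_le_card_of_injective F' hF'
  have hunits : Nat.card (ZMod k)ˣ = Nat.totient k := by
    rw [Nat.card_eq_fintype_card, ZMod.card_units_eq_totient]
  rw [Finite.card_option, Nat.card_prod, hunits] at hcard
  have hnorm : (SemidirectProduct.inl : T →* T ⋊[φ] Multiplicative (ZMod k)).range.Normal := by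
    rw [SemidirectProduct.range_inl_eq_ker_rightHom]
    infer_instance
  refine ⟨T ⋊[φ] Multiplicative (ZMod k), inferInstance, SemidirectProduct.inl, inferInstance,
    SemidirectProduct.inl_injective, hnorm, ?_⟩
  have hcZ : Nat.card (Multiplicative (ZMod k)) = k := by
    change Nat.card (ZMod k) = k
    exact Nat.card_zmod k
  have h9 : (Nat.totient k : ℝ) * (cnt k T ξ : ℝ) + 1 ≤
      (Nat.card {x : T ⋊[φ] Multiplicative (ZMod k) // x ^ k = 1} : ℝ) := by
    have : Nat.totient k * cnt k T ξ + 1 ≤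
        Nat.card {x : T ⋊[φ] Multiplicative (ZMod k) // x ^ k = 1} := by
      rw [mul_comm]; exact hcard
    exact_mod_cast this
  refine h9.trans (le_of_eq ?_)
  rw [rho_eq, SemidirectProduct.card, hcZ]
  push_cast
  field_simp

theorem phi_bound [Finite T] [IsSimpleGroup T] (hT : ¬ ∀ a b : T, a * b = b * a) {k : ℕ}
    (hk : 1 < k) (ζ : MulAut T) (h0 : 0 < cnt k T ζ) :
    (Nat.totient k : ℝ) * (cnt k T ζ : ℝ) + 1 ≤ eps k * ((k : ℝ) * (Nat.card T : ℝ)) := by
  obtain ⟨G, _, i, _, hi, -, h⟩ := phi_group hT hk ζ h0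
  have hns : ¬ Group.IsSolvable G := by
    intro hsol
    exact not_solvable_of_simple hT (Group.isSolvable_of_isSolvable_injective hi)
  refine h.trans (mul_le_mul_of_nonneg_right (le_eps hns) ?_)
  positivity

end phi

end Pool.Agent.Lib.MP_bacaed_al
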