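import Pool.Agent.Lib.MP_bacaed_al.ManyB
import Pool.Agent.Lib.MP_bacaed_al.ManyC
import Pool.Agent.Lib.MP_bacaed_al.Exist

/-! If `eps k = 1/2`, `k` odd: not attained, and a bound away from `1/2` for small factors. -/

namespace Pool.Agent.Lib.MP_bacaed_al

theorem not_attained {k : ℕ} (hk : Odd k) (h : eps k = 1 / 2) (G : Type) [Group G] [Finite G]
    (hG : ¬ Group.IsSolvable G) : rho k G < 1 / 2 := by
  refine lt_of_le_of_ne (h ▸ le_eps hG) ?_
  intro heq
  have hGpos : (0 : ℝ) < Nat.card G := by exact_mod_cast Nat.card_pos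
  rw [rho_eq, div_eq_iff hGpos.ne'] at heq
  have h1 : Nat.card G = 2 * Nat.card {t : G // t ^ k = 1} := by
    have : (Nat.card G : ℝ) = 2 * (Nat.card {t : G // t ^ k = 1} : ℝ) := by linarith
    exact_mod_cast this
  obtain ⟨φ, hφ⟩ := exists_sign (odd_card (G := G) hk) h1
  -- all elements of the kernel have `k`-th power one
  have hall : ∀ x ∈ φ.ker, x ^ k = 1 := by
    let j : {t : G // t ^ k = 1} → φ.ker := fun t => ⟨t.1, sign_of_pow φ hk t.2⟩
    have hj : Function.Injective j := by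
      intro a b hab
      exact Subtype.ext (congrArg (fun t : φ.ker => (t : G)) hab)
    haveI : Fintype {t : G // t ^ k = 1} := Fintype.ofFinite _
    haveI : Fintype φ.ker := Fintype.ofFinite _
    have hbij : Function.Bijective j := by
      rw [Fintype.bijective_iff_injective_and_card]
      refine ⟨hj, ?_⟩
      rw [← Nat.card_eq_fintype_card, ← Nat.card_eq_fintype_card, hφ]
    intro x hx
    obtain ⟨t, ht⟩ := hbij.2 ⟨x, hx⟩
    have : t.1 = x := congrArg (fun t : φ.ker => (t : G)) ht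
    rw [← this]
    exact t.2
  have hns : ¬ Group.IsSolvable φ.ker := by
    intro hsol
    apply hG
    exact Group.isSolvable_of_ker_le_range φ.ker.subtype φ (by simp)
  have hone : rho k φ.ker = 1 := by
    have h2 : (0 : ℝ) < Nat.card φ.ker := by exact_mod_cast Nat.card_pos
    rw [rho_eq, div_eq_one_iff_eq h2.ne']
    congr 1
    refine Nat.card_congr (Equiv.subtypeUnivEquiv (fun x => ?_))
    apply Subtype.ext
    exact hall x.1 x.2
  have h3 := le_eps (k := k) hns
  rw [hone, h] at h3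
  norm_num at h3

/-- `rho k G ≤ 1/2 - 1/(2B)` if `|G| ≤ B`. -/
theorem rho_le_of_card {k : ℕ} (G : Type) [Group G] [Finite G]
    (h1 : rho k G < 1 / 2) {B : ℕ} (hB : Nat.card G ≤ B) :
    rho k G ≤ 1 / 2 - 1 / (2 * (B : ℝ)) := by
  have hGpos : (0 : ℝ) < Nat.card G := by exact_mod_cast Nat.card_pos
  have hB' : (Nat.card G : ℝ) ≤ B := by exact_mod_cast hB
  have hBpos : (0 : ℝ) < B := lt_of_lt_of_le hGpos hB'
  rw [rho_eq, div_lt_iff₀ hGpos] at h1
  have h2 : 2 * Nat.card {t : G // t ^ k = 1} < Nat.card G := by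
    have : 2 * (Nat.card {t : G // t ^ k = 1} : ℝ) < (Nat.card G : ℝ) := by linarith
    exact_mod_cast this
  have h3 : 2 * Nat.card {t : G // t ^ k = 1} + 1 ≤ Nat.card G := h2
  have h4 : 2 * (Nat.card {t : G // t ^ k = 1} : ℝ) + 1 ≤ (Nat.card G : ℝ) := by
    exact_mod_cast h3
  have h5 : 1 / (2 * (B : ℝ)) ≤ 1 / (2 * (Nat.card G : ℝ)) :=
    one_div_le_one_div_of_le (by positivity) (by linarith)
  have h6 : rho k G ≤ 1 / 2 - 1 / (2 * (Nat.card G : ℝ)) := by
    rw [rho_eq, div_le_iff₀ hGpos]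
    have h7 : (1 / 2 - 1 / (2 * (Nat.card G : ℝ))) * (Nat.card G : ℝ) =
        (Nat.card G : ℝ) / 2 - 1 / 2 := by
      field_simp
    rw [h7]
    linarith
  linarith

/-- The main bound: a factor of order at most `n` none of whose cosets is full. -/
theorem gap {k : ℕ} (hk0 : 0 < k)
    (h : ∀ (G : Type) [Group G] [Finite G], ¬ Group.IsSolvable G → rho k G < 1 / 2)
    (n : ℕ) (hn : 0 < n) :
    ∃ η : ℝ, 0 < η ∧ ∀ (T : Type) [Group T] [IsSimpleGroup T] [Finite T],
      (¬ ∀ a b : T, a * b = b * a) → Nat.card T ≤ n → (∀ ζ : MulAut T, cnt k T ζ < Nat.card T) →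
      ∀ (G : Type) [Group G] [Finite G], HasFactor T G → rho k G ≤ 1 / 2 - η := by
  have hn1 : (1 : ℝ) ≤ n := by exact_mod_cast hn
  have hc0 : (0 : ℝ) ≤ 1 - 1 / n := by
    rw [sub_nonneg, div_le_one (by linarith)]
    exact hn1
  have hc1 : (1 : ℝ) - 1 / n < 1 := by
    have : (0 : ℝ) < 1 / n := by positivity
    linarith
  obtain ⟨r, hr⟩ := exists_pow_lt_of_lt_one (show (0 : ℝ) < 1 / 4 by norm_num) hc1
  set B : ℕ := (k * r * n ^ n).factorial with hB
  have hBpos : (0 : ℝ) < B := by exact_mod_cast Nat.factorial_pos _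
  refine ⟨min (1 / 4) (1 / (2 * (B : ℝ))), lt_min (by norm_num) (by positivity), ?_⟩
  intro T _ _ _ hT hTn hfull G _ _ hF
  obtain ⟨Q, _, f, M, S, hf, hM, hSM, hS, ⟨e⟩⟩ := hF
  haveI : Finite Q := Finite.of_surjective f hf
  haveI : IsSimpleGroup S := e.isSimpleGroup
  have hST : ¬ ∀ a b : S, a * b = b * a := by
    intro hab
    apply hT
    intro a b
    have := hab (e.symm a) (e.symm b)
    rw [← map_mul, ← map_mul] at this
    exact e.symm.injective this
  have hcS : Nat.card S = Nat.card T := Nat.card_congr e.toEquiv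
  have hSpos : 0 < Nat.card S := Nat.card_pos
  have hSn : Nat.card S ≤ n := hcS ▸ hTn
  refine (rho_le_quot f hf k).trans ?_
  by_cases hind : k * r ≤ (Subgroup.normalizer (S : Set Q)).index
  · -- many conjugates
    have hC : ∀ ζ : MulAut S, cnt k S ζ ≤ Nat.card S - 1 := by
      intro ζ
      have h1 := hfull (MulAut.congr e ζ)
      rw [cnt_congr, ← hcS] at h1
      omega
    have h1 := many_conj M S hM hSM hS k (Nat.card S - 1) hk0 hC r hind
    have h2 : (Nat.card {g : Q // g ^ k = 1} : ℝ) * (Nat.card S : ℝ) ^ r ≤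
        (Nat.card Q : ℝ) * ((Nat.card S : ℝ) - 1) ^ r := by
      have h3 : ((Nat.card S - 1 : ℕ) : ℝ) = (Nat.card S : ℝ) - 1 := by
        rw [Nat.cast_sub hSpos, Nat.cast_one]
      rw [← h3]
      exact_mod_cast h1
    have hQ : (0 : ℝ) < Nat.card Q := by exact_mod_cast Nat.card_pos
    have hS' : (0 : ℝ) < Nat.card S := by exact_mod_cast hSpos
    have h4 : rho k Q ≤ (((Nat.card S : ℝ) - 1) / (Nat.card S : ℝ)) ^ r := by
      rw [rho_eq, div_pow, div_le_div_iff₀ hQ (pow_pos hS' r), mul_comm (_ ^ r) (Nat.card Q : ℝ)]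
      exact h2
    have h5 : ((Nat.card S : ℝ) - 1) / (Nat.card S : ℝ) ≤ 1 - 1 / n := by
      rw [sub_div, div_self hS'.ne']
      have : (1 : ℝ) / n ≤ 1 / (Nat.card S : ℝ) :=
        one_div_le_one_div_of_le hS' (by exact_mod_cast hSn)
      linarith
    have h6 : (0 : ℝ) ≤ ((Nat.card S : ℝ) - 1) / (Nat.card S : ℝ) := by
      apply div_nonneg _ hS'.le
      have : (1 : ℝ) ≤ Nat.card S := by exact_mod_cast hSpos
      linarith
    have h7 := h4.trans (pow_le_pow_left₀ h6 h5 r)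
    have h8 : min (1 / 4 : ℝ) (1 / (2 * (B : ℝ))) ≤ 1 / 4 := min_le_left _ _
    linarith
  · -- few conjugates
    push Not at hind
    obtain ⟨Q', _, f', hf', _, hns, hcard⟩ := few_conj S hST
    have h1 : Nat.card Q' ≤ B := by
      refine hcard.trans (Nat.factorial_le ?_)
      refine Nat.mul_le_mul hind.le ?_
      exact (Nat.pow_le_pow_left hSn _).trans (Nat.pow_le_pow_right hn hSn)
    have h2 := rho_le_of_card Q' (h Q' hns) h1
    have h3 : min (1 / 4 : ℝ) (1 / (2 * (B : ℝ))) ≤ 1 / (2 * (B : ℝ)) := min_le_right _ _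
    have h4 := rho_le_quot f' hf' k
    linarith

/-- If `eps k = 1/2` and the value is not attained, the factors `T` are unbounded. -/
theorem unbounded {k : ℕ} (hk : 0 < k) (h : eps k = 1 / 2)
    (hatt : ∀ (G : Type) [Group G] [Finite G], ¬ Group.IsSolvable G → rho k G < 1 / 2) (n : ℕ) :
    ∃ (T : Type) (_ : Group T) (ζ : MulAut T), Finite T ∧ IsSimpleGroup T ∧
      (¬ ∀ a b : T, a * b = b * a) ∧ 1 / 2 - 1 / (2 * ((n : ℝ) + 1)) < cosetRho k T ζ ∧
      (n < Nat.card T ∨ (2 * Nat.totient k < k ∧ ∃ ξ : MulAut T,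
        ξ ∉ (MulAut.conj : T →* MulAut T).range ∧
        ∀ t : T, orderOf (MulAut.conj t * ξ) ∣ k)) := by
  obtain ⟨η, hη, hgap⟩ := gap hk hatt (n + 1) (Nat.succ_pos n)
  have hn : (0 : ℝ) < 1 / (2 * ((n : ℝ) + 1)) := by positivity
  have hlt : 1 / 2 - min η (1 / (2 * ((n : ℝ) + 1))) < eps k := by
    rw [h]
    have := lt_min hη hn
    linarith
  have hne : {x : ℝ | ∃ (G : Type) (_ : Group G), Finite G ∧ ¬ Group.IsSolvable G ∧
      rho k G = x}.Nonempty := by
    by_contra hemp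
    rw [Set.not_nonempty_iff_eq_empty] at hemp
    rw [eps, hemp, Real.sSup_empty] at h
    norm_num at h
  obtain ⟨x, ⟨G, _, hfin, hG, rfl⟩, hx⟩ := exists_lt_of_lt_csSup hne hlt
  obtain ⟨T, _, hTfin, hTs, hT, hF⟩ := exists_factor _ G rfl hG
  obtain ⟨ζ, hζ⟩ := rho_le_cosetRho hF k
  have h1 : min η (1 / (2 * ((n : ℝ) + 1))) ≤ η := min_le_left _ _
  have h2 : min η (1 / (2 * ((n : ℝ) + 1))) ≤ 1 / (2 * ((n : ℝ) + 1)) := min_le_right _ _
  have hlow : 1 / 2 - 1 / (2 * ((n : ℝ) + 1)) < cosetRho k T ζ := by linarith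
  refine ⟨T, inferInstance, ζ, hTfin, hTs, hT, hlow, ?_⟩
  by_cases hnT : n < Nat.card T
  · left; exact hnT
  right
  push Not at hnT
  have hTpos : 0 < Nat.card T := Nat.card_pos
  have hTpos' : (0 : ℝ) < Nat.card T := by exact_mod_cast hTpos
  obtain ⟨ξ, hξ⟩ : ∃ ξ : MulAut T, Nat.card T ≤ cnt k T ξ := by
    by_contra hcon
    push Not at hcon
    have h3 := hgap T hT (hnT.trans (Nat.le_succ n)) hcon G hF
    linarith
  have hfull : ∀ t : T, (MulAut.conj t * ξ) ^ k = 1 := by
    have hle : Nat.card {t : T // (MulAut.conj t * ξ) ^ k = 1} = Nat.card T :=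
      le_antisymm (Nat.card_le_card_of_injective _ Subtype.val_injective) hξ
    have hbij : Function.Bijective (Subtype.val : {t : T // (MulAut.conj t * ξ) ^ k = 1} → T) :=
      Function.Injective.bijective_of_nat_card_le Subtype.val_injective hle.ge
    intro t
    obtain ⟨s, hs⟩ := hbij.2 t
    rw [← hs]
    exact s.2
  refine ⟨?_, ξ, ?_, fun t => orderOf_dvd_of_pow_eq_one (hfull t)⟩
  · -- `2 φ(k) < k`
    rcases Nat.lt_or_ge 1 k with h1k | h1k
    · have h3 := phi_bound hT h1k ξ (lt_of_lt_of_le hTpos hξ)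
      rw [h] at h3
      have h4 : (Nat.card T : ℝ) ≤ cnt k T ξ := by exact_mod_cast hξ
      have h5 : (Nat.totient k : ℝ) * (Nat.card T : ℝ) ≤
          (Nat.totient k : ℝ) * (cnt k T ξ : ℝ) :=
        mul_le_mul_of_nonneg_left h4 (Nat.cast_nonneg _)
      have h6 : 2 * (Nat.totient k : ℝ) * (Nat.card T : ℝ) < (k : ℝ) * (Nat.card T : ℝ) := by
        linarith
      have h7 : 2 * (Nat.totient k : ℝ) < (k : ℝ) := lt_of_mul_lt_mul_right h6 hTpos'.le
      exact_mod_cast h7
    · exfalso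
      have hk1 : k = 1 := by omega
      subst hk1
      have h3 := hfull 1
      have h4 := hfull
      have h5 : ∀ t : T, t = 1 := by
        intro t
        have h6 := hfull t
        rw [pow_one] at h3 h6
        rw [map_one, one_mul] at h3
        rw [h3, mul_one] at h6
        exact conj_eq_one hT h6
      exact hT (fun a b => by rw [h5 a, h5 b])
  · intro hin
    have h3 := cosetRho_inner hT k ξ hin
    have h4 : (1 : ℝ) ≤ cosetRho k T ξ := by
      rw [cosetRho_eq, le_div_iff₀ hTpos', one_mul]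
      exact_mod_cast hξ
    have h5 := le_eps (k := k) (not_solvable_of_simple hT)
    rw [← h3, h] at h5
    linarith

end Pool.Agent.Lib.MP_bacaed_al
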