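import Mathlib

/-! A recursive bound for the number of permutations whose order divides `k`. -/

namespace Pool.Agent.Lib.MP_bacaed_al

open Equiv Equiv.Perm Finset

/-- The number of permutations `g` of `n` points with `g ^ k = 1`. -/
noncomputable def NN (k n : ℕ) : ℕ := Nat.card {g : Perm (Fin n) // g ^ k = 1}

theorem NN_eq (k : ℕ) (β : Type) [Fintype β] :
    Nat.card {g : Perm β // g ^ k = 1} = NN k (Fintype.card β) := by
  classical
  have e := Fintype.equivFin β
  refine Nat.card_congr (Equiv.subtypeEquiv (e.permCongrHom).toEquiv (fun g => ?_))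
  change g ^ k = 1 ↔ (e.permCongrHom g) ^ k = 1
  rw [← map_pow]
  constructor
  · intro h; rw [h, map_one]
  · intro h; exact e.permCongrHom.injective (by rw [h, map_one])

variable {α : Type} [Fintype α] [DecidableEq α]

theorem restr_le (k : ℕ) (c : Perm α) (A : Finset α) (hA : ∀ a, c a ∈ A ↔ a ∈ A) :
    Nat.card {g : Perm α // g ^ k = 1 ∧ ∀ a ∈ A, g a = c a} ≤ NN k (Fintype.card α - A.card) := by
  classical
  have hinv : ∀ g : Perm α, (∀ a ∈ A, g a = c a) → ∀ x, g x ∉ A ↔ x ∉ A := by
    intro g hg x
    have hcc : ∀ y, c (c⁻¹ y) = y := fun y => by simp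
    rw [not_iff_not]
    constructor
    · intro h
      have h1 : c⁻¹ (g x) ∈ A := by
        rw [← hA, hcc]; exact h
      have h2 : g (c⁻¹ (g x)) = g x := by
        rw [hg _ h1, hcc]
      have h3 := g.injective h2
      rwa [h3] at h1
    · intro h
      rw [hg x h, hA]; exact h
  have hcard : Fintype.card {x : α // x ∉ A} = Fintype.card α - A.card := by
    rw [Fintype.card_subtype_compl, Fintype.card_coe]
  rw [← hcard, ← NN_eq]
  refine Nat.card_le_card_of_injective
    (fun g : {g : Perm α // g ^ k = 1 ∧ ∀ a ∈ A, g a = c a} =>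
      (⟨g.1.subtypePerm (hinv g.1 g.2.2), ?_⟩ : {g : Perm {x : α // x ∉ A} // g ^ k = 1})) ?_
  · rw [subtypePerm_pow]
    apply Equiv.ext
    intro x
    apply Subtype.ext
    rw [subtypePerm_apply]
    change (g.1 ^ k) x.1 = x.1
    rw [g.2.1]
    rfl
  · intro g h hgh
    have h1 : g.1.subtypePerm (hinv g.1 g.2.2) = h.1.subtypePerm (hinv h.1 h.2.2) :=
      congrArg Subtype.val hgh
    apply Subtype.ext
    apply Equiv.ext
    intro x
    by_cases hx : x ∈ A
    · rw [g.2.2 x hx, h.2.2 x hx]
    · have h2 := congrArg (fun f : Perm {x : α // x ∉ A} => (f ⟨x, hx⟩ : α)) h1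
      exact h2

theorem count_points (g : Perm α) : Fintype.card α =
    (univ.filter (fun x => g x = x)).card + ∑ c ∈ g.cycleFactorsFinset, c.support.card := by
  have h1 : ∑ c ∈ g.cycleFactorsFinset, c.support.card = g.support.card := by
    rw [← sum_cycleType, cycleType_def]
    rfl
  rw [h1, ← card_compl_add_card g.support]
  congr 2
  ext x
  simp

/-- The recursive inequality. -/
theorem rec_ineq (k n : ℕ) : n * NN k n ≤ n * NN k (n - 1) +
    ∑ m ∈ (Finset.Icc 2 n).filter (fun m => m ∣ k), n.descFactorial m * NN k (n - m) := by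
  classical
  set E : Finset (Perm (Fin n)) := univ.filter (fun g => g ^ k = 1) with hE
  have hNE : NN k n = E.card := by
    rw [NN, Nat.card_eq_fintype_card, Fintype.card_subtype]
  have h0 : n * NN k n = ∑ g ∈ E, ((univ.filter (fun x => g x = x)).card +
      ∑ c ∈ g.cycleFactorsFinset, c.support.card) := by
    rw [Finset.sum_congr rfl (fun g _ => (count_points g).symm), Finset.sum_const,
      Fintype.card_fin, smul_eq_mul, hNE, mul_comm]
  rw [h0, Finset.sum_add_distrib]
  refine Nat.add_le_add ?_ ?_
  · -- fixed points
    have h1 : ∑ g ∈ E, (univ.filter (fun x => g x = x)).card =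
        ∑ x : Fin n, (E.filter (fun g => g x = x)).card := by
      simp_rw [Finset.card_filter]
      exact Finset.sum_comm
    rw [h1]
    have h2 : ∀ x : Fin n, (E.filter (fun g => g x = x)).card ≤ NN k (n - 1) := by
      intro x
      have h3 := restr_le k (1 : Perm (Fin n)) {x} (fun a => Iff.rfl)
      rw [Fintype.card_fin, Finset.card_singleton, Nat.card_eq_fintype_card,
        Fintype.card_subtype] at h3
      refine le_trans (le_of_eq ?_) h3
      congr 1
      ext g
      simp [hE]
    calc ∑ x : Fin n, (E.filter (fun g => g x = x)).card ≤ ∑ _x : Fin n, NN k (n - 1) :=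
          Finset.sum_le_sum (fun x _ => h2 x)
      _ = n * NN k (n - 1) := by rw [Finset.sum_const, Finset.card_univ, Fintype.card_fin,
            smul_eq_mul]
  · -- cycles
    set C : Finset (Perm (Fin n)) := univ.filter
      (fun c => c.IsCycle ∧ c.support.card ∣ k) with hC
    have h1 : ∑ g ∈ E, ∑ c ∈ g.cycleFactorsFinset, c.support.card =
        ∑ c ∈ C, c.support.card * (E.filter (fun g => c ∈ g.cycleFactorsFinset)).card := by
      have h2 : ∀ g ∈ E, ∑ c ∈ g.cycleFactorsFinset, c.support.card =
          ∑ c ∈ C, if c ∈ g.cycleFactorsFinset then c.support.card else 0 := by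
        intro g hg
        rw [← Finset.sum_filter]
        refine Finset.sum_congr ?_ (fun _ _ => rfl)
        ext c
        rw [Finset.mem_filter]
        constructor
        · intro hc
          refine ⟨?_, hc⟩
          rw [hC, Finset.mem_filter]
          refine ⟨Finset.mem_univ _, (mem_cycleFactorsFinset_iff.1 hc).1, ?_⟩
          have h3 : c.support.card ∈ g.cycleType := by
            rw [cycleType_def]
            exact Multiset.mem_map.2 ⟨c, hc, rfl⟩
          have h4 : g ^ k = 1 := (Finset.mem_filter.1 hg).2
          exact (dvd_of_mem_cycleType h3).trans (orderOf_dvd_of_pow_eq_one h4)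
        · exact fun h => h.2
      rw [Finset.sum_congr rfl h2, Finset.sum_comm]
      refine Finset.sum_congr rfl (fun c _ => ?_)
      rw [← Finset.sum_filter, Finset.sum_const, smul_eq_mul, mul_comm]
    rw [h1]
    have h5 : ∀ c ∈ C, c.support.card * (E.filter (fun g => c ∈ g.cycleFactorsFinset)).card ≤
        c.support.card * NN k (n - c.support.card) := by
      intro c hc
      refine Nat.mul_le_mul_left _ ?_
      have h3 := restr_le k c c.support (fun a => by rw [apply_mem_support])
      rw [Fintype.card_fin, Nat.card_eq_fintype_card, Fintype.card_subtype] at h3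
      refine le_trans (Finset.card_le_card ?_) h3
      intro g hg
      rw [Finset.mem_filter] at hg ⊢
      refine ⟨Finset.mem_univ _, (Finset.mem_filter.1 hg.1).2, fun a ha => ?_⟩
      exact ((mem_cycleFactorsFinset_iff.1 hg.2).2 a ha).symm
    refine (Finset.sum_le_sum h5).trans ?_
    -- group by the length of the cycle
    have hmaps : ∀ c ∈ C, c.support.card ∈ (Finset.Icc 2 n).filter (fun m => m ∣ k) := by
      intro c hc
      rw [hC, Finset.mem_filter] at hc
      rw [Finset.mem_filter, Finset.mem_Icc]
      refine ⟨⟨hc.2.1.two_le_card_support, ?_⟩, hc.2.2⟩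
      have := Finset.card_le_univ c.support
      rwa [Fintype.card_fin] at this
    rw [← Finset.sum_fiberwise_of_maps_to hmaps]
    refine Finset.sum_le_sum (fun m hm => ?_)
    rw [Finset.mem_filter, Finset.mem_Icc] at hm
    have h6 : ∀ c ∈ C.filter (fun c => c.support.card = m),
        c.support.card * NN k (n - c.support.card) = m * NN k (n - m) := by
      intro c hc
      rw [(Finset.mem_filter.1 hc).2]
    rw [Finset.sum_congr rfl h6, Finset.sum_const, smul_eq_mul]
    have h7 : (C.filter (fun c => c.support.card = m)).card ≤ (m - 1).factorial * n.choose m := by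
      have h8 := card_of_cycleType_singleton (α := Fin n) hm.1.1
        (by rw [Fintype.card_fin]; exact hm.1.2)
      rw [Fintype.card_fin] at h8
      rw [← h8]
      refine Finset.card_le_card ?_
      intro c hc
      rw [Finset.mem_filter, hC, Finset.mem_filter] at hc
      rw [Finset.mem_filter]
      exact ⟨Finset.mem_univ _, by rw [hc.1.2.1.cycleType, hc.2]⟩
    have h9 : (m - 1).factorial * n.choose m * m = n.descFactorial m := by
      rw [Nat.descFactorial_eq_factorial_mul_choose]
      have : m.factorial = (m - 1).factorial * m := by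
        rw [mul_comm, Nat.mul_factorial_pred (by omega)]
      rw [this]; ring
    calc (C.filter (fun c => c.support.card = m)).card * (m * NN k (n - m)) ≤
        (m - 1).factorial * n.choose m * (m * NN k (n - m)) := Nat.mul_le_mul_right _ h7
      _ = n.descFactorial m * NN k (n - m) := by rw [← h9]; ring

end Pool.Agent.Lib.MP_bacaed_al
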