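import Pool.Agent.Lib.MP_bacaed_al.AutD

/-! The automorphisms of the alternating group of degree six which do not preserve the 3-cycles. -/

namespace Pool.Agent.Lib.MP_bacaed_al

open Equiv Equiv.Perm

/-- The alternating group of degree six. -/
abbrev A6 : Type := alternatingGroup (Fin 6)

/-- The automorphism `ψ` maps the 3-cycles to the products of two disjoint 3-cycles. -/
def Exo (ψ : MulAut A6) : Prop :=
  ∀ x : A6, (x : Perm (Fin 6)).IsThreeCycle →
    (ψ x : Perm (Fin 6)).cycleType = Multiset.replicate 2 3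

theorem type_conj (c x : A6) :
    ((c * x * c⁻¹ : A6) : Perm (Fin 6)).cycleType = (x : Perm (Fin 6)).cycleType := by
  have e : ((c * x * c⁻¹ : A6) : Perm (Fin 6)) =
      (c : Perm (Fin 6)) * (x : Perm (Fin 6)) * (c : Perm (Fin 6))⁻¹ := rfl
  rw [e, cycleType_conj]

theorem three_ne_six : (Multiset.replicate 1 3 : Multiset ℕ) ≠ Multiset.replicate 2 3 := by
  intro h
  have := congrArg Multiset.card h
  simp at this

theorem dichotomy (ψ : MulAut A6) :
    (∀ x : A6, (x : Perm (Fin 6)).IsThreeCycle → (ψ x : Perm (Fin 6)).IsThreeCycle) ∨ Exo ψ := by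
  by_cases h : ∀ x : A6, (x : Perm (Fin 6)).IsThreeCycle → (ψ x : Perm (Fin 6)).IsThreeCycle
  · left; exact h
  right
  push Not at h
  obtain ⟨x, hx, hx'⟩ := h
  have h2 : (ψ x : Perm (Fin 6)).cycleType = Multiset.replicate 2 3 := by
    rcases image_type (α := Fin 6) (by simp) ψ hx with h | h
    · exact absurd h hx'
    · exact h.2
  intro g hg
  obtain ⟨c, hc⟩ := isConj_iff.1 (alternatingGroup.isThreeCycle_isConj
    (by rw [Nat.card_eq_fintype_card]; simp) hx hg)
  rw [← hc, map_mul, map_mul, map_inv, type_conj]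
  exact h2

theorem three_or {g : A6} (h : orderOf (g : Perm (Fin 6)) = 3) :
    (g : Perm (Fin 6)).cycleType = Multiset.replicate 1 3 ∨
      (g : Perm (Fin 6)).cycleType = Multiset.replicate 2 3 := by
  obtain ⟨n, hn⟩ := three_type h
  have hle := sum_cycleType_le (g : Perm (Fin 6))
  rw [hn, Multiset.sum_replicate, smul_eq_mul, Fintype.card_fin] at hle
  have hn1 : n = 0 ∨ n = 1 := by omega
  rcases hn1 with rfl | rfl
  · left; exact hn
  · right; exact hn

theorem order_img (ψ : MulAut A6) (x : A6) :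
    orderOf (ψ x : Perm (Fin 6)) = orderOf (x : Perm (Fin 6)) := by
  rw [Subgroup.orderOf_coe, MulEquiv.orderOf_eq, ← Subgroup.orderOf_coe]

theorem Exo.img {ψ : MulAut A6} (hψ : Exo ψ) (y : A6)
    (hy : (y : Perm (Fin 6)).cycleType = Multiset.replicate 2 3) :
    (ψ y : Perm (Fin 6)).IsThreeCycle := by
  let F1 := Finset.univ.filter (fun g : A6 => (g : Perm (Fin 6)).cycleType =
      Multiset.replicate 1 3)
  let F2 := Finset.univ.filter (fun g : A6 => (g : Perm (Fin 6)).cycleType =
      Multiset.replicate 2 3)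
  have m1 : ∀ g : A6, g ∈ F1 ↔ (g : Perm (Fin 6)).cycleType = Multiset.replicate 1 3 := by
    intro g; simp [F1]
  have m2 : ∀ g : A6, g ∈ F2 ↔ (g : Perm (Fin 6)).cycleType = Multiset.replicate 2 3 := by
    intro g; simp [F2]
  have c1 : F1.card = 40 := card_F1 (by simp)
  have c2 : F2.card = 40 := card_F2 (by simp)
  have himg : F1.image ψ = F2 := by
    apply Finset.eq_of_subset_of_card_le
    · intro y hy
      obtain ⟨g, hg, rfl⟩ := Finset.mem_image.1 hy
      rw [m2]
      exact hψ g ((m1 g).1 hg)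
    · rw [Finset.card_image_of_injective _ ψ.injective, c1, c2]
  have hord : orderOf (ψ y : Perm (Fin 6)) = 3 := by
    rw [order_img, ← lcm_cycleType, hy]
    decide
  rcases three_or hord with h | h
  · exact h
  · exfalso
    have h3 : ψ y ∈ F1.image ψ := by rw [himg, m2]; exact h
    obtain ⟨g', hg', he⟩ := Finset.mem_image.1 h3
    have h4 := ψ.injective he
    rw [h4, m1, hy] at hg'
    exact three_ne_six hg'.symm

theorem Exo.inv {ψ : MulAut A6} (hψ : Exo ψ) : Exo ψ⁻¹ := by
  intro x hx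
  have hord : orderOf (ψ⁻¹ x : Perm (Fin 6)) = 3 := by
    rw [order_img]; exact hx.orderOf
  rcases three_or hord with h | h
  · exfalso
    have h1 := hψ (ψ⁻¹ x) h
    rw [MulAut.apply_inv_self, hx] at h1
    exact three_ne_six h1
  · exact h

theorem Exo.conj_mul {ψ : MulAut A6} (hψ : Exo ψ) (t : A6) : Exo (MulAut.conj t * ψ) := by
  intro x hx
  rw [MulAut.mul_apply, MulAut.conj_apply, type_conj]
  exact hψ x hx

theorem Exo.mul {ψ ζ : MulAut A6} (hψ : Exo ψ) (hζ : Exo ζ) : ¬ Exo (ψ * ζ) := by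
  intro h
  obtain ⟨x, hx⟩ : ∃ x : A6, (x : Perm (Fin 6)).IsThreeCycle :=
    ⟨⟨c3 0 1 2, (c3_three (by decide) (by decide) (by decide)).mem_alternatingGroup⟩,
      c3_three (by decide) (by decide) (by decide)⟩
  have h1 := h x hx
  rw [MulAut.mul_apply] at h1
  have h2 := hψ.img _ (hζ x hx)
  rw [h2] at h1
  exact three_ne_six h1

/-- An exotic automorphism inverts no element of order three. -/
theorem Exo.not_inv {ψ : MulAut A6} (hψ : Exo ψ) {c : A6} (hc : c ^ 3 = 1)
    (h : ψ c = c⁻¹) : c = 1 := by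
  by_contra hne
  have hord : orderOf (c : Perm (Fin 6)) = 3 := by
    rw [Subgroup.orderOf_coe]
    have : Fact (Nat.Prime 3) := ⟨Nat.prime_three⟩
    exact orderOf_eq_prime hc hne
  have hinv : ((c⁻¹ : A6) : Perm (Fin 6)).cycleType = (c : Perm (Fin 6)).cycleType := by
    have e : ((c⁻¹ : A6) : Perm (Fin 6)) = (c : Perm (Fin 6))⁻¹ := rfl
    rw [e, cycleType_inv]
  rcases three_or hord with h1 | h1
  · have h2 := hψ c h1
    rw [h, hinv, h1] at h2
    exact three_ne_six h2
  · have h2 := hψ.img c h1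
    rw [h, IsThreeCycle, hinv, h1] at h2
    exact three_ne_six h2.symm

end Pool.Agent.Lib.MP_bacaed_al
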