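import Pool.Agent.Lib.MP_bacaed_al.SixA

/-! Finite checks in the alternating group of degree six. -/

namespace Pool.Agent.Lib.MP_bacaed_al

open Equiv Equiv.Perm

def u0 : Perm (Fin 6) := swap 0 1 * swap 2 3
def a1 : Perm (Fin 6) := swap 0 2 * swap 1 3
def a2 : Perm (Fin 6) := swap 0 3 * swap 1 2
def b1 : Perm (Fin 6) := swap 0 1 * swap 4 5
def b2 : Perm (Fin 6) := swap 2 3 * swap 4 5

theorem chk_cent : (Finset.univ.filter (fun d : Perm (Fin 6) => d * u0 = u0 * d ∧ sign d = 1 ∧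
    ¬ (d * d = 1 ∧ d ≠ 1 ∧ d ≠ u0))).card = 4 := by
  decide +kernel

theorem chk_inv : ∀ d : Perm (Fin 6), d * u0 = u0 * d → d * d = 1 → d ≠ 1 → d ≠ u0 →
    sign d = 1 → d = a1 ∨ d = a2 ∨ d = b1 ∨ d = b2 := by
  decide +kernel

theorem chk_root : (Finset.univ.filter (fun d : Perm (Fin 6) => d * d = u0 ∧ sign d = 1)).card =
    2 := by
  decide +kernel

theorem chk_a1 : ∀ y : Perm (Fin 6), y * u0 = a1 * y → y * a1 = u0 * a1 * y → y ^ 3 = 1 →
    ∃ i, y i = i := by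
  decide +kernel

theorem chk_a2 : ∀ y : Perm (Fin 6), y * u0 = a2 * y → y * a2 = u0 * a2 * y → y ^ 3 = 1 →
    ∃ i, y i = i := by
  decide +kernel

theorem chk_b1 : ∀ y : Perm (Fin 6), y * u0 = b1 * y → y * b1 = u0 * b1 * y → y ^ 3 = 1 →
    ∀ i, y i ≠ i := by
  decide +kernel

theorem chk_b2 : ∀ y : Perm (Fin 6), y * u0 = b2 * y → y * b2 = u0 * b2 * y → y ^ 3 = 1 →
    ∀ i, y i ≠ i := by
  decide +kernel

theorem chk_three : ∀ c : Perm (Fin 6), c * c3 0 1 2 = c3 0 1 2 * c → sign c = 1 → c ^ 3 = 1 := by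
  decide +kernel

end Pool.Agent.Lib.MP_bacaed_al
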