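import Pool.Agent.Lib.MP_bacaed_al.SixB

/-! The exotic cosets of the alternating group of degree six: the stabiliser of an involution. -/

namespace Pool.Agent.Lib.MP_bacaed_al

open Equiv Equiv.Perm

theorem u0_mem : u0 ∈ alternatingGroup (Fin 6) := by
  rw [mem_alternatingGroup]; decide

/-- The involution `(0 1)(2 3)`. -/
def U : A6 := ⟨u0, u0_mem⟩

theorem U_coe : (U : Perm (Fin 6)) = u0 := rfl

theorem conj_mul_comm (φ : MulAut A6) (a : A6) :
    φ * MulAut.conj a = MulAut.conj (φ a) * φ := by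
  apply MulEquiv.ext
  intro x
  simp [MulAut.mul_apply, MulAut.conj_apply]

theorem rel_map {φ : MulAut A6} (hU : φ U = U) {x d : A6} (h1 : x * U = d * x)
    (h2 : x * d = U * d * x) (h3 : x ^ 3 = 1) :
    (φ x : Perm (Fin 6)) * u0 = (φ d : Perm (Fin 6)) * (φ x : Perm (Fin 6)) ∧
    (φ x : Perm (Fin 6)) * (φ d : Perm (Fin 6)) =
      u0 * (φ d : Perm (Fin 6)) * (φ x : Perm (Fin 6)) ∧ (φ x : Perm (Fin 6)) ^ 3 = 1 := by
  have e1 : φ x * U = φ d * φ x := by rw [← map_mul, ← h1, map_mul, hU]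
  have e2 : φ x * φ d = U * φ d * φ x := by
    have := congrArg φ h2
    rwa [map_mul, map_mul, map_mul, hU] at this
  have e3 : (φ x) ^ 3 = 1 := by rw [← map_pow, h3, map_one]
  exact ⟨congrArg Subtype.val e1, congrArg Subtype.val e2, congrArg Subtype.val e3⟩

theorem fix_three {y : Perm (Fin 6)} (h : y.IsThreeCycle) : ∃ i, y i = i := by
  by_contra hcon
  push Not at hcon
  have h1 : y.support = Finset.univ := by
    rw [Finset.eq_univ_iff_forall]
    intro i
    exact mem_support.2 (hcon i)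
  have h2 := h.card_support
  rw [h1, Finset.card_univ, Fintype.card_fin] at h2
  omega

theorem nofix_six {y : Perm (Fin 6)} (h : y.cycleType = Multiset.replicate 2 3) :
    ∀ i, y i ≠ i := by
  have h1 : y.support.card = 6 := by
    rw [← sum_cycleType, h]; rfl
  have h2 : y.support = Finset.univ := by
    apply Finset.eq_univ_of_card
    rw [h1, Fintype.card_fin]
  intro i
  have : i ∈ y.support := by rw [h2]; exact Finset.mem_univ i
  exact mem_support.1 this

def x1 : A6 := ⟨c3 1 2 3, (c3_three (by decide) (by decide) (by decide)).mem_alternatingGroup⟩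
def x2 : A6 := ⟨c3 1 3 2, (c3_three (by decide) (by decide) (by decide)).mem_alternatingGroup⟩
def y1 : A6 := ⟨c3 0 4 2 * c3 1 5 3, mul_mem
  (c3_three (by decide) (by decide) (by decide)).mem_alternatingGroup
  (c3_three (by decide) (by decide) (by decide)).mem_alternatingGroup⟩
def y2 : A6 := ⟨c3 0 2 4 * c3 1 3 5, mul_mem
  (c3_three (by decide) (by decide) (by decide)).mem_alternatingGroup
  (c3_three (by decide) (by decide) (by decide)).mem_alternatingGroup⟩

theorem x1_three : (x1 : Perm (Fin 6)).IsThreeCycle :=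
  c3_three (by decide) (by decide) (by decide)

theorem x2_three : (x2 : Perm (Fin 6)).IsThreeCycle :=
  c3_three (by decide) (by decide) (by decide)

theorem y_type {g : A6} (h3 : (g : Perm (Fin 6)) ^ 3 = 1)
    (hfix : ∀ i, (g : Perm (Fin 6)) i ≠ i) :
    (g : Perm (Fin 6)).cycleType = Multiset.replicate 2 3 := by
  have hne : (g : Perm (Fin 6)) ≠ 1 := by
    intro h
    exact hfix 0 (by rw [h]; rfl)
  have : Fact (Nat.Prime 3) := ⟨Nat.prime_three⟩
  rcases three_or (orderOf_eq_prime h3 hne) with h | h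
  · obtain ⟨i, hi⟩ := fix_three (y := (g : Perm (Fin 6))) h
    exact absurd hi (hfix i)
  · exact h

theorem y1_type : (y1 : Perm (Fin 6)).cycleType = Multiset.replicate 2 3 :=
  y_type (by decide +kernel) (by decide +kernel)

theorem y2_type : (y2 : Perm (Fin 6)).cycleType = Multiset.replicate 2 3 :=
  y_type (by decide +kernel) (by decide +kernel)

/-- The noncentral involutions of the centraliser of `U`. -/
def Nc (d : A6) : Prop := d * U = U * d ∧ d * d = 1 ∧ d ≠ 1 ∧ d ≠ U

theorem Nc.cases {d : A6} (h : Nc d) : ((d : Perm (Fin 6)) = a1 ∨ (d : Perm (Fin 6)) = a2) ∨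
    ((d : Perm (Fin 6)) = b1 ∨ (d : Perm (Fin 6)) = b2) := by
  have h1 := chk_inv (d : Perm (Fin 6)) (congrArg Subtype.val h.1) (congrArg Subtype.val h.2.1)
    (fun h' => h.2.2.1 (Subtype.ext h')) (fun h' => h.2.2.2 (Subtype.ext h'))
    (mem_alternatingGroup.1 d.2)
  tauto

theorem Nc.map {d : A6} (h : Nc d) {φ : MulAut A6} (hU : φ U = U) : Nc (φ d) := by
  refine ⟨?_, ?_, ?_, ?_⟩
  · have := congrArg φ h.1
    rwa [map_mul, map_mul, hU] at this
  · rw [← map_mul, h.2.1, map_one]
  · intro h'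
    exact h.2.2.1 (φ.injective (by rw [h', map_one]))
  · intro h'
    exact h.2.2.2 (φ.injective (by rw [h', hU]))

theorem swapV {φ : MulAut A6} (hφ : Exo φ) (hU : φ U = U) {d : A6} (hd : Nc d) :
    (φ d * d) * (φ d * d) = U := by
  have hd' := hd.map hU
  have hfin : ∀ p q : Perm (Fin 6), (φ d : Perm (Fin 6)) = p → (d : Perm (Fin 6)) = q →
      (p * q) * (p * q) = u0 → (φ d * d) * (φ d * d) = U := by
    intro p q h1 h2 h3
    apply Subtype.ext
    change ((φ d : Perm (Fin 6)) * (d : Perm (Fin 6))) *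
      ((φ d : Perm (Fin 6)) * (d : Perm (Fin 6))) = u0
    rw [h1, h2, h3]
  rcases hd.cases with h | h
  · -- `d` is `a1` or `a2`
    have hnot : ¬ ((φ d : Perm (Fin 6)) = a1 ∨ (φ d : Perm (Fin 6)) = a2) := by
      intro h'
      -- the 3-cycle
      obtain ⟨x, hx, hx1, hx2, hx3⟩ : ∃ x : A6, (x : Perm (Fin 6)).IsThreeCycle ∧
          x * U = d * x ∧ x * d = U * d * x ∧ x ^ 3 = 1 := by
        rcases h with h | h
        · refine ⟨x1, x1_three, Subtype.ext ?_, Subtype.ext ?_, Subtype.ext ?_⟩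
          · change c3 1 2 3 * u0 = (d : Perm (Fin 6)) * c3 1 2 3
            rw [h]; decide +kernel
          · change c3 1 2 3 * (d : Perm (Fin 6)) = u0 * (d : Perm (Fin 6)) * c3 1 2 3
            rw [h]; decide +kernel
          · change (c3 1 2 3 : Perm (Fin 6)) ^ 3 = 1
            decide +kernel
        · refine ⟨x2, x2_three, Subtype.ext ?_, Subtype.ext ?_, Subtype.ext ?_⟩
          · change c3 1 3 2 * u0 = (d : Perm (Fin 6)) * c3 1 3 2
            rw [h]; decide +kernel
          · change c3 1 3 2 * (d : Perm (Fin 6)) = u0 * (d : Perm (Fin 6)) * c3 1 3 2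
            rw [h]; decide +kernel
          · change (c3 1 3 2 : Perm (Fin 6)) ^ 3 = 1
            decide +kernel
      obtain ⟨r1, r2, r3⟩ := rel_map hU hx1 hx2 hx3
      have hn := nofix_six (hφ x hx)
      rcases h' with h' | h'
      · rw [h'] at r1 r2
        obtain ⟨i, hi⟩ := chk_a1 _ r1 r2 r3
        exact hn i hi
      · rw [h'] at r1 r2
        obtain ⟨i, hi⟩ := chk_a2 _ r1 r2 r3
        exact hn i hi
    rcases hd'.cases with h' | h'
    · exact absurd h' hnot
    · rcases h with h | h <;> rcases h' with h' | h' <;>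
        exact hfin _ _ h' h (by decide +kernel)
  · have hnot : ¬ ((φ d : Perm (Fin 6)) = b1 ∨ (φ d : Perm (Fin 6)) = b2) := by
      intro h'
      obtain ⟨x, hx, hx1, hx2, hx3⟩ : ∃ x : A6,
          (x : Perm (Fin 6)).cycleType = Multiset.replicate 2 3 ∧
          x * U = d * x ∧ x * d = U * d * x ∧ x ^ 3 = 1 := by
        rcases h with h | h
        · refine ⟨y1, y1_type, Subtype.ext ?_, Subtype.ext ?_, Subtype.ext ?_⟩
          · change c3 0 4 2 * c3 1 5 3 * u0 = (d : Perm (Fin 6)) * (c3 0 4 2 * c3 1 5 3)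
            rw [h]; decide +kernel
          · change c3 0 4 2 * c3 1 5 3 * (d : Perm (Fin 6)) =
              u0 * (d : Perm (Fin 6)) * (c3 0 4 2 * c3 1 5 3)
            rw [h]; decide +kernel
          · change (c3 0 4 2 * c3 1 5 3 : Perm (Fin 6)) ^ 3 = 1
            decide +kernel
        · refine ⟨y2, y2_type, Subtype.ext ?_, Subtype.ext ?_, Subtype.ext ?_⟩
          · change c3 0 2 4 * c3 1 3 5 * u0 = (d : Perm (Fin 6)) * (c3 0 2 4 * c3 1 3 5)
            rw [h]; decide +kernel
          · change c3 0 2 4 * c3 1 3 5 * (d : Perm (Fin 6)) =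
              u0 * (d : Perm (Fin 6)) * (c3 0 2 4 * c3 1 3 5)
            rw [h]; decide +kernel
          · change (c3 0 2 4 * c3 1 3 5 : Perm (Fin 6)) ^ 3 = 1
            decide +kernel
      obtain ⟨r1, r2, r3⟩ := rel_map hU hx1 hx2 hx3
      obtain ⟨i, hi⟩ := fix_three (hφ.img x hx)
      rcases h' with h' | h'
      · rw [h'] at r1 r2
        exact chk_b1 _ r1 r2 r3 i hi
      · rw [h'] at r1 r2
        exact chk_b2 _ r1 r2 r3 i hi
    rcases hd'.cases with h' | h'
    · rcases h with h | h <;> rcases h' with h' | h' <;>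
        exact hfin _ _ h' h (by decide +kernel)
    · exact absurd h' hnot

theorem root {x c : A6} (hx : x * x = U) (hc : c * c = U) : x = c ∨ x = c⁻¹ := by
  let R := Finset.univ.filter (fun d : Perm (Fin 6) => d * d = u0 ∧ sign d = 1)
  have hR : R.card = 2 := chk_root
  have hmem : ∀ g : A6, g * g = U → (g : Perm (Fin 6)) ∈ R := by
    intro g hg
    rw [Finset.mem_filter]
    exact ⟨Finset.mem_univ _, congrArg Subtype.val hg, mem_alternatingGroup.1 g.2⟩
  have hUU : U⁻¹ = U := Subtype.ext (by decide +kernel)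
  have hc' : c⁻¹ * c⁻¹ = U := by rw [← mul_inv_rev, hc, hUU]
  have hne : (c : Perm (Fin 6)) ≠ (c⁻¹ : A6) := by
    intro h
    have h1 : c = c⁻¹ := Subtype.ext h
    have h2 : c * c = 1 := by nth_rewrite 1 [h1]; exact inv_mul_cancel c
    rw [hc] at h2
    have h3 : u0 = 1 := congrArg Subtype.val h2
    exact absurd h3 (by decide +kernel)
  have hsub : ({(c : Perm (Fin 6)), ((c⁻¹ : A6) : Perm (Fin 6))} : Finset (Perm (Fin 6))) ⊆ R := by
    intro g hg
    rw [Finset.mem_insert, Finset.mem_singleton] at hg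
    rcases hg with rfl | rfl
    · exact hmem c hc
    · exact hmem c⁻¹ hc'
  have heq := Finset.eq_of_subset_of_card_le hsub (by rw [hR, Finset.card_pair hne])
  have hx' := hmem x hx
  rw [← heq, Finset.mem_insert, Finset.mem_singleton] at hx'
  rcases hx' with h | h
  · left; exact Subtype.ext h
  · right; exact Subtype.ext h

theorem conj_ne_one : (MulAut.conj U : MulAut A6) ≠ 1 := by
  intro h
  have h1 : u0 = 1 := by
    apply eq_one_of_centralize (α := Fin 6) (by simp)
    intro x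
    have h2 : MulAut.conj U x = x := by rw [h]; rfl
    exact congrArg Subtype.val h2
  exact absurd h1 (by decide +kernel)

theorem bad {φ : MulAut A6} (hφ : Exo φ) (h4 : φ ^ 4 = 1) (hU : φ U = U) {d : A6} (hd : Nc d) :
    (φ * MulAut.conj d) ^ 4 ≠ 1 := by
  have hU' : φ⁻¹ U = U := by
    have : φ⁻¹ (φ U) = U := MulAut.inv_apply_self _ _ _
    rwa [hU] at this
  have hc := swapV hφ.inv hU' hd
  set c := φ⁻¹ d * d with hcdef
  have h1 : φ⁻¹ c * φ⁻¹ c = U := by rw [← map_mul, hc, hU']
  have h2 : φ⁻¹ (φ⁻¹ c) = c := by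
    rcases root h1 hc with h | h
    · rw [h, h]
    · rw [h, map_inv, h, inv_inv]
  have hmove : ∀ (ζ : MulAut A6) (a : A6), MulAut.conj a * ζ = ζ * MulAut.conj (ζ⁻¹ a) := by
    intro ζ a
    rw [conj_mul_comm, MulAut.apply_inv_self]
  have e1 : (φ * MulAut.conj d) ^ 2 = φ ^ 2 * MulAut.conj c := by
    rw [pow_two, pow_two]
    calc φ * MulAut.conj d * (φ * MulAut.conj d) = φ * (MulAut.conj d * φ) * MulAut.conj d := by
          group
      _ = φ * (φ * MulAut.conj (φ⁻¹ d)) * MulAut.conj d := by rw [hmove]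
      _ = φ * φ * (MulAut.conj (φ⁻¹ d) * MulAut.conj d) := by group
      _ = φ * φ * MulAut.conj c := by rw [← map_mul]
  have h3 : (φ ^ 2)⁻¹ c = c := by
    have : (φ ^ 2)⁻¹ = φ⁻¹ * φ⁻¹ := by group
    rw [this, MulAut.mul_apply, h2]
  have e2 : (φ * MulAut.conj d) ^ 4 = φ ^ 4 * MulAut.conj U := by
    have : (φ * MulAut.conj d) ^ 4 = ((φ * MulAut.conj d) ^ 2) ^ 2 := by rw [← pow_mul]
    rw [this, e1]
    calc (φ ^ 2 * MulAut.conj c) ^ 2 = φ ^ 2 * (MulAut.conj c * φ ^ 2) * MulAut.conj c := by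
          rw [pow_two (φ ^ 2 * MulAut.conj c)]
          simp only [mul_assoc]
      _ = φ ^ 2 * (φ ^ 2 * MulAut.conj ((φ ^ 2)⁻¹ c)) * MulAut.conj c := by rw [hmove]
      _ = φ ^ 2 * φ ^ 2 * (MulAut.conj c * MulAut.conj c) := by
          rw [h3]; simp only [mul_assoc]
      _ = φ ^ 4 * MulAut.conj U := by rw [← pow_add, ← map_mul, hc]
  rw [e2, h4, one_mul]
  exact conj_ne_one

end Pool.Agent.Lib.MP_bacaed_al
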