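import Pool.Agent.Lib.MP_bacaed_al.SixC

/-! The exotic cosets of the alternating group of degree six: the counts. -/

namespace Pool.Agent.Lib.MP_bacaed_al

open Equiv Equiv.Perm

theorem coset_eq (ψ : MulAut A6) (t t0 : A6) :
    MulAut.conj t * ψ = (MulAut.conj t0 * ψ) *
      MulAut.conj ((MulAut.conj t0 * ψ)⁻¹ (t * t0⁻¹)) := by
  rw [conj_mul_comm, MulAut.apply_inv_self, ← mul_assoc, ← map_mul, inv_mul_cancel_right]

theorem conj_inj {b : A6} (h : (MulAut.conj b : MulAut A6) = 1) : b = 1 := by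
  apply Subtype.ext
  apply eq_one_of_centralize (α := Fin 6) (by simp)
  intro x
  have h2 : MulAut.conj b x = x := by rw [h]; rfl
  exact congrArg Subtype.val h2

theorem commute_of_fix {φ : MulAut A6} {a x : A6} (h : (φ * MulAut.conj a) x = φ x) :
    a * x = x * a := by
  rw [MulAut.mul_apply, MulAut.conj_apply] at h
  have h1 := φ.injective h
  exact mul_inv_eq_iff_eq_mul.1 h1

theorem Y_le {ψ : MulAut A6} (hψ : Exo ψ) :
    Nat.card {t : A6 // (MulAut.conj t * ψ) ^ 4 = 1 ∧ (MulAut.conj t * ψ) U = U} ≤ 4 := by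
  by_cases hne : Nonempty {t : A6 // (MulAut.conj t * ψ) ^ 4 = 1 ∧ (MulAut.conj t * ψ) U = U}
  swap
  · rw [not_nonempty_iff] at hne
    rw [Nat.card_of_isEmpty]
    exact Nat.zero_le _
  obtain ⟨t0, h40, hU0⟩ := hne
  have hφ : Exo (MulAut.conj t0 * ψ) := hψ.conj_mul t0
  have hcard : Nat.card {d : Perm (Fin 6) // d * u0 = u0 * d ∧ sign d = 1 ∧
      ¬ (d * d = 1 ∧ d ≠ 1 ∧ d ≠ u0)} = 4 := by
    rw [Nat.card_eq_fintype_card, Fintype.card_subtype]
    exact chk_cent
  refine le_trans ?_ (le_of_eq hcard)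
  have hcomm : ∀ t : A6, (MulAut.conj t * ψ) U = U →
      ((MulAut.conj t0 * ψ)⁻¹ (t * t0⁻¹)) * U = U * ((MulAut.conj t0 * ψ)⁻¹ (t * t0⁻¹)) := by
    intro t ht
    rw [coset_eq ψ t t0] at ht
    exact commute_of_fix (by rw [ht, hU0])
  refine Nat.card_le_card_of_injective
    (fun t : {t : A6 // (MulAut.conj t * ψ) ^ 4 = 1 ∧ (MulAut.conj t * ψ) U = U} =>
      (⟨(((MulAut.conj t0 * ψ)⁻¹ (t.1 * t0⁻¹) : A6) : Perm (Fin 6)), ?_, ?_, ?_⟩ :
        {d : Perm (Fin 6) // d * u0 = u0 * d ∧ sign d = 1 ∧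
          ¬ (d * d = 1 ∧ d ≠ 1 ∧ d ≠ u0)})) ?_
  · exact congrArg Subtype.val (hcomm t.1 t.2.2)
  · exact mem_alternatingGroup.1 ((MulAut.conj t0 * ψ)⁻¹ (t.1 * t0⁻¹)).2
  · rintro ⟨k1, k2, k3⟩
    have hNc : Nc ((MulAut.conj t0 * ψ)⁻¹ (t.1 * t0⁻¹)) :=
      ⟨hcomm t.1 t.2.2, Subtype.ext k1, fun h => k2 (congrArg Subtype.val h),
        fun h => k3 (congrArg Subtype.val h)⟩
    apply bad hφ h40 hU0 hNc
    rw [← coset_eq]
    exact t.2.1
  · intro t t' htt
    have h1 : (((MulAut.conj t0 * ψ)⁻¹ (t.1 * t0⁻¹) : A6) : Perm (Fin 6)) =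
        (((MulAut.conj t0 * ψ)⁻¹ (t'.1 * t0⁻¹) : A6) : Perm (Fin 6)) :=
      congrArg (fun d : {d : Perm (Fin 6) // d * u0 = u0 * d ∧ sign d = 1 ∧
          ¬ (d * d = 1 ∧ d ≠ 1 ∧ d ≠ u0)} => d.1) htt
    have h2 : t.1 * t0⁻¹ = t'.1 * t0⁻¹ := (MulAut.conj t0 * ψ)⁻¹.injective (Subtype.ext h1)
    exact Subtype.ext (mul_right_cancel h2)

theorem inv_type {g : A6} (h : g * g = 1) (hne : g ≠ 1) :
    (g : Perm (Fin 6)).cycleType = Multiset.replicate 2 2 := by
  have hord : orderOf (g : Perm (Fin 6)) = 2 := by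
    rw [Subgroup.orderOf_coe]
    have : Fact (Nat.Prime 2) := ⟨Nat.prime_two⟩
    exact orderOf_eq_prime (by rw [pow_two]; exact h) hne
  obtain ⟨n, hn⟩ := cycleType_prime_order (σ := (g : Perm (Fin 6)))
    (by rw [hord]; exact Nat.prime_two)
  rw [hord] at hn
  have hle := sum_cycleType_le (g : Perm (Fin 6))
  rw [hn, Multiset.sum_replicate, smul_eq_mul, Fintype.card_fin] at hle
  have hs := mem_alternatingGroup.1 g.2
  rw [sign_of_cycleType, hn, Multiset.sum_replicate, Multiset.card_replicate, smul_eq_mul] at hs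
  have hn1 : n = 0 ∨ n = 1 ∨ n = 2 := by omega
  rcases hn1 with rfl | rfl | rfl
  · exact absurd hs (by decide)
  · exact hn
  · exact absurd hs (by decide)

theorem U_type : (U : Perm (Fin 6)).cycleType = Multiset.replicate 2 2 :=
  inv_type (Subtype.ext (by decide +kernel)) (fun h => absurd (congrArg Subtype.val h)
    (by decide +kernel : ¬ (u0 = 1)))

theorem two_type {g : A6} (h : (g : Perm (Fin 6)).cycleType = Multiset.replicate 2 2) :
    g * g = 1 ∧ g ≠ 1 := by
  have hord : orderOf g = 2 := by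
    rw [← Subgroup.orderOf_coe, ← lcm_cycleType, h]; decide
  constructor
  · rw [← pow_two, ← hord]
    exact pow_orderOf_eq_one g
  · rintro rfl
    rw [orderOf_one] at hord
    omega

theorem type_map (φ : MulAut A6) {g : A6}
    (h : (g : Perm (Fin 6)).cycleType = Multiset.replicate 2 2) :
    (φ g : Perm (Fin 6)).cycleType = Multiset.replicate 2 2 := by
  obtain ⟨h1, h2⟩ := two_type h
  refine inv_type (by rw [← map_mul, h1, map_one]) (fun h3 => h2 (φ.injective ?_))
  rw [h3, map_one]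

theorem Yu_le {ψ : MulAut A6} (hψ : Exo ψ) {u : A6}
    (hu : (u : Perm (Fin 6)).cycleType = Multiset.replicate 2 2) :
    Nat.card {t : A6 // (MulAut.conj t * ψ) ^ 4 = 1 ∧ (MulAut.conj t * ψ) u = u} ≤ 4 := by
  have hsupp : (u : Perm (Fin 6)).support.card = 4 := by
    rw [← sum_cycleType, hu]; rfl
  have hconj : IsConj u U := alternatingGroup.isConj_of
    (isConj_iff_cycleType_eq.2 (hu.trans U_type.symm)) (by rw [hsupp]; simp)
  obtain ⟨w, hw⟩ := isConj_iff.1 hconj
  refine le_trans ?_ (Y_le hψ)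
  have key : ∀ t : A6, MulAut.conj (w * t * (ψ w)⁻¹) * ψ =
      MulAut.conj w * (MulAut.conj t * ψ) * (MulAut.conj w)⁻¹ := by
    intro t
    have h1 : ψ * MulAut.conj w⁻¹ = MulAut.conj (ψ w⁻¹) * ψ := conj_mul_comm ψ w⁻¹
    calc MulAut.conj (w * t * (ψ w)⁻¹) * ψ =
        MulAut.conj w * MulAut.conj t * (MulAut.conj (ψ w⁻¹) * ψ) := by
          rw [map_mul, map_mul, map_inv ψ w]; simp only [mul_assoc]
      _ = MulAut.conj w * MulAut.conj t * (ψ * MulAut.conj w⁻¹) := by rw [h1]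
      _ = MulAut.conj w * (MulAut.conj t * ψ) * (MulAut.conj w)⁻¹ := by
          rw [map_inv]; simp only [mul_assoc]
  refine Nat.card_le_card_of_injective
    (fun t : {t : A6 // (MulAut.conj t * ψ) ^ 4 = 1 ∧ (MulAut.conj t * ψ) u = u} =>
      (⟨w * t.1 * (ψ w)⁻¹, ?_, ?_⟩ :
        {t : A6 // (MulAut.conj t * ψ) ^ 4 = 1 ∧ (MulAut.conj t * ψ) U = U})) ?_
  · rw [key, conj_pow, t.2.1, mul_one, mul_inv_cancel]
  · rw [key, MulAut.mul_apply, MulAut.mul_apply]
    have h2 : (MulAut.conj w)⁻¹ U = u := by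
      rw [← map_inv, MulAut.conj_apply, ← hw]
      group
    rw [h2, t.2.2, MulAut.conj_apply, hw]
  · intro t t' htt
    have h1 : w * t.1 * (ψ w)⁻¹ = w * t'.1 * (ψ w)⁻¹ := congrArg Subtype.val htt
    exact Subtype.ext (mul_left_cancel (mul_right_cancel h1))

theorem card_two_type : (Finset.univ.filter (fun g : A6 => (g : Perm (Fin 6)).cycleType =
    Multiset.replicate 2 2)).card = 45 := by
  have h := AlternatingGroup.card_of_cycleType (Fin 6) (Multiset.replicate 2 2)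
  rw [Fintype.card_fin] at h
  refine h.trans ?_
  decide

theorem exists_fixed (φ : MulAut A6) (h4 : φ ^ 4 = 1) :
    ∃ u : A6, (u : Perm (Fin 6)).cycleType = Multiset.replicate 2 2 ∧ φ u = u := by
  classical
  let f : Function.End {g : A6 // (g : Perm (Fin 6)).cycleType = Multiset.replicate 2 2} :=
    fun g => ⟨φ g.1, type_map φ g.2⟩
  have h4' : φ * φ * φ * φ = 1 := by
    rw [← h4]; simp only [pow_succ, pow_zero, one_mul]
  have hf : f ^ 2 ^ 2 = 1 := by
    have e : f ^ 2 ^ 2 = f * f * f * f := by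
      norm_num
      simp only [pow_succ, pow_zero, one_mul]
    rw [e]
    funext g
    apply Subtype.ext
    have : (φ * φ * φ * φ) g.1 = g.1 := by rw [h4']; rfl
    exact this
  have : Fact (Nat.Prime 2) := ⟨Nat.prime_two⟩
  have h1 := Equiv.Perm.card_fixedPoints_modEq hf
  have h2 : Fintype.card {g : A6 // (g : Perm (Fin 6)).cycleType = Multiset.replicate 2 2} =
      45 := by
    rw [Fintype.card_subtype]
    exact card_two_type
  rw [h2] at h1
  have h3 : 0 < Fintype.card f.fixedPoints := by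
    rcases Nat.eq_zero_or_pos (Fintype.card f.fixedPoints) with h | h
    · rw [h] at h1
      exact absurd h1 (by decide)
    · exact h
  obtain ⟨g, hg⟩ := Fintype.card_pos_iff.1 h3
  exact ⟨g.1, g.2, congrArg Subtype.val hg⟩

theorem X_le {ψ : MulAut A6} (hψ : Exo ψ) :
    Nat.card {t : A6 // (MulAut.conj t * ψ) ^ 4 = 1} ≤ 180 := by
  let I : Type := {g : A6 // (g : Perm (Fin 6)).cycleType = Multiset.replicate 2 2}
  have : Fintype I := Fintype.ofFinite I
  have hI : Nat.card I = 45 := by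
    change Nat.card {g : A6 // (g : Perm (Fin 6)).cycleType = Multiset.replicate 2 2} = 45
    rw [Nat.card_eq_fintype_card, Fintype.card_subtype]
    exact card_two_type
  let Y : I → Type := fun u =>
    {t : A6 // (MulAut.conj t * ψ) ^ 4 = 1 ∧ (MulAut.conj t * ψ) u.1 = u.1}
  let F : {t : A6 // (MulAut.conj t * ψ) ^ 4 = 1} → Σ u : I, Y u := fun t =>
    ⟨⟨Classical.choose (exists_fixed (MulAut.conj t.1 * ψ) t.2),
      (Classical.choose_spec (exists_fixed (MulAut.conj t.1 * ψ) t.2)).1⟩,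
     ⟨t.1, t.2, (Classical.choose_spec (exists_fixed (MulAut.conj t.1 * ψ) t.2)).2⟩⟩
  have hF : Function.Injective F := by
    intro t t' htt
    have h1 : (F t).2.1 = (F t').2.1 := congrArg (fun x : (Σ u : I, Y u) => x.2.1) htt
    exact Subtype.ext h1
  refine (Nat.card_le_card_of_injective F hF).trans ?_
  rw [Nat.card_sigma]
  calc ∑ u : I, Nat.card (Y u) ≤ ∑ _u : I, 4 := Finset.sum_le_sum (fun u _ => Yu_le hψ u.2)
    _ = 180 := by
        rw [Finset.sum_const, Finset.card_univ, ← Nat.card_eq_fintype_card, hI]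
        rfl

def x0 : A6 := ⟨c3 0 1 2, (c3_three (by decide) (by decide) (by decide)).mem_alternatingGroup⟩

theorem x0_three : (x0 : Perm (Fin 6)).IsThreeCycle :=
  c3_three (by decide) (by decide) (by decide)

theorem X2_le {ψ : MulAut A6} (hψ : Exo ψ) :
    Nat.card {t : A6 // (MulAut.conj t * ψ) ^ 2 = 1} ≤ 40 := by
  have hcard : Nat.card {y : A6 // (y : Perm (Fin 6)).cycleType = Multiset.replicate 2 3} =
      40 := by
    rw [Nat.card_eq_fintype_card, Fintype.card_subtype]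
    exact card_F2 (by simp)
  refine le_trans ?_ (le_of_eq hcard)
  refine Nat.card_le_card_of_injective
    (fun t : {t : A6 // (MulAut.conj t * ψ) ^ 2 = 1} =>
      (⟨(MulAut.conj t.1 * ψ) x0, hψ.conj_mul t.1 x0 x0_three⟩ :
        {y : A6 // (y : Perm (Fin 6)).cycleType = Multiset.replicate 2 3})) ?_
  rintro ⟨t, ht⟩ ⟨s, hs⟩ hts
  have h1 : (MulAut.conj t * ψ) x0 = (MulAut.conj s * ψ) x0 := congrArg Subtype.val hts
  have hφ : Exo (MulAut.conj t * ψ) := hψ.conj_mul t
  rw [coset_eq ψ s t] at h1 hs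
  set φ := MulAut.conj t * ψ with hφdef
  set a := φ⁻¹ (s * t⁻¹) with ha
  have hcomm : a * x0 = x0 * a := commute_of_fix h1.symm
  have ha3 : a ^ 3 = 1 := by
    apply Subtype.ext
    exact chk_three (a : Perm (Fin 6)) (congrArg Subtype.val hcomm) (mem_alternatingGroup.1 a.2)
  have e1 : (φ * MulAut.conj a) ^ 2 = φ ^ 2 * MulAut.conj (φ⁻¹ a * a) := by
    have hmove : MulAut.conj a * φ = φ * MulAut.conj (φ⁻¹ a) := by
      rw [conj_mul_comm, MulAut.apply_inv_self]
    calc (φ * MulAut.conj a) ^ 2 = φ * (MulAut.conj a * φ) * MulAut.conj a := by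
          rw [pow_two]; simp only [mul_assoc]
      _ = φ * (φ * MulAut.conj (φ⁻¹ a)) * MulAut.conj a := by rw [hmove]
      _ = φ ^ 2 * MulAut.conj (φ⁻¹ a * a) := by
          rw [pow_two, map_mul]; simp only [mul_assoc]
  rw [e1, ht, one_mul] at hs
  have h2 := conj_inj hs
  have h3 : φ⁻¹ a = a⁻¹ := eq_inv_of_mul_eq_one_left h2
  have h4 : a = 1 := hφ.inv.not_inv ha3 h3
  have h5 : s * t⁻¹ = 1 := φ⁻¹.injective (by rw [← ha, h4, map_one])
  have h6 : t = s := (mul_inv_eq_one.1 h5).symm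
  exact Subtype.ext h6

end Pool.Agent.Lib.MP_bacaed_al
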