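import Pool.Agent.Lib.MP_bacaed_al.SixD
import Pool.Agent.Lib.MP_bacaed_al.FourAlt

/-! The case `k = 4` for the alternating group of degree six. -/

namespace Pool.Agent.Lib.MP_bacaed_al

open Equiv Equiv.Perm

theorem NN_four_six : NN 4 6 ≤ 256 := by
  have r0 := NN_zero 4
  have r1 := NN_one 4
  have r2 : NN 4 2 ≤ 2 := by
    have h := rec_ineq 4 2
    have h2 : (Finset.Icc 2 2).filter (fun m => m ∣ 4) = {2} := by decide
    rw [h2, Finset.sum_singleton] at h
    have d : Nat.descFactorial 2 2 = 2 := by decide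
    rw [d, show 2 - 1 = 1 from rfl, show 2 - 2 = 0 from rfl] at h
    omega
  have r3 : NN 4 3 ≤ 4 := by
    have h := rec_ineq 4 3
    have h2 : (Finset.Icc 2 3).filter (fun m => m ∣ 4) = {2} := by decide
    rw [h2, Finset.sum_singleton] at h
    have d : Nat.descFactorial 3 2 = 6 := by decide
    rw [d, show 3 - 1 = 2 from rfl, show 3 - 2 = 1 from rfl] at h
    omega
  have r4 : NN 4 4 ≤ 16 := by
    have h := rec_four 4 (by norm_num)
    rw [show Nat.descFactorial 4 2 = 12 by decide, show Nat.descFactorial 4 4 = 24 by decide,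
      show 4 - 1 = 3 from rfl, show 4 - 2 = 2 from rfl, show 4 - 4 = 0 from rfl] at h
    omega
  have r5 := NN_four_small.1
  have h := rec_four 6 (by norm_num)
  rw [show Nat.descFactorial 6 2 = 30 by decide, show Nat.descFactorial 6 4 = 360 by decide,
    show 6 - 1 = 5 from rfl, show 6 - 2 = 4 from rfl, show 6 - 4 = 2 from rfl] at h
  omega

theorem six_counts : Nat.card {t : Perm (Fin 6) // t ^ 4 = 1 ∧ sign t = 1} ≤ 136 ∧
    Nat.card {t : Perm (Fin 6) // t ^ 4 = 1 ∧ sign t = -1} ≤ 136 := by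
  classical
  set E := Finset.univ.filter (fun g : Perm (Fin 6) => g ^ 4 = 1) with hE
  set E1 := Finset.univ.filter (fun g : Perm (Fin 6) => g ^ 4 = 1 ∧ sign g = 1) with hE1
  set E2 := Finset.univ.filter (fun g : Perm (Fin 6) => g ^ 4 = 1 ∧ sign g = -1) with hE2
  have hcE : E.card ≤ 256 := by
    have h := NN_four_six
    rwa [NN, Nat.card_eq_fintype_card, Fintype.card_subtype] at h
  have hdis : Disjoint E1 E2 := by
    rw [Finset.disjoint_left]
    intro g h1 h2
    rw [hE1, Finset.mem_filter] at h1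
    rw [hE2, Finset.mem_filter] at h2
    rw [h1.2.2] at h2
    exact absurd h2.2.2 (by decide)
  have hsum : E1.card + E2.card ≤ 256 := by
    rw [← Finset.card_union_of_disjoint hdis]
    refine le_trans (Finset.card_le_card ?_) hcE
    intro g hg
    rw [Finset.mem_union, hE1, hE2, Finset.mem_filter, Finset.mem_filter] at hg
    rw [hE, Finset.mem_filter]
    rcases hg with h | h
    · exact ⟨h.1, h.2.1⟩
    · exact ⟨h.1, h.2.1⟩
  let F : Multiset ℕ → Finset (Perm (Fin 6)) := fun m =>
    Finset.univ.filter (fun g : Perm (Fin 6) => g.cycleType = m)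
  have hF : ∀ m g, g ∈ F m ↔ g.cycleType = m := by
    intro m g; simp [F]
  have hcF : ∀ m c, (if m.sum ≤ 6 ∧ ∀ a ∈ m, 2 ≤ a then (Nat.factorial 6) /
      ((Nat.factorial (6 - m.sum)) * m.prod * (∏ n ∈ m.toFinset, Nat.factorial (m.count n)))
      else 0) = c → (F m).card = c := by
    intro m c h
    change (Finset.univ.filter (fun g : Perm (Fin 6) => g.cycleType = m)).card = c
    rw [card_of_cycleType, Fintype.card_fin]
    exact h
  have c0 : (F 0).card = 1 := hcF 0 1 (by decide)
  have c22 : (F {2, 2}).card = 45 := hcF {2, 2} 45 (by decide)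
  have c42 : (F {4, 2}).card = 90 := hcF {4, 2} 90 (by decide)
  have c2 : (F {2}).card = 15 := hcF {2} 15 (by decide)
  have c222 : (F {2, 2, 2}).card = 15 := hcF {2, 2, 2} 15 (by decide)
  have c4 : (F {4}).card = 90 := hcF {4} 90 (by decide)
  have hd : ∀ m m' : Multiset ℕ, m ≠ m' → Disjoint (F m) (F m') := by
    intro m m' hmm
    rw [Finset.disjoint_left]
    intro g h1 h2
    rw [hF] at h1 h2
    exact hmm (h1.symm.trans h2)
  have l1 : 136 ≤ E1.card := by
    have h : (F 0 ∪ (F {2, 2} ∪ F {4, 2})).card = 136 := by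
      rw [Finset.card_union_of_disjoint, Finset.card_union_of_disjoint (hd _ _ (by decide)), c0,
        c22, c42]
      rw [Finset.disjoint_union_right]
      exact ⟨hd _ _ (by decide), hd _ _ (by decide)⟩
    rw [← h]
    refine Finset.card_le_card ?_
    intro g hg
    rw [Finset.mem_union, Finset.mem_union, hF, hF, hF] at hg
    rw [hE1, Finset.mem_filter, ← orderOf_dvd_iff_pow_eq_one, ← lcm_cycleType, sign_of_cycleType]
    rcases hg with h | h | h <;> rw [h] <;> exact ⟨Finset.mem_univ _, by decide, by decide⟩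
  have l2 : 120 ≤ E2.card := by
    have h : (F {2} ∪ (F {2, 2, 2} ∪ F {4})).card = 120 := by
      rw [Finset.card_union_of_disjoint, Finset.card_union_of_disjoint (hd _ _ (by decide)), c2,
        c222, c4]
      rw [Finset.disjoint_union_right]
      exact ⟨hd _ _ (by decide), hd _ _ (by decide)⟩
    rw [← h]
    refine Finset.card_le_card ?_
    intro g hg
    rw [Finset.mem_union, Finset.mem_union, hF, hF, hF] at hg
    rw [hE2, Finset.mem_filter, ← orderOf_dvd_iff_pow_eq_one, ← lcm_cycleType, sign_of_cycleType]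
    rcases hg with h | h | h <;> rw [h] <;> exact ⟨Finset.mem_univ _, by decide, by decide⟩
  constructor
  · rw [Nat.card_eq_fintype_card, Fintype.card_subtype]
    change E1.card ≤ 136
    omega
  · rw [Nat.card_eq_fintype_card, Fintype.card_subtype]
    change E2.card ≤ 136
    omega

/-- An automorphism of degree six which is not exotic is a conjugation. -/
theorem exists_conj_six {ψ : MulAut A6} (hψ : ¬ Exo ψ) :
    ∃ σ : Perm (Fin 6), ψ = MulAut.conjNormal σ := by
  have h3 : ∀ x : A6, (x : Perm (Fin 6)).IsThreeCycle → (ψ x : Perm (Fin 6)).IsThreeCycle := by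
    rcases dichotomy ψ with h | h
    · exact h
    · exact absurd h hψ
  obtain ⟨σ, hσ⟩ := exists_conj ψ h3 (p0 := (0 : Fin 6)) (p1 := 1) (q0 := 2) (q1 := 3)
    (by decide) (by decide) (by decide) (by decide) (by decide) (by decide)
  refine ⟨σ, ?_⟩
  apply MulEquiv.ext
  intro x
  apply Subtype.ext
  rw [MulAut.conjNormal_apply, hσ]

theorem conjNormal_inj_six {τ : Perm (Fin 6)}
    (h : (MulAut.conjNormal τ : MulAut A6) = 1) : τ = 1 := by
  apply eq_one_of_centralize (α := Fin 6) (by simp)
  intro x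
  have h1 : (MulAut.conjNormal τ : MulAut A6) x = x := by rw [h]; rfl
  have h2 : ((MulAut.conjNormal τ : MulAut A6) x : Perm (Fin 6)) =
      τ * (x : Perm (Fin 6)) * τ⁻¹ := MulAut.conjNormal_apply _ _
  rw [← h2, h1]

theorem cnt_eq_six {ψ : MulAut A6} (hψ : ¬ Exo ψ) :
    ∃ σ : Perm (Fin 6), ∀ k : ℕ, cnt k A6 ψ =
      Nat.card {t : A6 // ((t : Perm (Fin 6)) * σ) ^ k = 1} := by
  obtain ⟨σ, rfl⟩ := exists_conj_six hψ
  refine ⟨σ, fun k => Nat.card_congr (Equiv.subtypeEquivRight (fun t => ?_))⟩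
  rw [conj_eq_conjNormal, ← map_mul, ← map_pow]
  constructor
  · intro h
    exact conjNormal_inj_six h
  · intro h
    rw [h, map_one]

theorem cnt_four_nonexo {ψ : MulAut A6} (hψ : ¬ Exo ψ) : cnt 4 A6 ψ ≤ 136 := by
  obtain ⟨σ, hσ⟩ := cnt_eq_six hψ
  rw [hσ]
  have hs : ∀ t : A6, sign ((t : Perm (Fin 6)) * σ) = sign σ := by
    intro t
    rw [map_mul, mem_alternatingGroup.1 t.2, one_mul]
  rcases Int.units_eq_one_or (sign σ) with h | h
  · refine le_trans ?_ six_counts.1
    refine Nat.card_le_card_of_injective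
      (fun t : {t : A6 // ((t : Perm (Fin 6)) * σ) ^ 4 = 1} =>
        (⟨(t.1 : Perm (Fin 6)) * σ, t.2, (hs t.1).trans h⟩ :
          {g : Perm (Fin 6) // g ^ 4 = 1 ∧ sign g = 1})) ?_
    intro a b hab
    apply Subtype.ext
    apply Subtype.ext
    exact mul_right_cancel (congrArg Subtype.val hab)
  · refine le_trans ?_ six_counts.2
    refine Nat.card_le_card_of_injective
      (fun t : {t : A6 // ((t : Perm (Fin 6)) * σ) ^ 4 = 1} =>
        (⟨(t.1 : Perm (Fin 6)) * σ, t.2, (hs t.1).trans h⟩ :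
          {g : Perm (Fin 6) // g ^ 4 = 1 ∧ sign g = -1})) ?_
    intro a b hab
    apply Subtype.ext
    apply Subtype.ext
    exact mul_right_cancel (congrArg Subtype.val hab)

theorem cnt_four_six (ψ : MulAut A6) : cnt 4 A6 ψ ≤ 180 := by
  by_cases h : Exo ψ
  · exact X_le h
  · exact (cnt_four_nonexo h).trans (by norm_num)

theorem cnt_two_six (ψ : MulAut A6) : cnt 2 A6 ψ ≤ 168 := by
  by_cases h : Exo ψ
  · exact (X2_le h).trans (by norm_num)
  · obtain ⟨σ, hσ⟩ := cnt_eq_six h
    rw [hσ]
    have h1 : Nat.card {t : A6 // ((t : Perm (Fin 6)) * σ) ^ 2 = 1} ≤ NN 2 6 := by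
      refine Nat.card_le_card_of_injective
        (fun t : {t : A6 // ((t : Perm (Fin 6)) * σ) ^ 2 = 1} =>
          (⟨(t.1 : Perm (Fin 6)) * σ, t.2⟩ : {g : Perm (Fin 6) // g ^ 2 = 1})) ?_
      intro a b hab
      apply Subtype.ext
      apply Subtype.ext
      exact mul_right_cancel (congrArg Subtype.val hab)
    have h2 := NN_two 6 (by norm_num)
    have h3 : Nat.factorial 6 = 720 := by decide
    rw [h3] at h2
    omega

theorem card_eq_sum {Q : Type} [Group Q] [Fintype Q] (S : Subgroup Q) (k : ℕ) :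
    Nat.card {g : Q // g ^ k = 1} * Nat.card S =
      ∑ z : Q, Nat.card {s : S // ((s : Q) * z) ^ k = 1} := by
  classical
  have e : {g : Q // g ^ k = 1} × S ≃ Σ z : Q, {s : S // ((s : Q) * z) ^ k = 1} :=
    { toFun := fun p => ⟨(p.2 : Q)⁻¹ * p.1.1, p.2, by
        rw [mul_inv_cancel_left]; exact p.1.2⟩
      invFun := fun q => (⟨(q.2.1 : Q) * q.1, q.2.2⟩, q.2.1)
      left_inv := by
        intro p
        apply Prod.ext
        · apply Subtype.ext
          exact mul_inv_cancel_left _ _
        · rfl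
      right_inv := by
        rintro ⟨z, s, hs⟩
        have hz : (s : Q)⁻¹ * ((s : Q) * z) = z := inv_mul_cancel_left _ _
        refine Sigma.ext hz ?_
        refine (Subtype.heq_iff_coe_eq ?_).2 rfl
        intro x
        change (_ * ((s : Q)⁻¹ * ((s : Q) * z))) ^ k = 1 ↔ _
        rw [hz] }
  rw [← Nat.card_prod, Nat.card_congr e, Nat.card_sigma]

theorem normal_six {Q : Type} [Group Q] [Finite Q] (S : Subgroup Q) [S.Normal] (e : S ≃* A6) :
    rho 4 Q ≤ 7 / 15 := by
  classical
  have : Fintype Q := Fintype.ofFinite Q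
  let θ : Q → MulAut A6 := fun z => MulAut.congr e (MulAut.conjNormal z)
  have hθ : ∀ z w, θ (z * w) = θ z * θ w := by
    intro z w
    change MulAut.congr e (MulAut.conjNormal (z * w)) = _
    rw [map_mul, map_mul]
  have hle : ∀ z : Q, Nat.card {s : S // ((s : Q) * z) ^ 4 = 1} ≤ cnt 4 A6 (θ z) := by
    intro z
    change _ ≤ cnt 4 A6 (MulAut.congr e (MulAut.conjNormal z))
    rw [cnt_congr]
    refine Nat.card_le_card_of_injective
      (fun s : {s : S // ((s : Q) * z) ^ 4 = 1} =>
        (⟨s.1, ?_⟩ : {t : S // (MulAut.conj t * MulAut.conjNormal z) ^ 4 = 1})) ?_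
    · rw [← conj_eq_conjNormal', ← map_mul, ← map_pow, s.2, map_one]
    · intro a b hab
      exact Subtype.ext (congrArg
        (fun t : {t : S // (MulAut.conj t * MulAut.conjNormal z) ^ 4 = 1} => t.1) hab)
  let P : Finset Q := Finset.univ.filter (fun z => Exo (θ z))
  let N : Finset Q := Finset.univ.filter (fun z => ¬ Exo (θ z))
  have hPN : P.card + N.card = Fintype.card Q :=
    Finset.card_filter_add_card_filter_not (s := Finset.univ) (fun z => Exo (θ z))
  have hPle : P.card ≤ N.card := by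
    by_cases hP : P.Nonempty
    · obtain ⟨z0, hz0⟩ := hP
      have hz0' : Exo (θ z0) := (Finset.mem_filter.1 hz0).2
      refine Finset.card_le_card_of_injOn (fun z => z0 * z) ?_ ?_
      · intro z hz
        have hz' : Exo (θ z) := (Finset.mem_filter.1 hz).2
        refine Finset.mem_coe.2 (Finset.mem_filter.2 ⟨Finset.mem_univ _, ?_⟩)
        rw [hθ]
        exact hz0'.mul hz'
      · intro a _ b _ hab
        exact mul_left_cancel hab
    · rw [Finset.not_nonempty_iff_eq_empty] at hP
      rw [hP]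
      exact Nat.zero_le _
  have hS : Nat.card S = 360 := by
    have h1 : Nat.card S = Nat.card A6 := Nat.card_congr e.toEquiv
    have h2 : 2 * Nat.card (alternatingGroup (Fin 6)) = 720 := by
      rw [two_mul_card_alt (by norm_num)]; decide
    have h3 : Nat.card A6 = Nat.card (alternatingGroup (Fin 6)) := rfl
    omega
  have hsum := card_eq_sum S 4
  rw [hS] at hsum
  have hbound : ∑ z : Q, Nat.card {s : S // ((s : Q) * z) ^ 4 = 1} ≤
      P.card * 180 + N.card * 136 := by
    rw [← Finset.sum_filter_add_sum_filter_not Finset.univ (fun z => Exo (θ z))]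
    refine Nat.add_le_add ?_ ?_
    · calc ∑ z ∈ P, Nat.card {s : S // ((s : Q) * z) ^ 4 = 1} ≤ ∑ _z ∈ P, 180 :=
            Finset.sum_le_sum (fun z _ => (hle z).trans (cnt_four_six _))
        _ = P.card * 180 := by rw [Finset.sum_const, smul_eq_mul]
    · calc ∑ z ∈ N, Nat.card {s : S // ((s : Q) * z) ^ 4 = 1} ≤ ∑ _z ∈ N, 136 :=
            Finset.sum_le_sum (fun z hz => (hle z).trans
              (cnt_four_nonexo (Finset.mem_filter.1 hz).2))
        _ = N.card * 136 := by rw [Finset.sum_const, smul_eq_mul]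
  have hpos : (0 : ℝ) < Nat.card Q := by exact_mod_cast Nat.card_pos
  rw [rho_eq, div_le_div_iff₀ hpos (by norm_num)]
  have hQ : Nat.card Q = Fintype.card Q := Nat.card_eq_fintype_card
  have hfin : Nat.card {g : Q // g ^ 4 = 1} * 15 ≤ 7 * Nat.card Q := by
    rw [hQ, ← hPN]
    omega
  exact_mod_cast hfin

/-- `k = 4`, all alternating groups. -/
theorem rho_four_all {n : ℕ} (h5 : 5 ≤ n) {G : Type} [Group G] [Finite G]
    (h : HasFactor (alternatingGroup (Fin n)) G) : rho 4 G ≤ 7 / 15 := by
  by_cases h6 : n ≠ 6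
  · exact rho_four_factor h5 h6 h
  rw [not_not] at h6
  subst h6
  obtain ⟨Q, _, f, M, S, hf, hM, hSM, hS, ⟨e⟩⟩ := h
  have : Finite Q := Finite.of_surjective f hf
  refine (rho_le_quot f hf 4).trans ?_
  by_cases hn : ∀ g : Q, ∀ x ∈ S, g * x * g⁻¹ ∈ S
  · have : S.Normal := ⟨fun x hx g => hn g x hx⟩
    exact normal_six S e
  · rw [not_forall] at hn
    obtain ⟨g0, hg0⟩ := hn
    have := alt_simple h5
    have : IsSimpleGroup S := e.isSimpleGroup
    have hc : Nat.card S = 360 := by
      have h1 : Nat.card S = Nat.card (alternatingGroup (Fin 6)) := Nat.card_congr e.toEquiv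
      have h2 : 2 * Nat.card (alternatingGroup (Fin 6)) = 720 := by
        rw [two_mul_card_alt (by norm_num)]; decide
      omega
    have key := card_four_nonnormal M S hM hSM hS g0 hg0 168 180 60480
      (fun ζ => by rw [← cnt_congr e]; exact cnt_two_six _)
      (fun ζ => by rw [← cnt_congr e]; exact cnt_four_six _) (by rw [hc]) (by norm_num)
    rw [hc] at key
    have hpos : (0 : ℝ) < Nat.card Q := by exact_mod_cast Nat.card_pos
    rw [rho_eq, div_le_div_iff₀ hpos (by norm_num)]
    have h5' : Nat.card {g : Q // g ^ 4 = 1} * 15 ≤ 7 * Nat.card Q := by omega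
    exact_mod_cast h5'

end Pool.Agent.Lib.MP_bacaed_al
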